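import Mathlib
import Pool.Graph.R_seed8.H628R4.TP.Defs

set_option autoImplicit false

/-! # Functional equations and changes of coordinates -/

namespace Pool.Agent.Helper16.WM.CoordN

open MvPolynomial Pool.Agent.H628R4.TP

variable {σ : Type}

theorem mul_mem (p : MvPolynomial σ ℂ) : LinearMap.mulLeft ℂ p ∈ weylS σ := by
  induction p using MvPolynomial.induction_on with
  | C a =>
    have h : LinearMap.mulLeft ℂ (C a : MvPolynomial σ ℂ) =
        algebraMap ℂ (Module.End ℂ (MvPolynomial σ ℂ)) a := by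
      refine LinearMap.ext fun q' => ?_
      rw [LinearMap.mulLeft_apply, Module.algebraMap_end_apply, C_mul']
    rw [h]
    exact (weylS σ).algebraMap_mem a
  | add p q hp hq =>
    have h : LinearMap.mulLeft ℂ (p + q) = LinearMap.mulLeft ℂ p + LinearMap.mulLeft ℂ q := by
      refine LinearMap.ext fun q' => ?_
      rw [LinearMap.add_apply, LinearMap.mulLeft_apply, LinearMap.mulLeft_apply,
        LinearMap.mulLeft_apply, add_mul]
    rw [h]
    exact (weylS σ).add_mem hp hq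
  | mul_X p i hp =>
    have h : LinearMap.mulLeft ℂ (p * X i) =
        LinearMap.mulLeft ℂ p * LinearMap.mulLeft ℂ (X i : MvPolynomial σ ℂ) := by
      refine LinearMap.ext fun q' => ?_
      rw [Module.End.mul_apply, LinearMap.mulLeft_apply, LinearMap.mulLeft_apply,
        LinearMap.mulLeft_apply, mul_assoc]
    rw [h]
    exact (weylS σ).mul_mem hp (Algebra.subset_adjoin (Or.inl ⟨i, rfl⟩))

/-- the conjugate of an operator -/
noncomputable def cj (Φ : MvPolynomial σ ℂ ≃ₐ[ℂ] MvPolynomial σ ℂ)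
    (Q : Module.End ℂ (MvPolynomial σ ℂ)) : Module.End ℂ (MvPolynomial σ ℂ) :=
  Φ.toLinearMap ∘ₗ Q ∘ₗ Φ.symm.toLinearMap

theorem cj_apply (Φ : MvPolynomial σ ℂ ≃ₐ[ℂ] MvPolynomial σ ℂ)
    (Q : Module.End ℂ (MvPolynomial σ ℂ)) (p : MvPolynomial σ ℂ) :
    cj Φ Q p = Φ (Q (Φ.symm p)) := rfl

theorem cj_zero (Φ : MvPolynomial σ ℂ ≃ₐ[ℂ] MvPolynomial σ ℂ) : cj Φ 0 = 0 := by
  refine LinearMap.ext fun p => ?_
  rw [cj_apply, LinearMap.zero_apply, map_zero, LinearMap.zero_apply]

theorem der_sum {ι : Type} (s : Finset ι) (g : ι → MvPolynomial σ ℂ)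
    (D : ι → Derivation ℂ (MvPolynomial σ ℂ) (MvPolynomial σ ℂ)) (p : MvPolynomial σ ℂ) :
    (∑ j ∈ s, g j • D j) p = ∑ j ∈ s, g j • D j p := by
  classical
  induction s using Finset.induction_on with
  | empty => rw [Finset.sum_empty, Finset.sum_empty]; rfl
  | insert j s hj ih =>
    rw [Finset.sum_insert hj, Finset.sum_insert hj, Derivation.add_apply, ih,
      Derivation.smul_apply]

/-- the conjugate of a differential operator -/
theorem conj_mem [Fintype σ] (Φ : MvPolynomial σ ℂ ≃ₐ[ℂ] MvPolynomial σ ℂ)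
    (Q : Module.End ℂ (MvPolynomial σ ℂ)) (hQ : Q ∈ weylS σ) : cj Φ Q ∈ weylS σ := by
  classical
  refine Algebra.adjoin_induction (p := fun Q _ => cj Φ Q ∈ weylS σ) ?_ ?_ ?_ ?_ hQ
  · rintro Q (⟨i, rfl⟩ | ⟨i, rfl⟩)
    · have h : cj Φ (LinearMap.mulLeft ℂ (X i : MvPolynomial σ ℂ)) =
          LinearMap.mulLeft ℂ (Φ (X i)) := by
        refine LinearMap.ext fun q => ?_
        rw [cj_apply, LinearMap.mulLeft_apply, LinearMap.mulLeft_apply, map_mul,
          Φ.apply_symm_apply]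
      rw [h]
      exact mul_mem _
    · set D' : Derivation ℂ (MvPolynomial σ ℂ) (MvPolynomial σ ℂ) :=
        ∑ j, Φ (pderiv i (Φ.symm (X j))) • (pderiv j : Derivation ℂ (MvPolynomial σ ℂ)
          (MvPolynomial σ ℂ)) with hD'
      set D : Derivation ℂ (MvPolynomial σ ℂ) (MvPolynomial σ ℂ) :=
        Derivation.mk' (cj Φ ((pderiv i : Derivation ℂ (MvPolynomial σ ℂ) (MvPolynomial σ ℂ)) :
            MvPolynomial σ ℂ →ₗ[ℂ] MvPolynomial σ ℂ)) (fun p q => by
          rw [cj_apply, cj_apply, cj_apply]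
          change Φ (pderiv i (Φ.symm (p * q))) =
            p • Φ (pderiv i (Φ.symm q)) + q • Φ (pderiv i (Φ.symm p))
          rw [map_mul, pderiv_mul, map_add, map_mul, map_mul, Φ.apply_symm_apply,
            Φ.apply_symm_apply, smul_eq_mul, smul_eq_mul]
          ring) with hD
      have hDD : D = D' := by
        refine MvPolynomial.derivation_ext fun k => ?_
        have h1 : D (X k) = Φ (pderiv i (Φ.symm (X k))) := rfl
        have h2 : D' (X k) = ∑ j, Φ (pderiv i (Φ.symm (X j))) • pderiv j (X k) := by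
          rw [hD', der_sum]
        rw [h1, h2, Finset.sum_eq_single k]
        · rw [pderiv_X_self, smul_eq_mul, mul_one]
        · intro j _ hj
          rw [pderiv_X_of_ne hj.symm, smul_zero]
        · intro h
          exact absurd (Finset.mem_univ _) h
      have h3 : cj Φ ((pderiv i : Derivation ℂ (MvPolynomial σ ℂ) (MvPolynomial σ ℂ)) :
            MvPolynomial σ ℂ →ₗ[ℂ] MvPolynomial σ ℂ) =
          ∑ j, LinearMap.mulLeft ℂ (Φ (pderiv i (Φ.symm (X j)))) *
            ((pderiv j : Derivation ℂ (MvPolynomial σ ℂ) (MvPolynomial σ ℂ)) :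
              MvPolynomial σ ℂ →ₗ[ℂ] MvPolynomial σ ℂ) := by
        refine LinearMap.ext fun p => ?_
        have h4 : D p = D' p := by rw [hDD]
        have h5 : D' p = ∑ j, Φ (pderiv i (Φ.symm (X j))) • pderiv j p := by
          rw [hD', der_sum]
        rw [LinearMap.sum_apply]
        change D p = _
        rw [h4, h5]
        rfl
      rw [h3]
      exact (weylS σ).sum_mem fun j _ => (weylS σ).mul_mem (mul_mem _)
        (Algebra.subset_adjoin (Or.inr ⟨j, rfl⟩))
  · intro r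
    have h : cj Φ (algebraMap ℂ (Module.End ℂ (MvPolynomial σ ℂ)) r) =
        algebraMap ℂ (Module.End ℂ (MvPolynomial σ ℂ)) r := by
      refine LinearMap.ext fun p => ?_
      rw [cj_apply, Module.algebraMap_end_apply, Module.algebraMap_end_apply, map_smul,
        Φ.apply_symm_apply]
    rw [h]
    exact (weylS σ).algebraMap_mem r
  · intro Q₁ Q₂ _ _ h1 h2
    have h : cj Φ (Q₁ + Q₂) = cj Φ Q₁ + cj Φ Q₂ := by
      refine LinearMap.ext fun p => ?_
      rw [cj_apply, LinearMap.add_apply, LinearMap.add_apply, map_add, cj_apply, cj_apply]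
    rw [h]
    exact (weylS σ).add_mem h1 h2
  · intro Q₁ Q₂ _ _ h1 h2
    have h : cj Φ (Q₁ * Q₂) = cj Φ Q₁ * cj Φ Q₂ := by
      refine LinearMap.ext fun p => ?_
      rw [cj_apply, Module.End.mul_apply, Module.End.mul_apply, cj_apply, cj_apply,
        Φ.symm_apply_apply]
    rw [h]
    exact (weylS σ).mul_mem h1 h2

/-- functional equations in other coordinates -/
theorem isB_equiv [Fintype σ] (Φ : MvPolynomial σ ℂ ≃ₐ[ℂ] MvPolynomial σ ℂ)
    (f : MvPolynomial σ ℂ) (b : Polynomial ℂ) (h : IsBFunction f b) : IsBFunction (Φ f) b := by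
  obtain ⟨P, hP⟩ := h
  have h0 : (⟨cj Φ ((0 : weylS σ) : Module.End ℂ (MvPolynomial σ ℂ)),
      conj_mem Φ _ (0 : weylS σ).2⟩ : weylS σ) = 0 := by
    apply Subtype.ext
    change cj Φ 0 = 0
    exact cj_zero Φ
  refine ⟨P.mapRange (fun Q : weylS σ => (⟨cj Φ (Q : Module.End ℂ (MvPolynomial σ ℂ)),
    conj_mem Φ _ Q.2⟩ : weylS σ)) h0, fun s => ?_⟩
  have h1 := congrArg Φ (hP s)
  rw [map_mul, map_pow] at h1
  have h2 : Φ (C (b.eval (s : ℂ))) = C (b.eval (s : ℂ)) := by
    have := Φ.commutes (b.eval (s : ℂ))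
    rwa [MvPolynomial.algebraMap_eq] at this
  rw [h2] at h1
  rw [h1, Finsupp.sum, map_sum, Finsupp.sum_mapRange_index]
  · rw [Finsupp.sum]
    refine Finset.sum_congr rfl fun m _ => ?_
    change Φ (((s : ℂ) ^ m) • (P m : Module.End ℂ (MvPolynomial σ ℂ)) (f ^ (s + 1))) =
      ((s : ℂ) ^ m) • cj Φ (P m : Module.End ℂ (MvPolynomial σ ℂ)) ((Φ f) ^ (s + 1))
    rw [map_smul, cj_apply, ← map_pow Φ f, Φ.symm_apply_apply]
  · intro m
    change ((s : ℂ) ^ m) • (0 : Module.End ℂ (MvPolynomial σ ℂ)) _ = 0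
    rw [LinearMap.zero_apply, smul_zero]

end Pool.Agent.Helper16.WM.CoordN
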