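import Pool.Agent.Helper16.WM.Abs

set_option autoImplicit false

/-! # The root from a critical integral over a chamber: the zeros on the boundary near the support of
the test function are sufficient -/

namespace Pool.Agent.Helper16.WM.AbsL

open MvPolynomial MeasureTheory Filter Topology ProbabilityTheory Pool.Agent.Helper48.RC
  Pool.Agent.Helper16.WM.AbsN
open scoped ContDiff

variable {σ : Type} [Fintype σ]

theorem ibpL {g h : MvPolynomial σ ℝ} {Δ : Set (σ → ℝ)} (hΔ : IsOpen Δ)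
    {ψ : (σ → ℝ) → ℝ} (hfr : ∀ x ∈ frontier Δ, x ∈ tsupport ψ → eval x g = 0) (hgh : g ^ 2 ∣ h)
    (hψ : Test ψ) (i : σ) :
    ∫ x in Δ, ev (pderiv i h) x * ψ x = -∫ x in Δ, ev h x * dt i ψ x := by
  classical
  have hdd : g ∣ pderiv i h := by
    obtain ⟨q, rfl⟩ := hgh
    rw [pderiv_mul, pow_two, pderiv_mul]
    exact ⟨pderiv i g * q + pderiv i g * q + g * pderiv i q, by ring⟩
  have hz : ∀ p : MvPolynomial σ ℝ, g ∣ p → ∀ x ∈ frontier Δ, x ∈ tsupport ψ → ev p x = 0 := by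
    rintro p ⟨q, rfl⟩ x hx hx'
    rw [ev, map_mul, hfr x hx hx', zero_mul]
  have hgh' : g ∣ h := dvd_trans (Dvd.intro_left g (pow_two g).symm) hgh
  set H : (σ → ℝ) → ℝ := Δ.indicator (ev h) with hH
  set H' : (σ → ℝ) → ℝ := Δ.indicator (ev (pderiv i h)) with hH'
  have hder : ∀ x ∈ tsupport ψ, HasLineDerivAt ℝ H (H' x) x (bv i) := by
    intro x hxs
    by_cases hx : x ∈ Δ
    · have h1 : H =ᶠ[𝓝 x] ev h := by
        filter_upwards [hΔ.mem_nhds hx] with y hy
        rw [hH, Set.indicator_of_mem hy]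
      rw [hH', Set.indicator_of_mem hx]
      exact (hasLineDerivAt_ev h x i).congr_of_eventuallyEq h1
    · rw [hH', Set.indicator_of_notMem hx]
      by_cases hx2 : x ∈ closure Δ
      · have hx3 : x ∈ frontier Δ := by
          rw [hΔ.frontier_eq]
          exact ⟨hx2, hx⟩
        have h2 := hasLineDerivAt_ev h x i
        rw [hz _ hdd x hx3 hxs] at h2
        have h3 := hasDerivAt_iff_isLittleO.1 h2
        rw [HasLineDerivAt, hasDerivAt_iff_isLittleO]
        have h4 : H (x + (0 : ℝ) • bv i) = 0 := by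
          rw [zero_smul, add_zero, hH, Set.indicator_of_notMem hx]
        have h5 : ev h (x + (0 : ℝ) • bv i) = 0 := by
          rw [zero_smul, add_zero]
          exact hz _ hgh' x hx3 hxs
        refine Asymptotics.IsBigO.trans_isLittleO ?_ h3
        refine Asymptotics.isBigO_of_le _ fun t => ?_
        simp only [h4, h5, smul_zero, sub_zero]
        exact norm_indicator_le_norm_self (ev h) (x + t • bv i)
      · have h1 : H =ᶠ[𝓝 x] fun _ => 0 := by
          filter_upwards [isClosed_closure.isOpen_compl.mem_nhds hx2] with y hy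
          rw [hH, Set.indicator_of_notMem (fun h => hy (subset_closure h))]
        have h2 : HasLineDerivAt ℝ (fun _ : σ → ℝ => (0 : ℝ)) 0 x (bv i) := hasDerivAt_const _ _
        exact h2.congr_of_eventuallyEq h1
  have hder2 : ∀ x, HasLineDerivAt ℝ ψ (dt i ψ x) x (bv i) := fun x =>
    ((hψ.smooth.differentiable (by norm_num)) x).hasFDerivAt.hasLineDerivAt (bv i)
  have hint : ∀ (p : MvPolynomial σ ℝ) {χ : (σ → ℝ) → ℝ}, Test χ →
      Integrable (fun x => Δ.indicator (ev p) x * χ x) := by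
    intro p χ hχ
    have h1 : (fun x => Δ.indicator (ev p) x * χ x) = Δ.indicator fun x => ev p x * χ x := by
      funext x
      by_cases hx : x ∈ Δ
      · rw [Set.indicator_of_mem hx, Set.indicator_of_mem hx]
      · rw [Set.indicator_of_notMem hx, Set.indicator_of_notMem hx, zero_mul]
    rw [h1]
    exact (hχ.mul p).integrable.indicator hΔ.measurableSet
  have hset : ∀ (p : MvPolynomial σ ℝ) (χ : (σ → ℝ) → ℝ),
      ∫ x in Δ, ev p x * χ x = ∫ x, Δ.indicator (ev p) x * χ x := by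
    intro p χ
    rw [← integral_indicator hΔ.measurableSet]
    congr 1
    funext x
    by_cases hx : x ∈ Δ
    · rw [Set.indicator_of_mem hx, Set.indicator_of_mem hx]
    · rw [Set.indicator_of_notMem hx, Set.indicator_of_notMem hx, zero_mul]
  rw [hset, hset]
  have h1 := integral_bilinear_hasLineDerivAt_right_eq_neg_left_of_integrable
    (μ := (volume : Measure (σ → ℝ))) (f := H) (f' := H') (g := ψ) (g' := dt i ψ) (v := bv i)
    (B := ContinuousLinearMap.mul ℝ ℝ) (hint _ hψ) (hint _ (hψ.dt i)) (hint _ hψ)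
    hder (fun x _ => hder2 x)
  simp only [ContinuousLinearMap.mul_apply'] at h1
  rw [h1, neg_neg]

theorem tsupport_dt (i : σ) (ψ : (σ → ℝ) → ℝ) : tsupport (fun x => -dt i ψ x) ⊆ tsupport ψ := by
  refine closure_minimal ?_ (isClosed_tsupport ψ)
  intro x hx
  by_contra h
  apply hx
  have h1 : ψ =ᶠ[𝓝 x] fun _ => 0 := by
    filter_upwards [(isClosed_tsupport ψ).isOpen_compl.mem_nhds h] with y hy
    exact image_eq_zero_of_notMem_tsupport hy
  change -dt i ψ x = 0
  rw [dt, h1.fderiv_eq]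
  simp

theorem ibp_listL {g h : MvPolynomial σ ℝ} {Δ : Set (σ → ℝ)} (hΔ : IsOpen Δ) {N : ℕ}
    (hgh : g ^ N ∣ h) (β : List σ) (hN : β.length + 1 ≤ N) {ψ : (σ → ℝ) → ℝ}
    (hfr : ∀ x ∈ frontier Δ, x ∈ tsupport ψ → eval x g = 0) (hψ : Test ψ) :
    ∫ x in Δ, ev (dd β h) x * ψ x = ∫ x in Δ, ev h x * adj β ψ x := by
  induction β generalizing ψ with
  | nil => rfl
  | cons i β ih =>
    rw [List.length_cons] at hN
    have h1 : g ^ 2 ∣ dd β h := (pow_dvd_pow g (by omega)).trans (pow_dvd_dd hgh β)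
    rw [dd_cons, ibpL hΔ hfr h1 hψ i, adj, ← ih (by omega)
      (fun x hx hx' => hfr x hx (tsupport_dt i ψ hx')) (hψ.dt i).neg, ← integral_neg]
    refine integral_congr_ae (Eventually.of_forall fun x => ?_)
    change -(ev (dd β h) x * dt i ψ x) = ev (dd β h) x * -dt i ψ x
    ring

theorem integral_genL {g : MvPolynomial σ ℝ} {Δ : Set (σ → ℝ)} (hΔ : IsOpen Δ)
    (m : ℕ) (p : MvPolynomial σ ℝ) (β : List σ) (s : ℕ)
    (hs : β.length ≤ s) {ψ : (σ → ℝ) → ℝ}
    (hfr : ∀ x ∈ frontier Δ, x ∈ tsupport ψ → eval x g = 0) (hψ : Test ψ) :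
    ∫ x in Δ, ev (gen g m p β s) x * ψ x =
      (s : ℝ) ^ m * ∫ x in Δ, (ev g x) ^ (s + 1) * adj β (fun x => ev p x * ψ x) x := by
  have h1 := ibp_listL hΔ (h := g ^ (s + 1)) (dvd_refl _) β (by omega)
    (fun x hx hx' => hfr x hx (tsupport_mul_subset_right hx')) (hψ.mul p)
  have h2 : ∀ x, ev (g ^ (s + 1)) x = (ev g x) ^ (s + 1) := fun x => by rw [ev, ev, map_pow]
  simp only [h2] at h1
  rw [← h1, ← integral_const_mul]
  congr 1
  funext x
  rw [gen, ev, ev, ev, map_mul, map_mul, eval_C]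
  ring

variable {u : (σ → ℝ) → ℝ} {Δ : Set (σ → ℝ)}

/-- the values of a sequence are interpolated by a function of controlled growth -/
theorem good_gen {g : MvPolynomial σ ℝ} (W : Dom (ev g) Δ) {κ : ℝ} (hκ0 : 0 < κ) (hκ1 : κ ≤ 1)
    {M : ℝ} (hM1 : 1 ≤ M) (hM : ∀ x : σ → ℝ, ‖x‖ ≤ 2 → |ev g x| ≤ M)
    (m : ℕ) (p : MvPolynomial σ ℝ) (β : List σ)
    {ψ : (σ → ℝ) → ℝ} (hfr : ∀ x ∈ frontier Δ, x ∈ tsupport ψ → eval x g = 0) (hψ : Test ψ) :
    ∃ G : ℂ → ℂ, PB κ M G ∧ (∃ C : ℝ, ∀ t : ℝ, -κ < t → t < -κ + 1 → ‖G t‖ ≤ C) ∧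
      ∀ᶠ s : ℕ in atTop, G s = ((∫ x in Δ, ev (gen g m p β s) x * ψ x : ℝ) : ℂ) := by
  have hM0 : 0 < M := by linarith
  have hχ : Test (adj β (fun x => ev p x * ψ x)) := test_adj β (hψ.mul p)
  set χ := adj β (fun x => ev p x * ψ x) with hχdef
  have hI := W.intT_zero hχ
  obtain ⟨C0, hC00, hC0⟩ := Wedge.test_bound hχ
  have : IsFiniteMeasure (base Δ) := Dom.finite_base Δ
  -- a bound for the whole half plane `Re z > 0`
  obtain ⟨A, hA, hA'⟩ : ∃ A : ℝ, 0 ≤ A ∧ ∀ z : ℂ, 0 < z.re → ‖J (ev g) Δ χ z‖ ≤ A * M ^ z.re := by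
    have key : ∀ {χ : (σ → ℝ) → ℝ}, Test χ → (∀ x, |χ x| ≤ C0) →
        (∀ t : ℝ, 0 < t → Integrable (fun x => ev g x ^ t * max (χ x) 0) (base Δ)) →
        ∀ z : ℂ, 0 < z.re → ‖complexMGF (fun x => Real.log (ev g x)) (nu Δ χ) z‖ ≤
          (C0 * (base Δ).real Set.univ) * M ^ z.re := by
      intro χ hχ hχC hχI z hz
      refine norm_complexMGF_le_mgf.trans ?_
      rw [W.mgf_nu hχ]
      have h1 : ∫ x, ev g x ^ z.re * max (χ x) 0 ∂(base Δ) ≤
          ∫ _, M ^ z.re * C0 ∂(base Δ) := by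
        refine integral_mono_ae (hχI _ hz) (integrable_const _) ?_
        filter_upwards [W.ae_base] with x hx
        have hpos := W.pos x hx.1
        exact mul_le_mul (Real.rpow_le_rpow hpos.le ((le_abs_self _).trans (hM x hx.2)) hz.le)
          (max_le ((le_abs_self _).trans (hχC x)) hC00) (le_max_right _ _) (by positivity)
      refine h1.trans (le_of_eq ?_)
      rw [integral_const, smul_eq_mul]
      ring
    refine ⟨C0 * (base Δ).real Set.univ + C0 * (base Δ).real Set.univ, by positivity,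
      fun z hz => ?_⟩
    rw [J, add_mul]
    refine (norm_sub_le _ _).trans (add_le_add (key hχ hC0 (fun t ht => (hI t ht).1) z hz)
      (key hχ.neg (fun x => by rw [abs_neg]; exact hC0 x) (fun t ht => (hI t ht).2) z hz))
  have hPB : PB κ M (fun z => J (ev g) Δ χ (z + 1)) := by
    refine ⟨?_, A * M, mul_nonneg hA hM0.le, 0, fun z hz => ?_⟩
    · refine (W.J_diff hχ 0 hI).comp (differentiableOn_id.add_const _) fun w hw => ?_
      simp only [Set.mem_ofPred_eq, Complex.add_re, Complex.one_re] at hw ⊢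
      linarith
    · have h1 := hA' (z + 1) (by rw [Complex.add_re, Complex.one_re]; linarith)
      refine h1.trans (le_of_eq ?_)
      rw [Complex.add_re, Complex.one_re, Real.rpow_add hM0, Real.rpow_one, pow_zero]
      ring
  refine ⟨fun z => z ^ m * J (ev g) Δ χ (z + 1), hPB.pow_mul hM0 m,
    ⟨(κ + 1) ^ m * (A * M ^ (-κ + 2)), fun t h1 h2 => ?_⟩, ?_⟩
  · rw [norm_mul, norm_pow]
    have h3 : ‖(t : ℂ)‖ ≤ κ + 1 := by
      rw [Complex.norm_real, Real.norm_eq_abs, abs_le]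
      constructor <;> linarith
    have h4 := hA' ((t : ℂ) + 1) (by
      rw [Complex.add_re, Complex.one_re, Complex.ofReal_re]
      linarith)
    have h5 : M ^ ((t : ℂ) + 1).re ≤ M ^ (-κ + 2) := by
      refine Real.rpow_le_rpow_of_exponent_le hM1 ?_
      rw [Complex.add_re, Complex.one_re, Complex.ofReal_re]
      linarith
    exact mul_le_mul (pow_le_pow_left₀ (norm_nonneg _) h3 m)
      (h4.trans (mul_le_mul_of_nonneg_left h5 hA)) (norm_nonneg _) (by positivity)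
  · filter_upwards [eventually_ge_atTop β.length] with s hs
    have h1 : ((s : ℂ) + 1) = ((s + 1 : ℕ) : ℂ) := by push_cast; ring
    change (s : ℂ) ^ m * J (ev g) Δ χ ((s : ℂ) + 1) = _
    rw [integral_genL W.isOpen m p β s hs hfr hψ, h1, W.J_nat hχ 0 hI (s + 1) (by positivity),
      Complex.ofReal_mul, Complex.ofReal_pow, Complex.ofReal_natCast]

theorem good_fam {g : MvPolynomial σ ℝ} (W : Dom (ev g) Δ) {κ : ℝ} (hκ0 : 0 < κ) (hκ1 : κ ≤ 1)
    {M : ℝ} (hM1 : 1 ≤ M) (hM : ∀ x : σ → ℝ, ‖x‖ ≤ 2 → |ev g x| ≤ M)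
    {ψ : (σ → ℝ) → ℝ} (hfr : ∀ x ∈ frontier Δ, x ∈ tsupport ψ → eval x g = 0) (hψ : Test ψ)
    (E : ℕ → MvPolynomial σ ℝ) (hE : E ∈ Fam g) :
    Wedge.Good κ M (fun s => ∫ x in Δ, ev (E s) x * ψ x) := by
  have hM0 : 0 < M := by linarith
  refine AddSubmonoid.closure_induction (motive := fun E _ =>
    Wedge.Good κ M (fun s => ∫ x in Δ, ev (E s) x * ψ x)) ?_ ?_ ?_ hE
  · rintro E ⟨m, p, β, rfl⟩
    exact good_gen W hκ0 hκ1 hM1 hM m p β hfr hψ
  · have h1 : (fun s : ℕ => ∫ x in Δ, ev ((0 : ℕ → MvPolynomial σ ℝ) s) x * ψ x) = fun _ => 0 := by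
      funext s
      simp [ev]
    rw [h1]
    exact Wedge.good_zero
  · intro E₁ E₂ _ _ h1 h2
    have h3 : (fun s : ℕ => ∫ x in Δ, ev ((E₁ + E₂) s) x * ψ x) =
        fun s => (∫ x in Δ, ev (E₁ s) x * ψ x) + ∫ x in Δ, ev (E₂ s) x * ψ x := by
      funext s
      rw [← integral_add (hψ.mul _).integrable.integrableOn (hψ.mul _).integrable.integrableOn]
      refine integral_congr_ae (Eventually.of_forall fun x => ?_)
      change eval x (E₁ s + E₂ s) * ψ x = eval x (E₁ s) * ψ x + eval x (E₂ s) * ψ x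
      rw [map_add, add_mul]
    rw [h3]
    exact h1.add hM0 h2

theorem root {g : MvPolynomial σ ℝ} (W : Dom (ev g) Δ) {κ : ℝ} (hκ0 : 0 < κ) (hκ1 : κ ≤ 1)
    {ψ : (σ → ℝ) → ℝ} (hfr : ∀ x ∈ frontier Δ, x ∈ tsupport ψ → eval x g = 0) (hψ : Test ψ)
    (hψ0 : ∀ x ∈ Δ, 0 ≤ ψ x)
    (hint : ∀ t : ℝ, -κ < t → IntegrableOn (fun x => (ev g x) ^ t * ψ x) Δ)
    (htop : ∫⁻ x in Δ, ENNReal.ofReal ((ev g x) ^ (-κ) * ψ x) = ⊤)
    (b : Polynomial ℝ) (hb : NF g b) : b.eval (-κ) = 0 := by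
  obtain ⟨M, hM1, hM⟩ := W.exists_bound 2
  have hM0 : 0 < M := by linarith
  obtain ⟨G, hG, ⟨C, hC⟩, hGe⟩ := good_fam W hκ0 hκ1 hM1 hM hfr hψ _ hb
  have hneg : ∀ᵐ x ∂(base Δ), max (-ψ x) 0 = 0 := by
    filter_upwards [W.ae_base] with x hx
    exact max_eq_right (by linarith [hψ0 x hx.1])
  have hI : IntT (ev g) Δ (-κ) ψ := by
    intro t ht
    constructor
    · have h1 : Integrable (fun x => (ev g x) ^ t * ψ x) (base Δ) :=
        (hint t ht).mono_set Set.inter_subset_left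
      refine h1.congr ?_
      filter_upwards [W.ae_base] with x hx
      rw [max_eq_left (hψ0 x hx.1)]
    · refine (integrable_zero (σ → ℝ) ℝ (base Δ)).congr ?_
      filter_upwards [hneg] with x hx
      change (0 : ℝ) = _
      rw [hx, mul_zero]
  have hJ : ∀ t : ℝ, -κ < t →
      ∫⁻ x in Δ, ENNReal.ofReal (ev g x ^ t * ψ x) ≤ ENNReal.ofReal ‖J (ev g) Δ ψ (t : ℂ)‖ := by
    intro t ht
    have h1 : ∀ s : ℝ, ∫⁻ x in Δ, ENNReal.ofReal (ev g x ^ s * ψ x) =
        ∫⁻ x, ENNReal.ofReal (ev g x ^ s * ψ x) ∂(base Δ) := by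
      intro s
      rw [base, ← lintegral_indicator W.isOpen.measurableSet,
        ← lintegral_indicator W.measurableSet_base]
      congr 1
      funext x
      by_cases hx : x ∈ Δ
      · by_cases hx2 : ‖x‖ ≤ 2
        · rw [Set.indicator_of_mem hx, Set.indicator_of_mem (show x ∈ Δ ∩ {x | ‖x‖ ≤ 2} from
            ⟨hx, hx2⟩)]
        · rw [Set.indicator_of_mem hx, Set.indicator_of_notMem (fun h => hx2 h.2),
            hψ.supp x (not_le.1 hx2), mul_zero, ENNReal.ofReal_zero]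
      · rw [Set.indicator_of_notMem hx, Set.indicator_of_notMem (fun h => hx h.1)]
    have h2 : J (ev g) Δ ψ (t : ℂ) = ((∫ x, ev g x ^ t * ψ x ∂(base Δ) : ℝ) : ℂ) := by
      rw [J, complexMGF_ofReal, complexMGF_ofReal, W.mgf_nu hψ, W.mgf_nu hψ.neg]
      have h3 : ∫ x, ev g x ^ t * max (-ψ x) 0 ∂(base Δ) = 0 := by
        have h7 : (fun x => ev g x ^ t * max (-ψ x) 0) =ᵐ[base Δ] fun _ => (0 : ℝ) := by
          filter_upwards [hneg] with x hx
          rw [hx, mul_zero]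
        rw [integral_congr_ae h7, integral_zero]
      have h4 : ∫ x, ev g x ^ t * max (ψ x) 0 ∂(base Δ) = ∫ x, ev g x ^ t * ψ x ∂(base Δ) := by
        refine integral_congr_ae ?_
        filter_upwards [W.ae_base] with x hx
        rw [max_eq_left (hψ0 x hx.1)]
      rw [h3, h4, Complex.ofReal_zero, sub_zero]
    have h5 : 0 ≤ᵐ[base Δ] fun x => ev g x ^ t * ψ x := by
      filter_upwards [W.ae_base] with x hx
      exact mul_nonneg (Real.rpow_nonneg (W.pos x hx.1).le _) (hψ0 x hx.1)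
    have h6 : Integrable (fun x => (ev g x) ^ t * ψ x) (base Δ) :=
      (hint t ht).mono_set Set.inter_subset_left
    rw [h1, h2, Complex.norm_real, Real.norm_of_nonneg (integral_nonneg_of_ae h5),
      ofReal_integral_eq_lintegral_ofReal h6 h5]
  set bC : Polynomial ℂ := b.map (algebraMap ℝ ℂ) with hbC
  have hbC' : ∀ t : ℝ, bC.eval (t : ℂ) = ((b.eval t : ℝ) : ℂ) := by
    intro t
    have h1 : (t : ℂ) = algebraMap ℝ ℂ t := rfl
    rw [hbC, h1, Polynomial.eval_map_apply]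
    rfl
  have hJPB : PB κ M (J (ev g) Δ ψ) := by
    obtain ⟨A, hA, hA'⟩ := W.J_bound hM1 hM hψ (-κ) (-κ + 1) (by linarith) hI
    exact ⟨W.J_diff hψ (-κ) hI, A, hA, 0, fun z hz => by simpa using hA' z hz⟩
  have hH : PB κ M (fun z => bC.eval z * J (ev g) Δ ψ z - G z) :=
    (hJPB.poly_mul hM0 bC).sub hM0 hG
  have hH0 : ∀ᶠ s : ℕ in atTop, bC.eval (s : ℂ) * J (ev g) Δ ψ (s : ℂ) - G s = 0 := by
    filter_upwards [hGe] with s hs
    have h1 : bC.eval (s : ℂ) = ((b.eval (s : ℝ) : ℝ) : ℂ) := by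
      have := hbC' (s : ℝ)
      rwa [Complex.ofReal_natCast] at this
    rw [hs, W.J_nat hψ (-κ) hI s (by
      have : (0 : ℝ) ≤ (s : ℝ) := Nat.cast_nonneg _
      linarith), h1, ← Complex.ofReal_mul, ← Complex.ofReal_sub, ← integral_const_mul]
    rw [Complex.ofReal_eq_zero, sub_eq_zero]
    refine integral_congr_ae (Eventually.of_forall fun x => ?_)
    change b.eval (s : ℝ) * (eval x g ^ s * ψ x) =
      eval x (MvPolynomial.C (b.eval (s : ℝ)) * g ^ s) * ψ x
    rw [map_mul, eval_C, map_pow, mul_assoc]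
  have hvan : ∀ t : ℝ, -κ < t → bC.eval (t : ℂ) * J (ev g) Δ ψ (t : ℂ) = G t := by
    intro t ht
    have h1 := hH.vanish hM0 hκ0.le hH0 (t : ℂ) (by rwa [Complex.ofReal_re])
    exact sub_eq_zero.1 h1
  by_contra hne
  set c : ℝ := |b.eval (-κ)| / 2 with hc
  have hc0 : 0 < c := by
    have := abs_pos.2 hne
    positivity
  have hcont : ∀ᶠ t in 𝓝 (-κ), c < |b.eval t| := by
    have h1 : ContinuousAt (fun t => |b.eval t|) (-κ) := b.continuous.continuousAt.abs
    refine h1.eventually_const_lt ?_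
    have := abs_pos.2 hne
    change |b.eval (-κ)| / 2 < |b.eval (-κ)|
    linarith
  obtain ⟨δ, hδ, hδ'⟩ := Metric.eventually_nhds_iff.1 hcont
  have hC0 : 0 ≤ C := (norm_nonneg _).trans (hC (-κ + 1 / 2) (by linarith) (by linarith))
  have hbd : ∀ t : ℝ, -κ < t → t < -κ + min δ 1 →
      ∫⁻ x in Δ, ENNReal.ofReal (ev g x ^ t * ψ x) ≤ ENNReal.ofReal (C / c) := by
    intro t h1 h2
    have h3 : t < -κ + δ := h2.trans_le (by linarith [min_le_left δ 1])
    have h4 : t < -κ + 1 := h2.trans_le (by linarith [min_le_right δ 1])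
    refine (hJ t h1).trans (ENNReal.ofReal_le_ofReal ?_)
    have h5 : c < |b.eval t| := hδ' (by
      rw [Real.dist_eq, abs_lt]
      constructor <;> linarith)
    have h6 := hC t h1 h4
    rw [← hvan t h1, norm_mul, hbC', Complex.norm_real, Real.norm_eq_abs] at h6
    rw [le_div_iff₀ hc0]
    nlinarith [norm_nonneg (J (ev g) Δ ψ (t : ℂ))]
  set tt : ℕ → ℝ := fun j => -κ + min δ 1 / (j + 2) with htt
  have hδ1 : 0 < min δ 1 := lt_min hδ one_pos
  have htlim : Tendsto tt atTop (𝓝 (-κ)) := by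
    have h1 : Tendsto (fun j : ℕ => min δ 1 / ((j : ℝ) + 2)) atTop (𝓝 0) :=
      tendsto_const_nhds.div_atTop
        (tendsto_atTop_add_const_right _ _ tendsto_natCast_atTop_atTop)
    have h2 := h1.const_add (-κ)
    rwa [add_zero] at h2
  have h1 : ∫⁻ x in Δ, ENNReal.ofReal (ev g x ^ (-κ) * ψ x) ≤ ENNReal.ofReal (C / c) := by
    calc ∫⁻ x in Δ, ENNReal.ofReal (ev g x ^ (-κ) * ψ x) =
        ∫⁻ x in Δ, liminf (fun j => ENNReal.ofReal (ev g x ^ (tt j) * ψ x)) atTop := by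
          refine setLIntegral_congr_fun W.isOpen.measurableSet fun x hx => ?_
          have h2 : Tendsto (fun j => ENNReal.ofReal (ev g x ^ (tt j) * ψ x)) atTop
              (𝓝 (ENNReal.ofReal (ev g x ^ (-κ) * ψ x))) :=
            ENNReal.tendsto_ofReal
              (((Real.continuousAt_const_rpow (W.pos x hx).ne').tendsto.comp htlim).mul_const _)
          exact h2.liminf_eq.symm
      _ ≤ liminf (fun j => ∫⁻ x in Δ, ENNReal.ofReal (ev g x ^ (tt j) * ψ x)) atTop :=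
          lintegral_liminf_le fun j => ((W.cont.measurable.pow_const _).mul
            hψ.smooth.continuous.measurable).ennreal_ofReal
      _ ≤ ENNReal.ofReal (C / c) := by
          refine liminf_le_of_frequently_le' (Frequently.of_forall fun j => ?_)
          refine hbd _ ?_ ?_
          · have : 0 < min δ 1 / ((j : ℝ) + 2) := by positivity
            change -κ < -κ + min δ 1 / ((j : ℝ) + 2)
            linarith
          · have : min δ 1 / ((j : ℝ) + 2) < min δ 1 := by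
              rw [div_lt_iff₀ (by positivity)]
              nlinarith [Nat.cast_nonneg (α := ℝ) j]
            change -κ + min δ 1 / ((j : ℝ) + 2) < -κ + min δ 1
            linarith
  rw [htop] at h1
  exact absurd h1 (not_le.2 ENNReal.ofReal_lt_top)

end Pool.Agent.Helper16.WM.AbsL

namespace Pool.Agent.Helper16.WM

open MvPolynomial MeasureTheory Pool.Agent.Helper48.RC

/-- the root of a functional equation from a critical integral over a chamber, which is bounded by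
zeros near the support of the test function -/
theorem pAbsL {N : ℕ} (g : MvPolynomial (Fin N) ℝ) (Ω : Set (Fin N → ℝ))
    (ψ : (Fin N → ℝ) → ℝ) (κ : ℝ) (b : Polynomial ℝ)
    (ho : IsOpen Ω) (hpos : ∀ x ∈ Ω, 0 < eval x g)
    (hfr : ∀ x ∈ frontier Ω, x ∈ tsupport ψ → eval x g = 0)
    (hψ : Test ψ) (hψ0 : ∀ x ∈ Ω, 0 ≤ ψ x) (hκ0 : 0 < κ) (hκ1 : κ ≤ 1)
    (hint : ∀ t : ℝ, -κ < t → IntegrableOn (fun x => (eval x g) ^ t * ψ x) Ω)
    (htop : ∫⁻ x in Ω, ENNReal.ofReal ((eval x g) ^ (-κ) * ψ x) = ⊤)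
    (hb : NF g b) : b.eval (-κ) = 0 :=
  AbsL.root (g := g) (Δ := Ω) ⟨continuous_ev g, ho, hpos⟩ hκ0 hκ1 hfr hψ hψ0 hint htop b hb

end Pool.Agent.Helper16.WM
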