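import Pool.Agent.Helper16.WM.Defs

set_option autoImplicit false

/-! # Weak monodromy conjecture and facets of Newton polyhedra: definitions -/

namespace Pool.Agent.Helper16.WM

open MvPolynomial MeasureTheory Filter Topology Pool.Agent.H628R4.TP

/-- `T` and the unit vectors `e_i` with `w i = 0` span `ℝ ^ N` (if `T` is the set of exponents of a
polynomial on the face of its Newton polyhedron given by `w`, then this face is a facet) -/
def Spans {N : ℕ} (w : Fin N → ℕ) (T : Finset (Fin N →₀ ℕ)) : Prop :=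
  ∀ P : Fin N → ℝ, ∃ β : (Fin N →₀ ℕ) → ℝ, ∀ i, 0 < w i → P i = ∑ v ∈ T, β v * (v i : ℝ)

/-- `Ω` is a chamber at the origin of `A B` (real polynomials of the weighted orders `a`, `c`), and `B` is
large on it: `Ω` is open, `A B` has no zero in `Ω` and is zero on the boundary of `Ω` near the origin; `Ω` contains
`t ^ w V` for all small `t > 0`, for some open `V ≠ ∅` (and `|x_i| < ε` on `V` if `w i = 0`, for any given
`ε > 0`); near the origin `|x ^ v| ≤ C |B(x)|` on `Ω` for all `v ∈ T`, where all `v ∈ T` have the weight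
`c`, and `T` and the `e_i` with `w i = 0` span `ℝ ^ N`. -/
structure NGeo {N : ℕ} (w : Fin N → ℕ) (a c : ℕ) (A B : MvPolynomial (Fin N) ℝ)
    (T : Finset (Fin N →₀ ℕ)) (Ω : Set (Fin N → ℝ)) : Prop where
  wpos : ∃ i, 0 < w i
  ordA : HasOrder w a A
  ordB : HasOrder w c B
  isOpen : IsOpen Ω
  ne : ∀ x ∈ Ω, eval x (A * B) ≠ 0
  fr : ∃ r : ℝ, 0 < r ∧ ∀ x ∈ frontier Ω, ‖x‖ ≤ r → eval x (A * B) = 0
  sector : ∀ ε : ℝ, 0 < ε → ∃ (V : Set (Fin N → ℝ)) (t₁ : ℝ), IsOpen V ∧ V.Nonempty ∧ 0 < t₁ ∧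
    (∀ y ∈ V, ∀ i, w i = 0 → |y i| < ε) ∧
    ∀ t : ℝ, 0 < t → t < t₁ → ∀ y ∈ V, scl w t y ∈ Ω
  wtT : ∀ v ∈ T, ∑ i, w i * v i = c
  spanT : Spans w T
  low : ∃ C r : ℝ, 0 < r ∧ ∀ x ∈ Ω, ‖x‖ ≤ r → ∀ v ∈ T, ∏ i, |x i| ^ v i ≤ C * |eval x B|

end Pool.Agent.Helper16.WM
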