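import Pool.Agent.Helper16.WM.Stm

set_option autoImplicit false

/-! # Functional equations of powers -/

namespace Pool.Agent.Helper16.WM.PowN

open MvPolynomial Pool.Agent.Helper48.RC

variable {σ K : Type} [Field K]

/-- the sequence `s ↦ s ^ m p D^β (f ^ (a s))` -/
noncomputable def genE (f : MvPolynomial σ K) (a : ℕ → ℕ) (m : ℕ) (p : MvPolynomial σ K)
    (β : List σ) : ℕ → MvPolynomial σ K :=
  fun s => C ((s : K) ^ m) * (p * dd β (f ^ a s))

noncomputable def FamE (f : MvPolynomial σ K) (a : ℕ → ℕ) : AddSubmonoid (ℕ → MvPolynomial σ K) :=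
  AddSubmonoid.closure {E | ∃ m p β, E = genE f a m p β}

theorem genE_mem (f : MvPolynomial σ K) (a : ℕ → ℕ) (m : ℕ) (p : MvPolynomial σ K) (β : List σ) :
    genE f a m p β ∈ FamE f a := AddSubmonoid.subset_closure ⟨m, p, β, rfl⟩

theorem famE_map (f : MvPolynomial σ K) (a a' : ℕ → ℕ)
    (Φ : ℕ → MvPolynomial σ K → MvPolynomial σ K) (h0 : ∀ s, Φ s 0 = 0)
    (hadd : ∀ s p q, Φ s (p + q) = Φ s p + Φ s q)
    (hgen : ∀ m p β, (fun s => Φ s (genE f a m p β s)) ∈ FamE f a') (E : ℕ → MvPolynomial σ K)
    (hE : E ∈ FamE f a) : (fun s => Φ s (E s)) ∈ FamE f a' := by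
  refine AddSubmonoid.closure_induction (motive := fun E _ => (fun s => Φ s (E s)) ∈ FamE f a')
    ?_ ?_ ?_ hE
  · rintro E ⟨m, p, β, rfl⟩
    exact hgen m p β
  · have h1 : (fun s => Φ s ((0 : ℕ → MvPolynomial σ K) s)) = 0 := by
      funext s
      exact h0 s
    rw [h1]
    exact (FamE f a').zero_mem
  · intro E₁ E₂ _ _ h1 h2
    have h3 : (fun s => Φ s ((E₁ + E₂) s)) = (fun s => Φ s (E₁ s)) + fun s => Φ s (E₂ s) := by
      funext s
      exact hadd s _ _
    rw [h3]
    exact (FamE f a').add_mem h1 h2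

theorem famE_mul (f : MvPolynomial σ K) (a : ℕ → ℕ) (q : MvPolynomial σ K)
    (E : ℕ → MvPolynomial σ K) (hE : E ∈ FamE f a) : (fun s => q * E s) ∈ FamE f a := by
  refine famE_map f a a (fun _ p => q * p) (fun s => mul_zero _) (fun s _ _ => mul_add _ _ _)
    (fun m p β => ?_) E hE
  have h : (fun s => q * genE f a m p β s) = genE f a m (q * p) β := by
    funext s
    rw [genE, genE]
    ring
  rw [h]
  exact genE_mem _ _ _ _ _

theorem famE_pow (f : MvPolynomial σ K) (a : ℕ → ℕ) (n : ℕ)
    (E : ℕ → MvPolynomial σ K) (hE : E ∈ FamE f a) :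
    (fun s : ℕ => C ((s : K) ^ n) * E s) ∈ FamE f a := by
  refine famE_map f a a (fun s p => C ((s : K) ^ n) * p) (fun s => mul_zero _)
    (fun s _ _ => mul_add _ _ _) (fun m p β => ?_) E hE
  have h : (fun s : ℕ => C ((s : K) ^ n) * genE f a m p β s) = genE f a (n + m) p β := by
    funext s
    rw [genE, genE, pow_add, C_mul]
    ring
  rw [h]
  exact genE_mem _ _ _ _ _

theorem famE_poly (f : MvPolynomial σ K) (a : ℕ → ℕ) (c : Polynomial K)
    (E : ℕ → MvPolynomial σ K) (hE : E ∈ FamE f a) :
    (fun s : ℕ => C (c.eval (s : K)) * E s) ∈ FamE f a := by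
  induction c using Polynomial.induction_on' with
  | add p q hp hq =>
    have h : (fun s : ℕ => C ((p + q).eval (s : K)) * E s) =
        (fun s : ℕ => C (p.eval (s : K)) * E s) + fun s : ℕ => C (q.eval (s : K)) * E s := by
      funext s
      rw [Pi.add_apply, Polynomial.eval_add, C_add, add_mul]
    rw [h]
    exact (FamE f a).add_mem hp hq
  | monomial n r =>
    have h : (fun s : ℕ => C ((Polynomial.monomial n r).eval (s : K)) * E s) =
        fun s : ℕ => C ((s : K) ^ n) * (C r * E s) := by
      funext s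
      rw [Polynomial.eval_monomial, C_mul]
      ring
    rw [h]
    exact famE_pow f a n _ (famE_mul f a (C r) E hE)

theorem famE_pderiv (f : MvPolynomial σ K) (a : ℕ → ℕ) (i : σ)
    (E : ℕ → MvPolynomial σ K) (hE : E ∈ FamE f a) : (fun s => pderiv i (E s)) ∈ FamE f a := by
  refine famE_map f a a (fun _ p => pderiv i p) (fun s => map_zero _) (fun s _ _ => map_add _ _ _)
    (fun m p β => ?_) E hE
  have h : (fun s => pderiv i (genE f a m p β s)) =
      genE f a m (pderiv i p) β + genE f a m p (i :: β) := by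
    funext s
    rw [Pi.add_apply, genE, genE, genE, pderiv_C_mul, pderiv_mul, dd_cons]
    ring
  rw [h]
  exact (FamE f a).add_mem (genE_mem _ _ _ _ _) (genE_mem _ _ _ _ _)

theorem famE_dd (f : MvPolynomial σ K) (a : ℕ → ℕ) (β : List σ)
    (E : ℕ → MvPolynomial σ K) (hE : E ∈ FamE f a) : (fun s => dd β (E s)) ∈ FamE f a := by
  induction β with
  | nil => exact hE
  | cons i β ih => exact famE_pderiv f a i _ ih

theorem dd_C_mul (β : List σ) (c : K) (h : MvPolynomial σ K) : dd β (C c * h) = C c * dd β h := by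
  induction β with
  | nil => rfl
  | cons i β ih => rw [dd_cons, dd_cons, ih, pderiv_C_mul]

/-- the functional equation along a progression -/
theorem famE_start (f : MvPolynomial σ K) (b : Polynomial K) (h : NF f b) (M l : ℕ) :
    (fun s : ℕ => C (b.eval ((M * s + l : ℕ) : K)) * f ^ (M * s + l)) ∈
      FamE f (fun s => M * s + (l + 1)) := by
  have key : ∀ E ∈ Fam f, (fun s : ℕ => E (M * s + l)) ∈ FamE f (fun s => M * s + (l + 1)) := by
    intro E hE
    refine AddSubmonoid.closure_induction (motive := fun E _ =>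
      (fun s : ℕ => E (M * s + l)) ∈ FamE f (fun s => M * s + (l + 1))) ?_ ?_ ?_ hE
    · rintro E ⟨m, p, β, rfl⟩
      have h1 := famE_poly f (fun s => M * s + (l + 1))
        ((Polynomial.C (M : K) * Polynomial.X + Polynomial.C (l : K)) ^ m) _
        (genE_mem f (fun s => M * s + (l + 1)) 0 p β)
      have h2 : (fun s : ℕ => gen f m p β (M * s + l)) = fun s : ℕ =>
          C (((Polynomial.C (M : K) * Polynomial.X + Polynomial.C (l : K)) ^ m).eval (s : K)) *
            genE f (fun s => M * s + (l + 1)) 0 p β s := by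
        funext s
        rw [gen, genE, pow_zero, C_1, one_mul, Polynomial.eval_pow, Polynomial.eval_add,
          Polynomial.eval_mul, Polynomial.eval_C, Polynomial.eval_X, Polynomial.eval_C,
          Nat.cast_add, Nat.cast_mul, add_assoc]
      rw [h2]
      exact h1
    · exact (FamE f _).zero_mem
    · intro E₁ E₂ _ _ h1 h2
      exact (FamE f _).add_mem h1 h2
  exact key _ h

theorem famE_step (f : MvPolynomial σ K) (b : Polynomial K) (h : NF f b) (M l : ℕ)
    (E : ℕ → MvPolynomial σ K) (hE : E ∈ FamE f (fun s => M * s + l)) :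
    (fun s : ℕ => C (b.eval ((M * s + l : ℕ) : K)) * E s) ∈ FamE f (fun s => M * s + (l + 1)) := by
  refine famE_map f _ _ (fun s p => C (b.eval ((M * s + l : ℕ) : K)) * p) (fun s => mul_zero _)
    (fun s _ _ => mul_add _ _ _) (fun m p β => ?_) E hE
  have h1 := famE_pow f _ m _ (famE_mul f _ p _ (famE_dd f _ β _ (famE_start f b h M l)))
  have h2 : (fun s : ℕ => C (b.eval ((M * s + l : ℕ) : K)) *
      genE f (fun s => M * s + l) m p β s) = fun s : ℕ => C ((s : K) ^ m) *
        (p * dd β (C (b.eval ((M * s + l : ℕ) : K)) * f ^ (M * s + l))) := by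
    funext s
    rw [genE, dd_C_mul]
    ring
  rw [h2]
  exact h1

theorem pow_nf (f : MvPolynomial σ K) (b : Polynomial K) (M : ℕ) (h : NF f b) :
    NF (f ^ M) (∏ l ∈ Finset.range M,
      b.comp (Polynomial.C (M : K) * Polynomial.X + Polynomial.C (l : K))) := by
  have key : ∀ n : ℕ, (fun s : ℕ => C ((∏ l ∈ Finset.range n,
      b.comp (Polynomial.C (M : K) * Polynomial.X + Polynomial.C (l : K))).eval (s : K)) *
        f ^ (M * s)) ∈ FamE f (fun s => M * s + n) := by
    intro n
    induction n with
    | zero =>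
      have h1 := genE_mem f (fun s => M * s + 0) 0 1 []
      have h2 : genE f (fun s => M * s + 0) 0 1 [] = fun s : ℕ => C ((∏ l ∈ Finset.range 0,
          b.comp (Polynomial.C (M : K) * Polynomial.X + Polynomial.C (l : K))).eval (s : K)) *
            f ^ (M * s) := by
        funext s
        rw [genE, Finset.range_zero, Finset.prod_empty, Polynomial.eval_one, pow_zero, C_1, one_mul,
          one_mul, one_mul, dd_nil, add_zero]
      rw [← h2]
      exact h1
    | succ n ih =>
      have h1 := famE_step f b h M n _ ih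
      have h2 : (fun s : ℕ => C ((∏ l ∈ Finset.range (n + 1),
          b.comp (Polynomial.C (M : K) * Polynomial.X + Polynomial.C (l : K))).eval (s : K)) *
            f ^ (M * s)) = fun s : ℕ => C (b.eval ((M * s + n : ℕ) : K)) * (C ((∏ l ∈ Finset.range n,
          b.comp (Polynomial.C (M : K) * Polynomial.X + Polynomial.C (l : K))).eval (s : K)) *
            f ^ (M * s)) := by
        funext s
        rw [Finset.prod_range_succ, Polynomial.eval_mul, C_mul, Polynomial.eval_comp,
          Polynomial.eval_add, Polynomial.eval_mul, Polynomial.eval_C, Polynomial.eval_X,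
          Polynomial.eval_C, Nat.cast_add, Nat.cast_mul]
        ring
      rw [h2]
      exact h1
  have h1 := key M
  have h2 : FamE f (fun s => M * s + M) ≤ Fam (f ^ M) := by
    refine AddSubmonoid.closure_le.2 ?_
    rintro E ⟨m, p, β, rfl⟩
    have h3 : genE f (fun s => M * s + M) m p β = gen (f ^ M) m p β := by
      funext s
      rw [genE, gen, ← pow_mul, Nat.mul_succ]
    rw [h3]
    exact gen_mem _ _ _ _
  have h3 := h2 h1
  rw [NF]
  have h4 : (fun s : ℕ => C ((∏ l ∈ Finset.range M,
      b.comp (Polynomial.C (M : K) * Polynomial.X + Polynomial.C (l : K))).eval (s : K)) *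
        (f ^ M) ^ s) = fun s : ℕ => C ((∏ l ∈ Finset.range M,
      b.comp (Polynomial.C (M : K) * Polynomial.X + Polynomial.C (l : K))).eval (s : K)) *
        f ^ (M * s) := by
    funext s
    rw [← pow_mul]
  rw [h4]
  exact h3

end Pool.Agent.Helper16.WM.PowN

namespace Pool.Agent.Helper16.WM

theorem pPow : S_pow := fun _ _ _ f b M h => PowN.pow_nf f b M h

end Pool.Agent.Helper16.WM
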