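import Pool.Agent.Helper16.WM.NFin
import Pool.Agent.Helper16.WM.NInf
import Pool.Agent.Helper16.WM.Pow
import Pool.Agent.Helper16.WM.Loc

set_option autoImplicit false

/-! # Assembly: the root of a facet -/

namespace Pool.Agent.Helper16.WM

open MvPolynomial MeasureTheory Filter Topology Pool.Agent.H628R4.TP Pool.Agent.Helper48.RC
  Pool.Agent.Helper16.WM.NFin

theorem HasOrder.mul_mon {N : ℕ} {w : Fin N → ℕ} {e : ℕ} {H : MvPolynomial (Fin N) ℝ}
    (hH : HasOrder w e H) (n : Fin N → ℕ) :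
    HasOrder w (e + ∑ i, w i * n i) (H * mon n) := by
  classical
  set s : Fin N →₀ ℕ := Finsupp.equivFunOnFinite.symm n with hs
  have h0 : ∀ m : Fin N →₀ ℕ, wt w (m + s) = wt w m + ∑ i, w i * n i := by
    intro m
    rw [wt, wt, ← Finset.sum_add_distrib]
    refine Finset.sum_congr rfl fun i _ => ?_
    rw [Finsupp.add_apply, mul_add]
    rfl
  obtain ⟨hge, m, hm, hme⟩ := hH
  refine ⟨fun m' hm' => ?_, m + s, ?_, by rw [h0, hme]⟩
  · rw [mon, ← hs, mem_support_iff, coeff_mul_monomial'] at hm'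
    split_ifs at hm' with h2
    · rw [mul_one] at hm'
      have h3 := hge _ (mem_support_iff.2 hm')
      have h4 := h0 (m' - s)
      rw [tsub_add_cancel_of_le h2] at h4
      omega
    · exact absurd rfl hm'
  · rw [mon, mem_support_iff, coeff_mul_monomial, mul_one]
    exact mem_support_iff.1 hm

theorem newton_root {k : Type} [Field k] (ι : k →+* ℂ)
    (τ : k →+* ℝ) {N : ℕ} (A B : MvPolynomial (Fin N) k) (w : Fin N → ℕ) (a c : ℕ)
    (T : Finset (Fin N →₀ ℕ))
    (Ω : Set (Fin N → ℝ)) (hG : NGeo w a c (map τ A) (map τ B) T Ω) (H : MvPolynomial (Fin N) ℝ)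
    (e : ℕ) (hH : HasOrder w e H) (r0 : ℝ) (hr0 : 0 < r0)
    (hH0 : ∀ x ∈ Ω, ‖x‖ ≤ r0 → 0 ≤ eval x H)
    (b : Polynomial ℂ) (hb : IsBFunction (map ι (A * B)) b) :
    ∃ z : ℤ, b.eval (-((∑ i, w i + e : ℕ) : ℂ) / ((a + c : ℕ) : ℂ) + z) = 0 := by
  have hc := c_pos hG
  obtain ⟨i0, hi0⟩ := hG.wpos
  set ν : ℕ := ∑ i, w i with hν
  have hν1 : 1 ≤ ν := le_trans hi0 (Finset.single_le_sum (f := w) (fun i _ => Nat.zero_le _)
    (Finset.mem_univ i0))
  set E : ℕ := ν + e with hE
  have hE1 : 1 ≤ E := by omega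
  set d : ℕ := a + c with hd
  have hd1 : 1 ≤ d := by omega
  have hd0 : (0 : ℝ) < d := by exact_mod_cast hd1
  have hE0 : (1 : ℝ) ≤ E := by exact_mod_cast hE1
  have hc1 : (1 : ℝ) ≤ c := by exact_mod_cast hc
  have hEd : (E : ℝ) / d ≤ E := div_le_self (by linarith) (by exact_mod_cast hd1)
  have hEd0 : 0 < (E : ℝ) / d := by positivity
  set q : ℕ := 2 * c * E with hq
  set κ₀ : ℝ := q - (E : ℝ) / d with hκ₀
  have hqE : (E : ℝ) ≤ q := by
    have : E ≤ q := by
      rw [hq]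
      nlinarith
    exact_mod_cast this
  have hκ₀0 : 0 ≤ κ₀ := by rw [hκ₀]; linarith
  obtain ⟨r, L, hr, hfin⟩ := NFin.main hG H e hH κ₀ hκ₀0
  set j : ℕ := 2 * L * T.card + 2 * a * E with hj
  set K : ℕ := j + q with hK
  set M : ℕ := 2 * (E + j) with hM
  set m : Fin N → ℕ := mL w T L with hm
  have hM0 : 0 < M := by omega
  have hKeven : Even K := by
    rw [hK, hj, hq]
    exact ⟨L * T.card + a * E + c * E, by ring⟩
  have hMeven : Even M := ⟨E + j, by rw [hM]; ring⟩
  -- the weight of the test monomial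
  have hmw : ∑ i, w i * m i = 2 * L * T.card * c := by
    have h1 : ∀ i, w i * m i = ∑ v ∈ T, 2 * L * (w i * v i) := by
      intro i
      rw [hm, mL]
      split_ifs with h2
      · rw [h2]
        simp
      · rw [add_zero, Finset.mul_sum, Finset.mul_sum]
        exact Finset.sum_congr rfl fun v _ => by ring
    rw [Finset.sum_congr rfl fun i _ => h1 i, Finset.sum_comm]
    have h2 : ∀ v ∈ T, ∑ i, 2 * L * (w i * v i) = 2 * L * c := by
      intro v hv
      rw [← Finset.mul_sum, hG.wtT v hv]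
    rw [Finset.sum_congr rfl h2, Finset.sum_const, smul_eq_mul]
    ring
  -- the critical exponents
  set t0 : ℝ := -(E : ℝ) / d - j with ht0
  have hM0' : (0 : ℝ) < M := by exact_mod_cast hM0
  set κ : ℝ := -t0 / M with hκ
  have hj0 : (0 : ℝ) ≤ j := Nat.cast_nonneg _
  have hMc : (M : ℝ) = 2 * (E + j) := by rw [hM]; push_cast; ring
  have hκ0 : 0 < κ := by
    rw [hκ, ht0]
    apply div_pos _ hM0'
    rw [neg_div]
    linarith
  have hκ1 : κ ≤ 1 := by
    rw [hκ, div_le_one hM0', ht0, hMc, neg_div]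
    linarith
  have hMκ : (M : ℝ) * (-κ) = t0 := by
    rw [hκ]
    field_simp
  have hKt' : t0 + K = κ₀ := by
    rw [ht0, hK, hκ₀]
    push_cast
    ring
  have hKt : 0 ≤ t0 + K := by rw [hKt']; exact hκ₀0
  -- the weight
  set H' : MvPolynomial (Fin N) ℝ := H * mon m with hH'
  have hordH' : HasOrder w (e + ∑ i, w i * m i) H' := hH.mul_mon m
  have hdac : (a : ℝ) + c = d := by rw [hd]; push_cast; ring
  have hcrit0 : t0 * ((a : ℝ) + c) + a * K + (e + ((∑ i, w i * m i : ℕ) : ℝ)) =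
      -((ν : ℕ) : ℝ) := by
    have h5 : t0 * d = -(E : ℝ) - j * d := by
      rw [ht0]
      field_simp
    rw [hmw, hdac, h5, ← hdac, hK, hj, hq, hE]
    push_cast
    ring
  have hcrit : t0 * ((a : ℝ) + c) + a * K + ((e + ∑ i, w i * m i : ℕ) : ℝ) =
      -((ν : ℕ) : ℝ) := by
    rw [← hcrit0]
    push_cast
    ring
  -- the real polynomial
  set f : MvPolynomial (Fin N) ℝ := map τ (A * B) with hf
  have hfAB : f = map τ A * map τ B := by rw [hf, map_mul]
  set g : MvPolynomial (Fin N) ℝ := f ^ M with hg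
  have hgpos : ∀ x ∈ Ω, 0 < eval x g := by
    intro x hx
    rw [hg, map_pow]
    have := hG.ne x hx
    rw [← hfAB] at this
    exact hMeven.pow_pos this
  obtain ⟨rf, hrf, hfr⟩ := hG.fr
  have hgfr : ∀ x ∈ frontier Ω, ‖x‖ ≤ rf → eval x g = 0 := by
    intro x hx hx'
    have := hfr x hx hx'
    rw [← hfAB] at this
    rw [hg, map_pow, this, zero_pow hM0.ne']
  have hAne : ∀ x ∈ Ω, 0 < |eval x (map τ A)| := by
    intro x hx
    have := hG.ne x hx
    rw [map_mul] at this
    exact abs_pos.2 (left_ne_zero_of_mul this)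
  have hBne : ∀ x ∈ Ω, 0 < |eval x (map τ B)| := by
    intro x hx
    have := hG.ne x hx
    rw [map_mul] at this
    exact abs_pos.2 (right_ne_zero_of_mul this)
  -- the test function
  set r1 : ℝ := min (min r r0) (min rf 2) with hr1
  have hr1pos : 0 < r1 := lt_min (lt_min hr hr0) (lt_min hrf two_pos)
  have hr1r : r1 ≤ r := (min_le_left _ _).trans (min_le_left _ _)
  have hr1r0 : r1 ≤ r0 := (min_le_left _ _).trans (min_le_right _ _)
  have hr1f : r1 ≤ rf := (min_le_right _ _).trans (min_le_left _ _)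
  have hr12 : r1 ≤ 2 := (min_le_right _ _).trans (min_le_right _ _)
  set φ : ContDiffBump (0 : Fin N → ℝ) := ⟨r1 / 2, r1, by positivity, by linarith⟩ with hφ
  have hφ0 : ∀ x : Fin N → ℝ, r1 < ‖x‖ → φ x = 0 := fun x hx =>
    φ.zero_of_le_dist (by rw [dist_zero_right]; exact hx.le)
  have hφ1 : ∀ x : Fin N → ℝ, ‖x‖ ≤ r1 / 2 → φ x = 1 := fun x hx =>
    φ.one_of_mem_closedBall (by rw [mem_closedBall_zero_iff]; exact hx)
  have hφT : Test (φ : (Fin N → ℝ) → ℝ) := ⟨φ.contDiff, fun x hx => hφ0 x (by linarith)⟩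
  set P : MvPolynomial (Fin N) ℝ := map τ A ^ K * H' with hP
  set ψ : (Fin N → ℝ) → ℝ := fun x => ev P x * φ x with hψ
  have hψT : Test ψ := hφT.mul P
  have hψs : tsupport ψ ⊆ Metric.closedBall 0 r1 := by
    refine closure_minimal ?_ Metric.isClosed_closedBall
    intro x hx
    rw [mem_closedBall_zero_iff]
    by_contra h5
    apply hx
    change ev P x * φ x = 0
    rw [hφ0 x (not_le.1 h5), mul_zero]
  have hψfr : ∀ x ∈ frontier Ω, x ∈ tsupport ψ → eval x g = 0 := by
    intro x hx hx'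
    have h5 := hψs hx'
    rw [mem_closedBall_zero_iff] at h5
    exact hgfr x hx (h5.trans hr1f)
  have hmev : ∀ i, Even (m i) := fun i => by
    rw [hm, mL]
    exact ⟨L * (∑ v ∈ T, v i + if w i = 0 then 1 else 0), by ring⟩
  have hH'0 : ∀ x ∈ Ω, ‖x‖ ≤ r0 → 0 ≤ eval x H' := by
    intro x hx hx0
    rw [hH', map_mul, eval_mon]
    exact mul_nonneg (hH0 x hx hx0) (Finset.prod_nonneg fun i _ => (hmev i).pow_nonneg _)
  have hPe : ∀ x, eval x P = |eval x (map τ A)| ^ K * eval x H' := by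
    intro x
    rw [hP, map_mul, map_pow, hKeven.pow_abs]
  have hψ0 : ∀ x ∈ Ω, 0 ≤ ψ x := by
    intro x hx
    rw [hψ]
    rcases le_or_gt ‖x‖ r1 with h5 | h5
    · refine mul_nonneg ?_ φ.nonneg
      rw [ev, hPe]
      exact mul_nonneg (pow_nonneg (abs_nonneg _) _) (hH'0 x hx (h5.trans hr1r0))
    · simp only [hφ0 x h5, mul_zero, le_refl]
  -- the powers of `g`
  have hgt : ∀ t : ℝ, ∀ x ∈ Ω, (eval x g) ^ t * eval x P =
      |eval x (map τ A)| ^ (M * t + K) * |eval x (map τ B)| ^ (M * t) * eval x H' := by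
    intro t x hx
    have hA0 := hAne x hx
    have hB0 := hBne x hx
    have h5 : eval x g = (|eval x (map τ A)| * |eval x (map τ B)|) ^ M := by
      rw [hg, map_pow, hfAB, map_mul, ← abs_mul, hMeven.pow_abs]
    rw [h5, ← Real.rpow_natCast, ← Real.rpow_mul (mul_nonneg hA0.le hB0.le),
      Real.mul_rpow hA0.le hB0.le, hPe, Real.rpow_add hA0, Real.rpow_natCast]
    ring
  have hint : ∀ t : ℝ, -κ < t → IntegrableOn (fun x => (eval x g) ^ t * ψ x) Ω := by
    intro t ht
    have ht' : t0 < M * t := by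
      rw [← hMκ]
      exact mul_lt_mul_of_pos_left ht hM0'
    have h5 := hfin K t0 hKt' hcrit0 (M * t) ht'
    have h6 : IntegrableOn (fun x => (|eval x (map τ A)| ^ (M * t + K) *
        |eval x (map τ B)| ^ (M * t) * eval x H') * φ x) (Ω ∩ {x | ‖x‖ ≤ r}) := by
      refine Integrable.mul_bdd (c := 1) h5 φ.continuous.aestronglyMeasurable ?_
      exact Eventually.of_forall fun x => by
        rw [Real.norm_eq_abs, abs_of_nonneg φ.nonneg]
        exact φ.le_one
    have hms : MeasurableSet (Ω ∩ {x : Fin N → ℝ | ‖x‖ ≤ r}) :=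
      hG.isOpen.measurableSet.inter (measurableSet_le measurable_norm measurable_const)
    have h7 : IntegrableOn (fun x => (eval x g) ^ t * ψ x) (Ω ∩ {x | ‖x‖ ≤ r}) := by
      refine h6.congr_fun (fun x hx => ?_) hms
      change _ = (eval x g) ^ t * (eval x P * φ x)
      rw [← mul_assoc, hgt t x hx.1]
    refine h7.of_forall_sdiff_eq_zero hG.isOpen.measurableSet fun x hx => ?_
    have h8 : r < ‖x‖ := by
      by_contra h9
      exact hx.2 ⟨hx.1, not_lt.1 h9⟩
    simp only [hψ, hφ0 x (lt_of_le_of_lt hr1r h8), mul_zero]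
  have htop : ∫⁻ x in Ω, ENNReal.ofReal ((eval x g) ^ (-κ) * ψ x) = ⊤ := by
    have h5 := NInf.main w a c _ _ Ω hG (r1 / 2) (by positivity) H' _ hordH'
      (fun x hx hx' => hH'0 x hx (by linarith)) K t0 hKt hcrit
    rw [eq_top_iff, ← h5]
    have hms : MeasurableSet (Ω ∩ {x : Fin N → ℝ | ‖x‖ ≤ r1 / 2}) :=
      hG.isOpen.measurableSet.inter (measurableSet_le measurable_norm measurable_const)
    refine le_trans (le_of_eq ?_) (lintegral_mono_set (Set.inter_subset_left
      (t := {x : Fin N → ℝ | ‖x‖ ≤ r1 / 2})))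
    refine setLIntegral_congr_fun hms fun x hx => ?_
    change _ = ENNReal.ofReal ((eval x g) ^ (-κ) * (eval x P * φ x))
    rw [hφ1 x hx.2, mul_one, hgt (-κ) x hx.1, hMκ]
  -- the functional equation
  by_contra hne
  push Not at hne
  set Q : Polynomial ℂ := ∏ l ∈ Finset.range M,
    b.comp (Polynomial.C (M : ℂ) * Polynomial.X + Polynomial.C (l : ℂ)) with hQ
  have hNF : NF (map ι ((A * B) ^ M)) Q := by
    rw [map_pow]
    exact pPow ℂ N _ b M (nf_of_isBFunction _ b hb)
  set qq : ℚ := -((E : ℚ) / d + j) / M with hqq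
  have hqqR : ((qq : ℚ) : ℝ) = -κ := by
    rw [hqq, hκ, ht0]
    push_cast
    ring
  have hqqC : (M : ℂ) * ((qq : ℚ) : ℂ) = -(E : ℂ) / (d : ℂ) - j := by
    have hM1 : (M : ℂ) ≠ 0 := by exact_mod_cast hM0.ne'
    rw [hqq]
    push_cast
    field_simp
    ring
  have hQne : Q.eval ((qq : ℚ) : ℂ) ≠ 0 := by
    rw [hQ, Polynomial.eval_prod, Finset.prod_ne_zero_iff]
    intro l _
    rw [Polynomial.eval_comp, Polynomial.eval_add, Polynomial.eval_mul, Polynomial.eval_C,
      Polynomial.eval_X, Polynomial.eval_C, hqqC]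
    have h5 := hne ((l : ℤ) - j)
    intro h6
    apply h5
    rw [← h6]
    congr 1
    push_cast
    ring
  obtain ⟨b', hb', hb'q⟩ := nf_transfer ι τ ((A * B) ^ M) Q hNF qq hQne
  rw [hqqR] at hb'q
  apply hb'q
  refine pAbsL g Ω ψ κ b' hG.isOpen hgpos hψfr hψT hψ0 hκ0 hκ1 hint htop ?_
  rw [hg, hf, ← map_pow]
  exact hb'

end Pool.Agent.Helper16.WM
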