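import Pool.Agent.Helper16.WM.NDefs

set_option autoImplicit false

/-! # Polynomials with positive coefficients on the compact faces of the Newton polyhedron -/

namespace Pool.Agent.Helper16.WM

open MvPolynomial Filter Topology

/-- `u` lies in `conv(V) + (ℝ_{≥ 0} ^ N ∖ {0})` -/
def Above {N : ℕ} (V : Finset (Fin N →₀ ℕ)) (u : Fin N →₀ ℕ) : Prop :=
  ∃ lam : (Fin N →₀ ℕ) → ℝ, (∀ v ∈ V, 0 ≤ lam v) ∧ ∑ v ∈ V, lam v = 1 ∧
    (∀ i, ∑ v ∈ V, lam v * (v i : ℝ) ≤ u i) ∧ ∃ i, ∑ v ∈ V, lam v * (v i : ℝ) < u i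

theorem above_bound {N : ℕ} {V : Finset (Fin N →₀ ℕ)} {u : Fin N →₀ ℕ} (h : Above V u) :
    ∃ δ : ℝ, 0 < δ ∧ ∀ (r : ℝ) (x : Fin N → ℝ), r ≤ 1 → ‖x‖ ≤ r →
      ∏ i, |x i| ^ u i ≤ r ^ δ * ∑ v ∈ V, ∏ i, |x i| ^ v i := by
  obtain ⟨lam, hlam, hsum, hle, i₀, hlt⟩ := h
  set δ : Fin N → ℝ := fun i => u i - ∑ v ∈ V, lam v * (v i : ℝ) with hδ
  have hδ0 : ∀ i, 0 ≤ δ i := fun i => sub_nonneg.2 (hle i)
  have hδ1 : 0 < δ i₀ := sub_pos.2 hlt
  refine ⟨δ i₀, hδ1, fun r x hr hx => ?_⟩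
  have hr0 : 0 ≤ r := (norm_nonneg x).trans hx
  have hxi : ∀ i, |x i| ≤ r := fun i => by
    have h1 := norm_le_pi_norm x i
    rw [Real.norm_eq_abs] at h1
    exact h1.trans hx
  have h1 : ∀ i, |x i| ^ u i = |x i| ^ δ i * ∏ v ∈ V, (|x i| ^ v i) ^ lam v := by
    intro i
    have h2 : (u i : ℝ) = δ i + ∑ v ∈ V, lam v * (v i : ℝ) := by
      simp only [hδ]
      ring
    have h3 : ∀ v ∈ V, 0 ≤ lam v * (v i : ℝ) := fun v hv => mul_nonneg (hlam v hv) (Nat.cast_nonneg _)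
    rw [← Real.rpow_natCast, h2, Real.rpow_add_of_nonneg (abs_nonneg _) (hδ0 i) (Finset.sum_nonneg h3),
      Real.rpow_sum_of_nonneg (abs_nonneg _) h3]
    congr 1
    refine Finset.prod_congr rfl fun v _ => ?_
    rw [mul_comm, Real.rpow_mul (abs_nonneg _), Real.rpow_natCast]
  have h2 : ∏ i, |x i| ^ u i = (∏ i, |x i| ^ δ i) * ∏ v ∈ V, (∏ i, |x i| ^ v i) ^ lam v := by
    rw [Finset.prod_congr rfl fun i _ => h1 i, Finset.prod_mul_distrib, Finset.prod_comm]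
    congr 1
    refine Finset.prod_congr rfl fun v _ => ?_
    rw [Real.finsetProd_rpow _ _ fun i _ => pow_nonneg (abs_nonneg _) _]
  have h3 : ∏ i, |x i| ^ δ i ≤ r ^ δ i₀ := by
    rw [← Finset.mul_prod_erase Finset.univ _ (Finset.mem_univ i₀)]
    have h4 : ∏ i ∈ Finset.univ.erase i₀, |x i| ^ δ i ≤ 1 :=
      Finset.prod_le_one (fun i _ => Real.rpow_nonneg (abs_nonneg _) _)
        fun i _ => Real.rpow_le_one (abs_nonneg _) ((hxi i).trans hr) (hδ0 i)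
    have h5 : |x i₀| ^ δ i₀ ≤ r ^ δ i₀ := Real.rpow_le_rpow (abs_nonneg _) (hxi i₀) hδ1.le
    calc |x i₀| ^ δ i₀ * ∏ i ∈ Finset.univ.erase i₀, |x i| ^ δ i ≤ r ^ δ i₀ * 1 :=
          mul_le_mul h5 h4 (Finset.prod_nonneg fun i _ => Real.rpow_nonneg (abs_nonneg _) _)
            (Real.rpow_nonneg hr0 _)
      _ = r ^ δ i₀ := mul_one _
  have h4 : ∀ v ∈ V, 0 ≤ ∏ i, |x i| ^ v i := fun v _ =>
    Finset.prod_nonneg fun i _ => pow_nonneg (abs_nonneg _) _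
  have h5 : ∏ v ∈ V, (∏ i, |x i| ^ v i) ^ lam v ≤ ∑ v ∈ V, ∏ i, |x i| ^ v i := by
    refine (Real.geom_mean_le_arith_mean_weighted V lam _ hlam hsum h4).trans ?_
    refine Finset.sum_le_sum fun v hv => ?_
    have h6 : lam v ≤ 1 := by
      rw [← hsum]
      exact Finset.single_le_sum hlam hv
    exact mul_le_of_le_one_left (h4 v hv) h6
  rw [h2]
  exact mul_le_mul h3 h5 (Finset.prod_nonneg fun v hv => Real.rpow_nonneg (h4 v hv) _)
    (Real.rpow_nonneg hr0 _)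

theorem low_of_above {N : ℕ} {P : MvPolynomial (Fin N) ℝ} {V : Finset (Fin N →₀ ℕ)}
    (hV : V ⊆ P.support) (hpos : ∀ v ∈ V, 0 < coeff v P)
    (hab : ∀ u ∈ P.support, u ∉ V → Above V u) :
    ∃ C r : ℝ, 0 < r ∧ ∀ x : Fin N → ℝ, (∀ v ∈ V, ∏ i, x i ^ v i = ∏ i, |x i| ^ v i) →
      ‖x‖ ≤ r → ∀ v ∈ V, ∏ i, |x i| ^ v i ≤ C * |eval x P| := by
  classical
  have hc0 : 0 < ∑ v ∈ V, (coeff v P)⁻¹ + 1 :=
    add_pos_of_nonneg_of_pos (Finset.sum_nonneg fun v hv => (inv_pos.2 (hpos v hv)).le) one_pos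
  set c : ℝ := (∑ v ∈ V, (coeff v P)⁻¹ + 1)⁻¹ with hc
  have hcpos : 0 < c := inv_pos.2 hc0
  have hcle : ∀ v ∈ V, c ≤ coeff v P := by
    intro v hv
    have h1 : (coeff v P)⁻¹ ≤ ∑ v ∈ V, (coeff v P)⁻¹ + 1 := by
      have h2 := Finset.single_le_sum (f := fun v => (coeff v P)⁻¹)
        (fun u hu => (inv_pos.2 (hpos u hu)).le) hv
      linarith
    have h3 := inv_anti₀ (inv_pos.2 (hpos v hv)) h1
    rwa [inv_inv] at h3
  have hex : ∀ u : Fin N →₀ ℕ, ∃ δ : ℝ, 0 < δ ∧ (u ∈ P.support \ V → ∀ (r : ℝ) (x : Fin N → ℝ),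
      r ≤ 1 → ‖x‖ ≤ r → ∏ i, |x i| ^ u i ≤ r ^ δ * ∑ v ∈ V, ∏ i, |x i| ^ v i) := by
    intro u
    by_cases hu : u ∈ P.support \ V
    · obtain ⟨δ, h1, h2⟩ := above_bound (hab u (Finset.mem_sdiff.1 hu).1 (Finset.mem_sdiff.1 hu).2)
      exact ⟨δ, h1, fun _ => h2⟩
    · exact ⟨1, one_pos, fun h => absurd h hu⟩
  choose δ hδ0 hδ using hex
  have hcont : ContinuousAt (fun r : ℝ => ∑ u ∈ P.support \ V, |coeff u P| * r ^ δ u) 0 := by
    refine tendsto_finsetSum _ fun u _ => ?_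
    exact (Real.continuousAt_rpow_const 0 (δ u) (Or.inr (hδ0 u).le)).tendsto.const_mul _
  have hz : (fun r : ℝ => ∑ u ∈ P.support \ V, |coeff u P| * r ^ δ u) 0 = 0 := by
    refine Finset.sum_eq_zero fun u _ => ?_
    rw [Real.zero_rpow (hδ0 u).ne', mul_zero]
  have hev : ∀ᶠ r : ℝ in 𝓝 0, ∑ u ∈ P.support \ V, |coeff u P| * r ^ δ u < c / 2 := by
    refine hcont.eventually_lt continuousAt_const ?_
    refine lt_of_eq_of_lt hz ?_
    positivity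
  obtain ⟨ρ, hρ, hρ'⟩ := Metric.eventually_nhds_iff.1 hev
  set r : ℝ := min (ρ / 2) 1 with hr
  have hr0 : 0 < r := lt_min (by positivity) one_pos
  have hr1 : r ≤ 1 := min_le_right _ _
  have hrρ : ∑ u ∈ P.support \ V, |coeff u P| * r ^ δ u < c / 2 := by
    refine hρ' ?_
    rw [Real.dist_eq, sub_zero, abs_of_pos hr0]
    exact (min_le_left _ _).trans_lt (by linarith)
  refine ⟨(c / 2)⁻¹, r, hr0, fun x hx hxr v hv => ?_⟩
  set S : ℝ := ∑ v ∈ V, ∏ i, |x i| ^ v i with hS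
  have hnn : ∀ v : Fin N →₀ ℕ, 0 ≤ ∏ i, |x i| ^ v i := fun v =>
    Finset.prod_nonneg fun i _ => pow_nonneg (abs_nonneg _) _
  have hS0 : 0 ≤ S := Finset.sum_nonneg fun v _ => hnn v
  have h1 : c * S ≤ ∑ v ∈ V, coeff v P * ∏ i, x i ^ v i := by
    rw [hS, Finset.mul_sum]
    refine Finset.sum_le_sum fun v hv => ?_
    rw [hx v hv]
    exact mul_le_mul_of_nonneg_right (hcle v hv) (hnn v)
  have h2 : |∑ u ∈ P.support \ V, coeff u P * ∏ i, x i ^ u i| ≤ c / 2 * S := by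
    refine (Finset.abs_sum_le_sum_abs _ _).trans ?_
    refine le_trans ?_ (mul_le_mul_of_nonneg_right hrρ.le hS0)
    rw [Finset.sum_mul]
    refine Finset.sum_le_sum fun u hu => ?_
    rw [abs_mul, Finset.abs_prod, mul_assoc]
    refine mul_le_mul_of_nonneg_left ?_ (abs_nonneg _)
    have h3 := hδ u hu r x hr1 hxr
    refine le_trans (le_of_eq ?_) h3
    exact Finset.prod_congr rfl fun i _ => abs_pow _ _
  have h3 : eval x P = ∑ u ∈ P.support \ V, coeff u P * ∏ i, x i ^ u i +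
      ∑ v ∈ V, coeff v P * ∏ i, x i ^ v i := by
    rw [eval_eq', Finset.sum_sdiff hV]
  have h4 : c / 2 * S ≤ |eval x P| := by
    refine le_trans ?_ (le_abs_self _)
    rw [h3]
    have h5 := (abs_le.1 h2).1
    linarith
  have h5 : ∏ i, |x i| ^ v i ≤ S := Finset.single_le_sum (fun v _ => hnn v) hv
  rw [inv_mul_eq_div, le_div_iff₀ (by positivity), mul_comm]
  exact (mul_le_mul_of_nonneg_left h5 (by positivity)).trans h4

end Pool.Agent.Helper16.WM
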