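import Pool.Agent.Helper16.WM.Stm

set_option autoImplicit false

/-! # The root from a critical integral over a chamber -/

namespace Pool.Agent.Helper16.WM.AbsN

open MvPolynomial MeasureTheory Filter Topology ProbabilityTheory Pool.Agent.Helper48.RC

variable {σ : Type} [Fintype σ]

/-- an open set with a positive continuous function -/
structure Dom (u : (σ → ℝ) → ℝ) (Δ : Set (σ → ℝ)) : Prop where
  cont : Continuous u
  isOpen : IsOpen Δ
  pos : ∀ x ∈ Δ, 0 < u x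

variable {u : (σ → ℝ) → ℝ} {Δ : Set (σ → ℝ)}

namespace Dom

variable (W : Dom u Δ)

include W

theorem measurableSet_base : MeasurableSet (Δ ∩ {x | ‖x‖ ≤ 2}) :=
  W.isOpen.measurableSet.inter (measurableSet_le measurable_norm measurable_const)

theorem ae_base : ∀ᵐ x ∂(base Δ), x ∈ Δ ∧ ‖x‖ ≤ 2 := by
  rw [base, ae_restrict_iff' W.measurableSet_base]
  exact Eventually.of_forall fun x hx => hx

theorem exists_bound (R : ℝ) : ∃ M : ℝ, 1 ≤ M ∧ ∀ x : σ → ℝ, ‖x‖ ≤ R → |u x| ≤ M := by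
  obtain ⟨M, hM⟩ := (isCompact_closedBall (0 : σ → ℝ) R).exists_bound_of_continuousOn
    W.cont.continuousOn
  refine ⟨max M 1, le_max_right _ _, fun x hx => ?_⟩
  refine le_trans ?_ (le_max_left _ _)
  exact hM x (by rwa [mem_closedBall_zero_iff])

theorem exp_log_ae (t : ℝ) (ψ : (σ → ℝ) → ℝ) :
    (fun x => Real.exp (t * Real.log (u x)) * (ENNReal.ofReal (ψ x)).toReal) =ᵐ[base Δ]
      fun x => u x ^ t * max (ψ x) 0 := by
  filter_upwards [W.ae_base] with x hx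
  rw [Real.rpow_def_of_pos (W.pos x hx.1), mul_comm t, ENNReal.toReal_ofReal']

theorem integrable_nu {ψ : (σ → ℝ) → ℝ} (hψ : Test ψ) (t : ℝ)
    (ht : Integrable (fun x => u x ^ t * max (ψ x) 0) (base Δ)) :
    Integrable (fun x => Real.exp (t * Real.log (u x))) (nu Δ ψ) := by
  rw [nu, integrable_withDensity_iff hψ.smooth.continuous.measurable.ennreal_ofReal
    (Eventually.of_forall fun x => ENNReal.ofReal_lt_top)]
  exact ht.congr (W.exp_log_ae t ψ).symm

theorem mgf_nu {ψ : (σ → ℝ) → ℝ} (hψ : Test ψ) (t : ℝ) :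
    mgf (fun x => Real.log (u x)) (nu Δ ψ) t = ∫ x, u x ^ t * max (ψ x) 0 ∂(base Δ) := by
  rw [mgf, nu, integral_withDensity_eq_integral_toReal_smul
    hψ.smooth.continuous.measurable.ennreal_ofReal
    (Eventually.of_forall fun x => ENNReal.ofReal_lt_top)]
  refine integral_congr_ae ?_
  filter_upwards [W.exp_log_ae t ψ] with x hx
  rw [smul_eq_mul, mul_comm]
  exact hx

/-- `u ^ t ψ` is integrable for `t > t0` -/
def _root_.Pool.Agent.Helper16.WM.AbsN.IntT (u : (σ → ℝ) → ℝ) (Δ : Set (σ → ℝ)) (t0 : ℝ)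
    (ψ : (σ → ℝ) → ℝ) : Prop :=
  ∀ t : ℝ, t0 < t → Integrable (fun x => u x ^ t * max (ψ x) 0) (base Δ) ∧
    Integrable (fun x => u x ^ t * max (-ψ x) 0) (base Δ)

theorem J_diff {ψ : (σ → ℝ) → ℝ} (hψ : Test ψ) (t0 : ℝ) (hI : IntT u Δ t0 ψ) :
    DifferentiableOn ℂ (J u Δ ψ) {z | t0 < z.re} := by
  have h1 : ∀ {χ : (σ → ℝ) → ℝ}, Test χ →
      (∀ t, t0 < t → Integrable (fun x => u x ^ t * max (χ x) 0) (base Δ)) → DifferentiableOn ℂ
      (complexMGF (fun x => Real.log (u x)) (nu Δ χ)) {z | t0 < z.re} := by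
    intro χ hχ hχI
    refine differentiableOn_complexMGF.mono fun z hz => ?_
    have h2 : Set.Ioi t0 ⊆ integrableExpSet (fun x => Real.log (u x)) (nu Δ χ) :=
      fun t ht => W.integrable_nu hχ t (hχI t ht)
    exact interior_maximal h2 isOpen_Ioi hz
  exact (h1 hψ fun t ht => (hI t ht).1).sub (h1 hψ.neg fun t ht => (hI t ht).2)

/-- the growth of the zeta function -/
theorem J_bound {M : ℝ} (hM1 : 1 ≤ M) (hM : ∀ x : σ → ℝ, ‖x‖ ≤ 2 → |u x| ≤ M)
    {ψ : (σ → ℝ) → ℝ} (hψ : Test ψ) (t0 t1 : ℝ) (h01 : t0 < t1) (hI : IntT u Δ t0 ψ) :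
    ∃ A : ℝ, 0 ≤ A ∧ ∀ z : ℂ, t1 ≤ z.re → ‖J u Δ ψ z‖ ≤ A * M ^ z.re := by
  have hMpos : 0 < M := by linarith
  have key : ∀ {χ : (σ → ℝ) → ℝ}, Test χ →
      (∀ t, t0 < t → Integrable (fun x => u x ^ t * max (χ x) 0) (base Δ)) →
      0 ≤ (M ^ (-t1) * ∫ x, u x ^ t1 * max (χ x) 0 ∂(base Δ)) ∧ ∀ z : ℂ, t1 ≤ z.re →
      ‖complexMGF (fun x => Real.log (u x)) (nu Δ χ) z‖ ≤
        (M ^ (-t1) * ∫ x, u x ^ t1 * max (χ x) 0 ∂(base Δ)) * M ^ z.re := by
    intro χ hχ hχI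
    have hI0 : 0 ≤ ∫ x, u x ^ t1 * max (χ x) 0 ∂(base Δ) := by
      refine integral_nonneg_of_ae ?_
      filter_upwards [W.ae_base] with x hx
      exact mul_nonneg (Real.rpow_nonneg (W.pos x hx.1).le _) (le_max_right _ _)
    refine ⟨mul_nonneg (Real.rpow_nonneg hMpos.le _) hI0, fun z hz => ?_⟩
    refine norm_complexMGF_le_mgf.trans ?_
    rw [W.mgf_nu hχ]
    have h1 : ∫ x, u x ^ z.re * max (χ x) 0 ∂(base Δ) ≤
        ∫ x, (M ^ (z.re - t1)) * (u x ^ t1 * max (χ x) 0) ∂(base Δ) := by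
      refine integral_mono_ae (hχI _ (by linarith)) ((hχI t1 h01).const_mul _) ?_
      filter_upwards [W.ae_base] with x hx
      have hpos := W.pos x hx.1
      have h2 : u x ^ z.re = u x ^ (z.re - t1) * u x ^ t1 := by
        rw [← Real.rpow_add hpos]
        congr 1
        ring
      have h3 : u x ^ (z.re - t1) ≤ M ^ (z.re - t1) :=
        Real.rpow_le_rpow hpos.le ((le_abs_self _).trans (hM x hx.2)) (by linarith)
      have h4 : 0 ≤ u x ^ t1 := Real.rpow_nonneg hpos.le _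
      calc u x ^ z.re * max (χ x) 0 = u x ^ (z.re - t1) * (u x ^ t1 * max (χ x) 0) := by
            rw [h2]; ring
        _ ≤ M ^ (z.re - t1) * (u x ^ t1 * max (χ x) 0) :=
          mul_le_mul_of_nonneg_right h3 (mul_nonneg h4 (le_max_right _ _))
    refine h1.trans (le_of_eq ?_)
    rw [integral_const_mul, sub_eq_add_neg, Real.rpow_add hMpos]
    ring
  obtain ⟨hA1, k1⟩ := key hψ fun t ht => (hI t ht).1
  obtain ⟨hA2, k2⟩ := key hψ.neg fun t ht => (hI t ht).2
  refine ⟨_, add_nonneg hA1 hA2, fun z hz => ?_⟩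
  rw [J, add_mul]
  exact (norm_sub_le _ _).trans (add_le_add (k1 z hz) (k2 z hz))

/-- the value at an integer -/
theorem J_nat {ψ : (σ → ℝ) → ℝ} (hψ : Test ψ) (t0 : ℝ) (hI : IntT u Δ t0 ψ) (s : ℕ)
    (hs : t0 < (s : ℝ)) : J u Δ ψ (s : ℂ) = ((∫ x in Δ, u x ^ s * ψ x : ℝ) : ℂ) := by
  have h1 : ((s : ℝ) : ℂ) = (s : ℂ) := by norm_cast
  rw [J, ← h1, complexMGF_ofReal, complexMGF_ofReal, W.mgf_nu hψ, W.mgf_nu hψ.neg,
    ← Complex.ofReal_sub, ← integral_sub (hI s hs).1 (hI s hs).2]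
  congr 1
  have h2 : ∫ x in Δ, u x ^ s * ψ x = ∫ x in Δ ∩ {x | ‖x‖ ≤ 2}, u x ^ s * ψ x := by
    apply setIntegral_eq_of_subset_of_forall_sdiff_eq_zero W.isOpen.measurableSet
      Set.inter_subset_left
    rintro x ⟨hx1, hx2⟩
    have h3 : 2 < ‖x‖ := by
      by_contra h4
      exact hx2 ⟨hx1, not_lt.1 h4⟩
    rw [hψ.supp x h3, mul_zero]
  rw [h2, base]
  refine integral_congr_ae (Eventually.of_forall fun x => ?_)
  change u x ^ (s : ℝ) * max (ψ x) 0 - u x ^ (s : ℝ) * max (-ψ x) 0 = u x ^ s * ψ x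
  rw [Real.rpow_natCast, ← mul_sub]
  congr 1
  rcases le_total 0 (ψ x) with h | h
  · rw [max_eq_left h, max_eq_right (by linarith), sub_zero]
  · rw [max_eq_right h, max_eq_left (by linarith)]
    ring

omit W in
theorem finite_base (Δ : Set (σ → ℝ)) : IsFiniteMeasure (base Δ) := by
  refine ⟨?_⟩
  rw [base, Measure.restrict_apply_univ]
  refine lt_of_le_of_lt (measure_mono (t := Metric.closedBall (0 : σ → ℝ) 2) ?_)
    measure_closedBall_lt_top
  rintro x ⟨_, hx⟩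
  rwa [mem_closedBall_zero_iff]

/-- every test function, for `t ≥ 0` -/
theorem intT_zero {ψ : (σ → ℝ) → ℝ} (hψ : Test ψ) : IntT u Δ 0 ψ := by
  have : IsFiniteMeasure (base Δ) := finite_base Δ
  obtain ⟨M, hM1, hM⟩ := W.exists_bound 2
  have key : ∀ {χ : (σ → ℝ) → ℝ}, Test χ → ∀ t : ℝ, 0 < t →
      Integrable (fun x => u x ^ t * max (χ x) 0) (base Δ) := by
    intro χ hχ t ht
    obtain ⟨C, hC0, hC⟩ := Wedge.test_bound hχ
    refine Integrable.mono' (integrable_const (M ^ t * C)) ?_ ?_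
    · exact ((W.cont.measurable.pow_const t).mul
        (hχ.smooth.continuous.measurable.max measurable_const)).aestronglyMeasurable
    · filter_upwards [W.ae_base] with x hx
      have hpos := W.pos x hx.1
      rw [Real.norm_eq_abs, abs_mul, abs_of_nonneg (Real.rpow_nonneg hpos.le _),
        abs_of_nonneg (le_max_right (χ x) 0)]
      exact mul_le_mul (Real.rpow_le_rpow hpos.le ((le_abs_self _).trans (hM x hx.2)) ht.le)
        (max_le ((le_abs_self _).trans (hC x)) hC0) (le_max_right _ _) (by positivity)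
  exact fun t ht => ⟨key hψ t ht, key hψ.neg t ht⟩

end Dom

/-- the values of a sequence are interpolated by a function of controlled growth -/
theorem good_gen {g : MvPolynomial σ ℝ} (W : Dom (ev g) Δ) {κ : ℝ} (hκ0 : 0 < κ) (hκ1 : κ ≤ 1)
    {M : ℝ} (hM1 : 1 ≤ M) (hM : ∀ x : σ → ℝ, ‖x‖ ≤ 2 → |ev g x| ≤ M)
    (hfr : ∀ x ∈ frontier Δ, eval x g = 0) (m : ℕ) (p : MvPolynomial σ ℝ) (β : List σ)
    {ψ : (σ → ℝ) → ℝ} (hψ : Test ψ) :
    ∃ G : ℂ → ℂ, PB κ M G ∧ (∃ C : ℝ, ∀ t : ℝ, -κ < t → t < -κ + 1 → ‖G t‖ ≤ C) ∧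
      ∀ᶠ s : ℕ in atTop, G s = ((∫ x in Δ, ev (gen g m p β s) x * ψ x : ℝ) : ℂ) := by
  have hM0 : 0 < M := by linarith
  have hχ : Test (adj β (fun x => ev p x * ψ x)) := test_adj β (hψ.mul p)
  set χ := adj β (fun x => ev p x * ψ x) with hχdef
  have hI := W.intT_zero hχ
  obtain ⟨C0, hC00, hC0⟩ := Wedge.test_bound hχ
  have : IsFiniteMeasure (base Δ) := Dom.finite_base Δ
  -- a bound for the whole half plane `Re z > 0`
  obtain ⟨A, hA, hA'⟩ : ∃ A : ℝ, 0 ≤ A ∧ ∀ z : ℂ, 0 < z.re → ‖J (ev g) Δ χ z‖ ≤ A * M ^ z.re := by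
    have key : ∀ {χ : (σ → ℝ) → ℝ}, Test χ → (∀ x, |χ x| ≤ C0) →
        (∀ t : ℝ, 0 < t → Integrable (fun x => ev g x ^ t * max (χ x) 0) (base Δ)) →
        ∀ z : ℂ, 0 < z.re → ‖complexMGF (fun x => Real.log (ev g x)) (nu Δ χ) z‖ ≤
          (C0 * (base Δ).real Set.univ) * M ^ z.re := by
      intro χ hχ hχC hχI z hz
      refine norm_complexMGF_le_mgf.trans ?_
      rw [W.mgf_nu hχ]
      have h1 : ∫ x, ev g x ^ z.re * max (χ x) 0 ∂(base Δ) ≤
          ∫ _, M ^ z.re * C0 ∂(base Δ) := by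
        refine integral_mono_ae (hχI _ hz) (integrable_const _) ?_
        filter_upwards [W.ae_base] with x hx
        have hpos := W.pos x hx.1
        exact mul_le_mul (Real.rpow_le_rpow hpos.le ((le_abs_self _).trans (hM x hx.2)) hz.le)
          (max_le ((le_abs_self _).trans (hχC x)) hC00) (le_max_right _ _) (by positivity)
      refine h1.trans (le_of_eq ?_)
      rw [integral_const, smul_eq_mul]
      ring
    refine ⟨C0 * (base Δ).real Set.univ + C0 * (base Δ).real Set.univ, by positivity,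
      fun z hz => ?_⟩
    rw [J, add_mul]
    refine (norm_sub_le _ _).trans (add_le_add (key hχ hC0 (fun t ht => (hI t ht).1) z hz)
      (key hχ.neg (fun x => by rw [abs_neg]; exact hC0 x) (fun t ht => (hI t ht).2) z hz))
  have hPB : PB κ M (fun z => J (ev g) Δ χ (z + 1)) := by
    refine ⟨?_, A * M, mul_nonneg hA hM0.le, 0, fun z hz => ?_⟩
    · refine (W.J_diff hχ 0 hI).comp (differentiableOn_id.add_const _) fun w hw => ?_
      simp only [Set.mem_ofPred_eq, Complex.add_re, Complex.one_re] at hw ⊢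
      linarith
    · have h1 := hA' (z + 1) (by rw [Complex.add_re, Complex.one_re]; linarith)
      refine h1.trans (le_of_eq ?_)
      rw [Complex.add_re, Complex.one_re, Real.rpow_add hM0, Real.rpow_one, pow_zero]
      ring
  refine ⟨fun z => z ^ m * J (ev g) Δ χ (z + 1), hPB.pow_mul hM0 m,
    ⟨(κ + 1) ^ m * (A * M ^ (-κ + 2)), fun t h1 h2 => ?_⟩, ?_⟩
  · rw [norm_mul, norm_pow]
    have h3 : ‖(t : ℂ)‖ ≤ κ + 1 := by
      rw [Complex.norm_real, Real.norm_eq_abs, abs_le]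
      constructor <;> linarith
    have h4 := hA' ((t : ℂ) + 1) (by
      rw [Complex.add_re, Complex.one_re, Complex.ofReal_re]
      linarith)
    have h5 : M ^ ((t : ℂ) + 1).re ≤ M ^ (-κ + 2) := by
      refine Real.rpow_le_rpow_of_exponent_le hM1 ?_
      rw [Complex.add_re, Complex.one_re, Complex.ofReal_re]
      linarith
    exact mul_le_mul (pow_le_pow_left₀ (norm_nonneg _) h3 m)
      (h4.trans (mul_le_mul_of_nonneg_left h5 hA)) (norm_nonneg _) (by positivity)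
  · filter_upwards [eventually_ge_atTop β.length] with s hs
    have h1 : ((s : ℂ) + 1) = ((s + 1 : ℕ) : ℂ) := by push_cast; ring
    change (s : ℂ) ^ m * J (ev g) Δ χ ((s : ℂ) + 1) = _
    rw [integral_gen W.isOpen hfr m p β s hs hψ, h1, W.J_nat hχ 0 hI (s + 1) (by positivity),
      Complex.ofReal_mul, Complex.ofReal_pow, Complex.ofReal_natCast]

def GoodT (κ M : ℝ) (e : ℕ → ℝ) : Prop :=
  ∃ G : ℂ → ℂ, PB κ M G ∧
    (∃ C : ℝ, ∀ t : ℝ, -κ < t → t < -κ + 1 → ‖G t‖ ≤ C) ∧ ∀ᶠ s : ℕ in atTop, G s = e s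

theorem good_fam {g : MvPolynomial σ ℝ} (W : Dom (ev g) Δ) {κ : ℝ} (hκ0 : 0 < κ) (hκ1 : κ ≤ 1)
    {M : ℝ} (hM1 : 1 ≤ M) (hM : ∀ x : σ → ℝ, ‖x‖ ≤ 2 → |ev g x| ≤ M)
    (hfr : ∀ x ∈ frontier Δ, eval x g = 0) {ψ : (σ → ℝ) → ℝ} (hψ : Test ψ)
    (E : ℕ → MvPolynomial σ ℝ) (hE : E ∈ Fam g) :
    Wedge.Good κ M (fun s => ∫ x in Δ, ev (E s) x * ψ x) := by
  have hM0 : 0 < M := by linarith
  refine AddSubmonoid.closure_induction (motive := fun E _ =>
    Wedge.Good κ M (fun s => ∫ x in Δ, ev (E s) x * ψ x)) ?_ ?_ ?_ hE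
  · rintro E ⟨m, p, β, rfl⟩
    exact good_gen W hκ0 hκ1 hM1 hM hfr m p β hψ
  · have h1 : (fun s : ℕ => ∫ x in Δ, ev ((0 : ℕ → MvPolynomial σ ℝ) s) x * ψ x) = fun _ => 0 := by
      funext s
      simp [ev]
    rw [h1]
    exact Wedge.good_zero
  · intro E₁ E₂ _ _ h1 h2
    have h3 : (fun s : ℕ => ∫ x in Δ, ev ((E₁ + E₂) s) x * ψ x) =
        fun s => (∫ x in Δ, ev (E₁ s) x * ψ x) + ∫ x in Δ, ev (E₂ s) x * ψ x := by
      funext s
      rw [← integral_add (hψ.mul _).integrable.integrableOn (hψ.mul _).integrable.integrableOn]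
      refine integral_congr_ae (Eventually.of_forall fun x => ?_)
      change eval x (E₁ s + E₂ s) * ψ x = eval x (E₁ s) * ψ x + eval x (E₂ s) * ψ x
      rw [map_add, add_mul]
    rw [h3]
    exact h1.add hM0 h2

theorem root {g : MvPolynomial σ ℝ} (W : Dom (ev g) Δ) {κ : ℝ} (hκ0 : 0 < κ) (hκ1 : κ ≤ 1)
    (hfr : ∀ x ∈ frontier Δ, eval x g = 0) {ψ : (σ → ℝ) → ℝ} (hψ : Test ψ)
    (hψ0 : ∀ x ∈ Δ, 0 ≤ ψ x)
    (hint : ∀ t : ℝ, -κ < t → IntegrableOn (fun x => (ev g x) ^ t * ψ x) Δ)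
    (htop : ∫⁻ x in Δ, ENNReal.ofReal ((ev g x) ^ (-κ) * ψ x) = ⊤)
    (b : Polynomial ℝ) (hb : NF g b) : b.eval (-κ) = 0 := by
  obtain ⟨M, hM1, hM⟩ := W.exists_bound 2
  have hM0 : 0 < M := by linarith
  obtain ⟨G, hG, ⟨C, hC⟩, hGe⟩ := good_fam W hκ0 hκ1 hM1 hM hfr hψ _ hb
  have hneg : ∀ᵐ x ∂(base Δ), max (-ψ x) 0 = 0 := by
    filter_upwards [W.ae_base] with x hx
    exact max_eq_right (by linarith [hψ0 x hx.1])
  have hI : IntT (ev g) Δ (-κ) ψ := by
    intro t ht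
    constructor
    · have h1 : Integrable (fun x => (ev g x) ^ t * ψ x) (base Δ) :=
        (hint t ht).mono_set Set.inter_subset_left
      refine h1.congr ?_
      filter_upwards [W.ae_base] with x hx
      rw [max_eq_left (hψ0 x hx.1)]
    · refine (integrable_zero (σ → ℝ) ℝ (base Δ)).congr ?_
      filter_upwards [hneg] with x hx
      change (0 : ℝ) = _
      rw [hx, mul_zero]
  have hJ : ∀ t : ℝ, -κ < t →
      ∫⁻ x in Δ, ENNReal.ofReal (ev g x ^ t * ψ x) ≤ ENNReal.ofReal ‖J (ev g) Δ ψ (t : ℂ)‖ := by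
    intro t ht
    have h1 : ∀ s : ℝ, ∫⁻ x in Δ, ENNReal.ofReal (ev g x ^ s * ψ x) =
        ∫⁻ x, ENNReal.ofReal (ev g x ^ s * ψ x) ∂(base Δ) := by
      intro s
      rw [base, ← lintegral_indicator W.isOpen.measurableSet,
        ← lintegral_indicator W.measurableSet_base]
      congr 1
      funext x
      by_cases hx : x ∈ Δ
      · by_cases hx2 : ‖x‖ ≤ 2
        · rw [Set.indicator_of_mem hx, Set.indicator_of_mem (show x ∈ Δ ∩ {x | ‖x‖ ≤ 2} from
            ⟨hx, hx2⟩)]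
        · rw [Set.indicator_of_mem hx, Set.indicator_of_notMem (fun h => hx2 h.2),
            hψ.supp x (not_le.1 hx2), mul_zero, ENNReal.ofReal_zero]
      · rw [Set.indicator_of_notMem hx, Set.indicator_of_notMem (fun h => hx h.1)]
    have h2 : J (ev g) Δ ψ (t : ℂ) = ((∫ x, ev g x ^ t * ψ x ∂(base Δ) : ℝ) : ℂ) := by
      rw [J, complexMGF_ofReal, complexMGF_ofReal, W.mgf_nu hψ, W.mgf_nu hψ.neg]
      have h3 : ∫ x, ev g x ^ t * max (-ψ x) 0 ∂(base Δ) = 0 := by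
        have h7 : (fun x => ev g x ^ t * max (-ψ x) 0) =ᵐ[base Δ] fun _ => (0 : ℝ) := by
          filter_upwards [hneg] with x hx
          rw [hx, mul_zero]
        rw [integral_congr_ae h7, integral_zero]
      have h4 : ∫ x, ev g x ^ t * max (ψ x) 0 ∂(base Δ) = ∫ x, ev g x ^ t * ψ x ∂(base Δ) := by
        refine integral_congr_ae ?_
        filter_upwards [W.ae_base] with x hx
        rw [max_eq_left (hψ0 x hx.1)]
      rw [h3, h4, Complex.ofReal_zero, sub_zero]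
    have h5 : 0 ≤ᵐ[base Δ] fun x => ev g x ^ t * ψ x := by
      filter_upwards [W.ae_base] with x hx
      exact mul_nonneg (Real.rpow_nonneg (W.pos x hx.1).le _) (hψ0 x hx.1)
    have h6 : Integrable (fun x => (ev g x) ^ t * ψ x) (base Δ) :=
      (hint t ht).mono_set Set.inter_subset_left
    rw [h1, h2, Complex.norm_real, Real.norm_of_nonneg (integral_nonneg_of_ae h5),
      ofReal_integral_eq_lintegral_ofReal h6 h5]
  set bC : Polynomial ℂ := b.map (algebraMap ℝ ℂ) with hbC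
  have hbC' : ∀ t : ℝ, bC.eval (t : ℂ) = ((b.eval t : ℝ) : ℂ) := by
    intro t
    have h1 : (t : ℂ) = algebraMap ℝ ℂ t := rfl
    rw [hbC, h1, Polynomial.eval_map_apply]
    rfl
  have hJPB : PB κ M (J (ev g) Δ ψ) := by
    obtain ⟨A, hA, hA'⟩ := W.J_bound hM1 hM hψ (-κ) (-κ + 1) (by linarith) hI
    exact ⟨W.J_diff hψ (-κ) hI, A, hA, 0, fun z hz => by simpa using hA' z hz⟩
  have hH : PB κ M (fun z => bC.eval z * J (ev g) Δ ψ z - G z) :=
    (hJPB.poly_mul hM0 bC).sub hM0 hG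
  have hH0 : ∀ᶠ s : ℕ in atTop, bC.eval (s : ℂ) * J (ev g) Δ ψ (s : ℂ) - G s = 0 := by
    filter_upwards [hGe] with s hs
    have h1 : bC.eval (s : ℂ) = ((b.eval (s : ℝ) : ℝ) : ℂ) := by
      have := hbC' (s : ℝ)
      rwa [Complex.ofReal_natCast] at this
    rw [hs, W.J_nat hψ (-κ) hI s (by
      have : (0 : ℝ) ≤ (s : ℝ) := Nat.cast_nonneg _
      linarith), h1, ← Complex.ofReal_mul, ← Complex.ofReal_sub, ← integral_const_mul]
    rw [Complex.ofReal_eq_zero, sub_eq_zero]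
    refine integral_congr_ae (Eventually.of_forall fun x => ?_)
    change b.eval (s : ℝ) * (eval x g ^ s * ψ x) =
      eval x (MvPolynomial.C (b.eval (s : ℝ)) * g ^ s) * ψ x
    rw [map_mul, eval_C, map_pow, mul_assoc]
  have hvan : ∀ t : ℝ, -κ < t → bC.eval (t : ℂ) * J (ev g) Δ ψ (t : ℂ) = G t := by
    intro t ht
    have h1 := hH.vanish hM0 hκ0.le hH0 (t : ℂ) (by rwa [Complex.ofReal_re])
    exact sub_eq_zero.1 h1
  by_contra hne
  set c : ℝ := |b.eval (-κ)| / 2 with hc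
  have hc0 : 0 < c := by
    have := abs_pos.2 hne
    positivity
  have hcont : ∀ᶠ t in 𝓝 (-κ), c < |b.eval t| := by
    have h1 : ContinuousAt (fun t => |b.eval t|) (-κ) := b.continuous.continuousAt.abs
    refine h1.eventually_const_lt ?_
    have := abs_pos.2 hne
    change |b.eval (-κ)| / 2 < |b.eval (-κ)|
    linarith
  obtain ⟨δ, hδ, hδ'⟩ := Metric.eventually_nhds_iff.1 hcont
  have hC0 : 0 ≤ C := (norm_nonneg _).trans (hC (-κ + 1 / 2) (by linarith) (by linarith))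
  have hbd : ∀ t : ℝ, -κ < t → t < -κ + min δ 1 →
      ∫⁻ x in Δ, ENNReal.ofReal (ev g x ^ t * ψ x) ≤ ENNReal.ofReal (C / c) := by
    intro t h1 h2
    have h3 : t < -κ + δ := h2.trans_le (by linarith [min_le_left δ 1])
    have h4 : t < -κ + 1 := h2.trans_le (by linarith [min_le_right δ 1])
    refine (hJ t h1).trans (ENNReal.ofReal_le_ofReal ?_)
    have h5 : c < |b.eval t| := hδ' (by
      rw [Real.dist_eq, abs_lt]
      constructor <;> linarith)
    have h6 := hC t h1 h4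
    rw [← hvan t h1, norm_mul, hbC', Complex.norm_real, Real.norm_eq_abs] at h6
    rw [le_div_iff₀ hc0]
    nlinarith [norm_nonneg (J (ev g) Δ ψ (t : ℂ))]
  set tt : ℕ → ℝ := fun j => -κ + min δ 1 / (j + 2) with htt
  have hδ1 : 0 < min δ 1 := lt_min hδ one_pos
  have htlim : Tendsto tt atTop (𝓝 (-κ)) := by
    have h1 : Tendsto (fun j : ℕ => min δ 1 / ((j : ℝ) + 2)) atTop (𝓝 0) :=
      tendsto_const_nhds.div_atTop
        (tendsto_atTop_add_const_right _ _ tendsto_natCast_atTop_atTop)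
    have h2 := h1.const_add (-κ)
    rwa [add_zero] at h2
  have h1 : ∫⁻ x in Δ, ENNReal.ofReal (ev g x ^ (-κ) * ψ x) ≤ ENNReal.ofReal (C / c) := by
    calc ∫⁻ x in Δ, ENNReal.ofReal (ev g x ^ (-κ) * ψ x) =
        ∫⁻ x in Δ, liminf (fun j => ENNReal.ofReal (ev g x ^ (tt j) * ψ x)) atTop := by
          refine setLIntegral_congr_fun W.isOpen.measurableSet fun x hx => ?_
          have h2 : Tendsto (fun j => ENNReal.ofReal (ev g x ^ (tt j) * ψ x)) atTop
              (𝓝 (ENNReal.ofReal (ev g x ^ (-κ) * ψ x))) :=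
            ENNReal.tendsto_ofReal
              (((Real.continuousAt_const_rpow (W.pos x hx).ne').tendsto.comp htlim).mul_const _)
          exact h2.liminf_eq.symm
      _ ≤ liminf (fun j => ∫⁻ x in Δ, ENNReal.ofReal (ev g x ^ (tt j) * ψ x)) atTop :=
          lintegral_liminf_le fun j => ((W.cont.measurable.pow_const _).mul
            hψ.smooth.continuous.measurable).ennreal_ofReal
      _ ≤ ENNReal.ofReal (C / c) := by
          refine liminf_le_of_frequently_le' (Frequently.of_forall fun j => ?_)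
          refine hbd _ ?_ ?_
          · have : 0 < min δ 1 / ((j : ℝ) + 2) := by positivity
            change -κ < -κ + min δ 1 / ((j : ℝ) + 2)
            linarith
          · have : min δ 1 / ((j : ℝ) + 2) < min δ 1 := by
              rw [div_lt_iff₀ (by positivity)]
              nlinarith [Nat.cast_nonneg (α := ℝ) j]
            change -κ + min δ 1 / ((j : ℝ) + 2) < -κ + min δ 1
            linarith
  rw [htop] at h1
  exact absurd h1 (not_le.2 ENNReal.ofReal_lt_top)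

end Pool.Agent.Helper16.WM.AbsN

namespace Pool.Agent.Helper16.WM

open MvPolynomial MeasureTheory Pool.Agent.Helper48.RC

theorem pAbs : S_abs := fun _ g Ω ψ κ b ho hpos hfr hψ hψ0 hκ0 hκ1 hint htop hb =>
  AbsN.root (g := g) (Δ := Ω) ⟨continuous_ev g, ho, hpos⟩ hκ0 hκ1 hfr hψ hψ0 hint htop b hb

end Pool.Agent.Helper16.WM
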