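import Pool.Agent.Helper16.WM.Asm

set_option autoImplicit false

/-! # Chambers of real forms -/

namespace Pool.Agent.Helper16.WM

open MvPolynomial MeasureTheory Filter Topology Pool.Agent.Helper48.RC

/-- `Δ` is a chamber of the product of the real forms `A`, `B`, off `B = 0`: a nonempty open cone on
which `A B` has no zero, such that `A B` is zero on its boundary, and `B` has no zero `x ≠ 0` in its
closure. -/
structure Chamber {N : ℕ} (A B : MvPolynomial (Fin N) ℝ) (Δ : Set (Fin N → ℝ)) : Prop where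
  isOpen : IsOpen Δ
  nonempty : Δ.Nonempty
  cone : ∀ x ∈ Δ, ∀ t : ℝ, 0 < t → t • x ∈ Δ
  ne : ∀ x ∈ Δ, eval x (A * B) ≠ 0
  fr : ∀ x ∈ frontier Δ, eval x (A * B) = 0
  clB : ∀ x ∈ closure Δ, x ≠ 0 → eval x B ≠ 0

theorem hasOrder_hom {N : ℕ} {e : ℕ} {H : MvPolynomial (Fin N) ℝ} (hH : H.IsHomogeneous e)
    (h0 : H ≠ 0) : HasOrder (fun _ => 1) e H := by
  have h1 : ∀ m ∈ H.support, wt (fun _ => 1) m = e := by
    intro m hm
    have h2 : m.degree = e := by
      by_contra h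
      exact mem_support_iff.1 hm (hH.coeff_eq_zero h)
    rw [wt, ← h2, Finsupp.degree_eq_sum]
    simp
  refine ⟨fun m hm => (h1 m hm).ge, ?_⟩
  obtain ⟨m, hm⟩ := support_nonempty.2 h0
  exact ⟨m, hm, h1 m hm⟩

theorem scl_one_eq {N : ℕ} (t : ℝ) (x : Fin N → ℝ) : scl (fun _ => 1) t x = t • x := by
  funext i
  rw [scl, pow_one, Pi.smul_apply, smul_eq_mul]

theorem geo_of_chamber {N a c : ℕ} (hc : 0 < c) {A B : MvPolynomial (Fin N) ℝ}
    (hA : A.IsHomogeneous a) (hB : B.IsHomogeneous c) {Δ : Set (Fin N → ℝ)} (h : Chamber A B Δ) :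
    Geo (fun _ => 1) a c A B Δ := by
  obtain ⟨x₀, hx₀⟩ := h.nonempty
  have hne₀ := h.ne x₀ hx₀
  rw [map_mul] at hne₀
  have hA0 : A ≠ 0 := by
    rintro rfl
    rw [map_zero, zero_mul] at hne₀
    exact hne₀ rfl
  have hB0 : B ≠ 0 := by
    rintro rfl
    rw [map_zero, mul_zero] at hne₀
    exact hne₀ rfl
  have hzero : ∀ x ∈ Δ, x ≠ 0 := by
    rintro x hx rfl
    have h1 := h.ne 0 hx
    rw [map_mul] at h1
    apply right_ne_zero_of_mul h1
    have h2 := eval_smul_hom B hB 0 0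
    rw [zero_smul, zero_pow hc.ne', zero_mul] at h2
    exact h2
  have hx₀0 : 0 < ‖x₀‖ := norm_pos_iff.2 (hzero x₀ hx₀)
  have hN : ∃ i : Fin N, 0 < (fun _ : Fin N => 1) i := by
    rcases N with _ | N
    · exact absurd (Subsingleton.elim x₀ 0) (hzero x₀ hx₀)
    · exact ⟨0, one_pos⟩
  -- a lower bound of `B` on the sphere
  set K : Set (Fin N → ℝ) := closure Δ ∩ Metric.sphere 0 1 with hK
  have hKc : IsCompact K := (isCompact_sphere _ _).inter_left isClosed_closure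
  have hnorm : ∀ x ∈ Δ, ‖x‖⁻¹ • x ∈ K := by
    intro x hx
    have h1 : 0 < ‖x‖ := norm_pos_iff.2 (hzero x hx)
    refine ⟨subset_closure (h.cone x hx _ (inv_pos.2 h1)), ?_⟩
    rw [mem_sphere_zero_iff_norm, norm_smul, norm_inv, norm_norm, inv_mul_cancel₀ h1.ne']
  obtain ⟨u, hu, hmin⟩ := hKc.exists_isMinOn ⟨_, hnorm x₀ hx₀⟩
    (MvPolynomial.continuous_eval B).abs.continuousOn
  have hβ : 0 < |eval u B| := by
    refine abs_pos.2 (h.clB u hu.1 ?_)
    rintro rfl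
    have := hu.2
    rw [mem_sphere_zero_iff_norm, norm_zero] at this
    exact zero_ne_one this
  have hlow : ∀ x ∈ Δ, ‖x‖ ^ c * |eval u B| ≤ |eval x B| := by
    intro x hx
    have h1 : 0 < ‖x‖ := norm_pos_iff.2 (hzero x hx)
    have h2 := hmin (hnorm x hx)
    have h3 : eval x B = ‖x‖ ^ c * eval (‖x‖⁻¹ • x) B := by
      rw [← eval_smul_hom B hB, smul_smul, mul_inv_cancel₀ h1.ne', one_smul]
    rw [h3, abs_mul, abs_of_pos (pow_pos h1 _)]
    exact mul_le_mul_of_nonneg_left h2 (pow_pos h1 _).le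
  refine ⟨hN, hasOrder_hom hA hA0, hasOrder_hom hB hB0, h.isOpen, h.ne,
    ⟨1, one_pos, fun x hx _ => h.fr x hx⟩,
    ⟨|eval u B|⁻¹, 1, one_pos, fun x hx _ i => ?_⟩, fun ε hε => ?_⟩
  · rw [pow_one, inv_mul_eq_div, le_div_iff₀ hβ]
    refine le_trans (mul_le_mul_of_nonneg_right ?_ hβ.le) (hlow x hx)
    exact pow_le_pow_left₀ (abs_nonneg _) (norm_le_pi_norm x i) _
  · refine ⟨Δ, 1, h.isOpen, h.nonempty, one_pos, fun y _ i hi => absurd hi one_ne_zero,
      fun t ht _ y hy => ?_⟩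
    rw [scl_one_eq]
    exact h.cone y hy t ht

end Pool.Agent.Helper16.WM
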