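import Pool.Agent.Helper16.WM.Scl

set_option autoImplicit false

/-! # The supercritical integrals are finite -/

namespace Pool.Agent.Helper16.WM.FinN

open MvPolynomial MeasureTheory Filter Topology Pool.Agent.Helper16.WM.SclN

variable {N : ℕ}

/-- a bound of `FF` -/
theorem bound_FF (w : Fin N → ℕ) (a : ℕ) (P : MvPolynomial (Fin N) ℝ) :
    ∃ K : ℝ, 1 ≤ K ∧ ∀ s : ℝ, 0 ≤ s → s ≤ 1 → ∀ y : Fin N → ℝ, ‖y‖ ≤ 1 → |FF w a P s y| ≤ K := by
  obtain ⟨K, hK⟩ := ((isCompact_Icc (a := (0 : ℝ)) (b := 1)).prod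
    (isCompact_closedBall (0 : Fin N → ℝ) 1)).exists_bound_of_continuousOn
      (continuous_FF w a P).continuousOn
  refine ⟨max K 1, le_max_right _ _, fun s h0 h1 y hy => ?_⟩
  refine le_trans ?_ (le_max_left _ _)
  exact hK (s, y) ⟨⟨h0, h1⟩, by rwa [mem_closedBall_zero_iff]⟩

/-- the fundamental annulus -/
def E0 (w : Fin N → ℕ) : Set (Fin N → ℝ) := {y | ‖y‖ ≤ 1 ∧ ∃ i, 0 < w i ∧ (1 / 2 : ℝ) ^ w i < |y i|}

theorem measurable_E0 (w : Fin N → ℕ) : MeasurableSet (E0 w) := by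
  have h1 : E0 w = {y | ‖y‖ ≤ 1} ∩ ⋃ i, {y | 0 < w i ∧ (1 / 2 : ℝ) ^ w i < |y i|} := by
    ext y
    simp [E0]
  rw [h1]
  refine (measurableSet_le measurable_norm measurable_const).inter
    (MeasurableSet.iUnion fun i => ?_)
  by_cases h : 0 < w i
  · have h2 : {y : Fin N → ℝ | 0 < w i ∧ (1 / 2 : ℝ) ^ w i < |y i|} =
        {y | (1 / 2 : ℝ) ^ w i < |y i|} := by
      ext y
      simp [h]
    rw [h2]
    exact measurableSet_lt measurable_const (continuous_apply i).abs.measurable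
  · have h2 : {y : Fin N → ℝ | 0 < w i ∧ (1 / 2 : ℝ) ^ w i < |y i|} = ∅ := by
      ext y
      simp [h]
    rw [h2]
    exact MeasurableSet.empty

/-- the annuli cover the punctured ball -/
theorem cover (w : Fin N → ℕ) (x : Fin N → ℝ) (hx : ‖x‖ ≤ 1) (i₁ : Fin N) (hw : 0 < w i₁)
    (hi : x i₁ ≠ 0) : ∃ n : ℕ, scl w ((1 / 2 : ℝ) ^ n)⁻¹ x ∈ E0 w := by
  classical
  have hinv : ∀ n : ℕ, ((1 / 2 : ℝ) ^ n)⁻¹ = 2 ^ n := fun n => by
    rw [← inv_pow]
    norm_num
  have hex : ∃ n : ℕ, ∃ i, 0 < w i ∧ 1 < ((2 : ℝ) ^ n) ^ w i * |x i| := by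
    obtain ⟨n, hn⟩ := pow_unbounded_of_one_lt (|x i₁|⁻¹) (one_lt_two (α := ℝ))
    refine ⟨n, i₁, hw, ?_⟩
    have h1 : 0 < |x i₁| := abs_pos.2 hi
    have h2 : |x i₁|⁻¹ < ((2 : ℝ) ^ n) ^ w i₁ := by
      refine hn.trans_le ?_
      calc (2 : ℝ) ^ n = ((2 : ℝ) ^ n) ^ 1 := (pow_one _).symm
        _ ≤ ((2 : ℝ) ^ n) ^ w i₁ := pow_le_pow_right₀ (one_le_pow₀ one_le_two) hw
    rwa [inv_lt_iff_one_lt_mul₀ h1] at h2
  set n := Nat.find hex with hn
  have hspec := Nat.find_spec hex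
  rw [← hn] at hspec
  have hn0 : n ≠ 0 := by
    intro h0
    rw [h0] at hspec
    obtain ⟨i, _, h2⟩ := hspec
    rw [pow_zero, one_pow, one_mul] at h2
    have h3 := norm_le_pi_norm x i
    rw [Real.norm_eq_abs] at h3
    linarith
  obtain ⟨m, hm⟩ := Nat.exists_eq_succ_of_ne_zero hn0
  have hmin := Nat.find_min hex (m := m) (by rw [← hn, hm]; exact Nat.lt_succ_self m)
  push Not at hmin
  refine ⟨m, ?_, ?_⟩
  · rw [pi_norm_le_iff_of_nonneg zero_le_one]
    intro i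
    rw [scl, hinv, Real.norm_eq_abs, abs_mul, abs_of_pos (by positivity)]
    rcases Nat.eq_zero_or_pos (w i) with h0 | h0
    · rw [h0, pow_zero, one_mul]
      have h3 := norm_le_pi_norm x i
      rw [Real.norm_eq_abs] at h3
      linarith
    · exact hmin i h0
  · obtain ⟨i, h1, h2⟩ := hspec
    refine ⟨i, h1, ?_⟩
    rw [scl, hinv, abs_mul, abs_of_pos (by positivity)]
    rw [hm, pow_succ, mul_pow] at h2
    have h3 : (0 : ℝ) < 2 ^ w i := by positivity
    have h4 : (1 / 2 : ℝ) ^ w i = ((2 : ℝ) ^ w i)⁻¹ := by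
      rw [← inv_pow]
      norm_num
    rw [h4, inv_lt_iff_one_lt_mul₀ h3]
    linarith

theorem main (w : Fin N → ℕ) (a b : ℕ) (A B : MvPolynomial (Fin N) ℝ) (Ω : Set (Fin N → ℝ))
    (hG : Geo w a b A B Ω) : ∃ r : ℝ, 0 < r ∧
    ∀ (H : MvPolynomial (Fin N) ℝ) (γ : ℕ), HasOrder w γ H → ∀ (k : ℕ) (t : ℝ), 0 ≤ t + k →
      -((∑ i, w i : ℕ) : ℝ) < t * (a + b) + a * k + γ →
      IntegrableOn (fun x => |eval x A| ^ (t + k) * |eval x B| ^ t * eval x H)
        (Ω ∩ {x | ‖x‖ ≤ r}) := by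
  classical
  obtain ⟨i0, hi0⟩ := hG.wpos
  obtain ⟨C, r₀, hr₀, hC⟩ := hG.lowB
  refine ⟨min r₀ 1, lt_min hr₀ one_pos, fun H γ hH k t htk ht => ?_⟩
  set r : ℝ := min r₀ 1 with hr
  set ν : ℕ := ∑ i, w i with hν
  set C' : ℝ := max C 1 with hC'
  have hC'1 : 1 ≤ C' := le_max_right _ _
  have hC'0 : 0 < C' := by linarith
  obtain ⟨KA, hKA1, hKA⟩ := bound_FF w a A
  obtain ⟨KB, hKB1, hKB⟩ := bound_FF w b B
  obtain ⟨KH, hKH1, hKH⟩ := bound_FF w γ H
  set cB : ℝ := (1 / 2) ^ b / C' with hcB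
  have hcB0 : 0 < cB := by positivity
  set K : ℝ := KA ^ (t + k) * (KB ^ t + cB ^ t) * KH with hK
  have hKA0 : 0 < KA := by linarith
  have hKB0 : 0 < KB := by linarith
  have hKH0 : 0 < KH := by linarith
  have hK0 : 0 < K := by positivity
  set η : ℝ := t * (a + b) + a * k + γ with hη
  set F : (Fin N → ℝ) → ℝ := fun x => |eval x A| ^ (t + k) * |eval x B| ^ t * eval x H with hF
  have hFm : Measurable F := by
    refine ((Measurable.pow_const ?_ _).mul (Measurable.pow_const ?_ _)).mul ?_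
    · exact (MvPolynomial.continuous_eval A).abs.measurable
    · exact (MvPolynomial.continuous_eval B).abs.measurable
    · exact (MvPolynomial.continuous_eval H).measurable
  set S : Set (Fin N → ℝ) := Ω ∩ {x | ‖x‖ ≤ r} with hS
  set sc : ℕ → ℝ := fun n => (1 / 2 : ℝ) ^ n with hsc
  have hsc0 : ∀ n, 0 < sc n := fun n => by positivity
  have hsc1 : ∀ n, sc n ≤ 1 := fun n => pow_le_one₀ (by norm_num) (by norm_num)
  set D : ℕ → Set (Fin N → ℝ) := fun n => {x | scl w (sc n)⁻¹ x ∈ E0 w} with hD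
  have hDm : ∀ n, MeasurableSet (D n) := fun n =>
    (continuous_scl w _).measurable (measurable_E0 w)
  have hDx : ∀ n, ∀ x ∈ D n, ∃ y ∈ E0 w, x = scl w (sc n) y := by
    intro n x hx
    refine ⟨scl w (sc n)⁻¹ x, hx, ?_⟩
    rw [scl_scl, mul_inv_cancel₀ (hsc0 n).ne', scl_one]
  -- the bound on the annuli
  have hbd : ∀ n, ∀ x ∈ D n ∩ S, ‖F x‖ ≤ K * sc n ^ η := by
    rintro n x ⟨hx, hxΩ, hxr⟩
    obtain ⟨y, ⟨hy1, i, hwi, hyi⟩, rfl⟩ := hDx n x hx
    set s := sc n with hs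
    have hs0 : 0 < s := hsc0 n
    have hs1 : s ≤ 1 := hsc1 n
    have hxr₀ : ‖scl w s y‖ ≤ r₀ := le_trans hxr (min_le_left _ _)
    have hne := hG.ne _ hxΩ
    rw [map_mul] at hne
    have hAne : 0 < |eval (scl w s y) A| := abs_pos.2 (left_ne_zero_of_mul hne)
    have hBne : 0 < |eval (scl w s y) B| := abs_pos.2 (right_ne_zero_of_mul hne)
    have uA : |eval (scl w s y) A| ≤ s ^ (a : ℝ) * KA := by
      rw [eval_scl w a A hG.ordA.1, abs_mul, abs_of_pos (pow_pos hs0 _), Real.rpow_natCast]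
      exact mul_le_mul_of_nonneg_left (hKA s hs0.le hs1 y hy1) (pow_pos hs0 _).le
    have uB : |eval (scl w s y) B| ≤ s ^ (b : ℝ) * KB := by
      rw [eval_scl w b B hG.ordB.1, abs_mul, abs_of_pos (pow_pos hs0 _), Real.rpow_natCast]
      exact mul_le_mul_of_nonneg_left (hKB s hs0.le hs1 y hy1) (pow_pos hs0 _).le
    have uH : |eval (scl w s y) H| ≤ s ^ (γ : ℝ) * KH := by
      rw [eval_scl w γ H hH.1, abs_mul, abs_of_pos (pow_pos hs0 _), Real.rpow_natCast]
      exact mul_le_mul_of_nonneg_left (hKH s hs0.le hs1 y hy1) (pow_pos hs0 _).le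
    have lB : s ^ (b : ℝ) * cB ≤ |eval (scl w s y) B| := by
      have h1 := hC _ hxΩ hxr₀ i
      have h2 : C * |eval (scl w s y) B| ^ w i ≤ C' * |eval (scl w s y) B| ^ w i :=
        mul_le_mul_of_nonneg_right (le_max_left _ _) (by positivity)
      have h3 : ((s / 2) ^ w i) ^ b ≤ |scl w s y i| ^ b := by
        refine pow_le_pow_left₀ (by positivity) ?_ _
        rw [scl, abs_mul, abs_of_pos (pow_pos hs0 _), div_pow]
        have h4 : s ^ w i / 2 ^ w i = s ^ w i * (1 / 2) ^ w i := by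
          rw [one_div, inv_pow]
          rfl
        rw [h4]
        exact mul_le_mul_of_nonneg_left hyi.le (pow_pos hs0 _).le
      have h5 : ((s / 2) ^ b / C') ^ w i ≤ |eval (scl w s y) B| ^ w i := by
        rw [div_pow, div_le_iff₀ (by positivity)]
        have h6 : ((s / 2) ^ b) ^ w i = ((s / 2) ^ w i) ^ b := by
          rw [← pow_mul, ← pow_mul, mul_comm]
        have h7 : C' ≤ C' ^ w i := by
          calc C' = C' ^ 1 := (pow_one _).symm
            _ ≤ C' ^ w i := pow_le_pow_right₀ hC'1 hwi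
        rw [h6]
        calc ((s / 2) ^ w i) ^ b ≤ C' * |eval (scl w s y) B| ^ w i := h3.trans (h1.trans h2)
          _ ≤ C' ^ w i * |eval (scl w s y) B| ^ w i :=
            mul_le_mul_of_nonneg_right h7 (by positivity)
          _ = |eval (scl w s y) B| ^ w i * C' ^ w i := mul_comm _ _
      have h8 : (s / 2) ^ b / C' ≤ |eval (scl w s y) B| :=
        (pow_le_pow_iff_left₀ (by positivity) hBne.le hwi.ne').1 h5
      refine le_trans (le_of_eq ?_) h8
      rw [hcB, Real.rpow_natCast, div_pow, div_pow, one_pow]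
      ring
    have pB : |eval (scl w s y) B| ^ t ≤ (s ^ (b : ℝ)) ^ t * (KB ^ t + cB ^ t) := by
      have hsb : 0 < s ^ (b : ℝ) := Real.rpow_pos_of_pos hs0 _
      rcases le_or_gt 0 t with h0 | h0
      · calc |eval (scl w s y) B| ^ t ≤ (s ^ (b : ℝ) * KB) ^ t :=
              Real.rpow_le_rpow hBne.le uB h0
          _ = (s ^ (b : ℝ)) ^ t * KB ^ t := Real.mul_rpow hsb.le hKB0.le
          _ ≤ (s ^ (b : ℝ)) ^ t * (KB ^ t + cB ^ t) := by
            refine mul_le_mul_of_nonneg_left ?_ (by positivity)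
            linarith [Real.rpow_pos_of_pos hcB0 t]
      · calc |eval (scl w s y) B| ^ t ≤ (s ^ (b : ℝ) * cB) ^ t :=
              Real.rpow_le_rpow_of_nonpos (by positivity) lB h0.le
          _ = (s ^ (b : ℝ)) ^ t * cB ^ t := Real.mul_rpow hsb.le hcB0.le
          _ ≤ (s ^ (b : ℝ)) ^ t * (KB ^ t + cB ^ t) := by
            refine mul_le_mul_of_nonneg_left ?_ (by positivity)
            linarith [Real.rpow_pos_of_pos hKB0 t]
    have pA : |eval (scl w s y) A| ^ (t + k) ≤ (s ^ (a : ℝ)) ^ (t + k) * KA ^ (t + k) := by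
      rw [← Real.mul_rpow (Real.rpow_nonneg hs0.le _) hKA0.le]
      exact Real.rpow_le_rpow hAne.le uA htk
    have hprod : ‖F (scl w s y)‖ = |eval (scl w s y) A| ^ (t + k) *
        |eval (scl w s y) B| ^ t * |eval (scl w s y) H| := by
      rw [hF]
      simp only [norm_mul, Real.norm_eq_abs]
      rw [abs_of_nonneg (Real.rpow_nonneg hAne.le _), abs_of_nonneg (Real.rpow_nonneg hBne.le _)]
    rw [hprod]
    have hfin : ((s ^ (a : ℝ)) ^ (t + k) * KA ^ (t + k)) *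
        ((s ^ (b : ℝ)) ^ t * (KB ^ t + cB ^ t)) * (s ^ (γ : ℝ) * KH) = K * s ^ η := by
      have h1 : η = (a : ℝ) * (t + k) + b * t + γ := by rw [hη]; ring
      rw [h1, Real.rpow_add hs0, Real.rpow_add hs0, Real.rpow_mul hs0.le, Real.rpow_mul hs0.le, hK]
      ring
    rw [← hfin]
    exact mul_le_mul (mul_le_mul pA pB (Real.rpow_nonneg hBne.le _) (by positivity)) uH
      (abs_nonneg _) (by positivity)
  -- the sum
  have hE0 : volume (E0 w) < ⊤ := by
    refine lt_of_le_of_lt (measure_mono (t := Metric.closedBall (0 : Fin N → ℝ) 1) ?_)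
      measure_closedBall_lt_top
    rintro y ⟨hy, _⟩
    rwa [mem_closedBall_zero_iff]
  refine ⟨hFm.aestronglyMeasurable, ?_⟩
  rw [hasFiniteIntegral_iff_norm]
  have hSm : MeasurableSet S :=
    hG.isOpen.measurableSet.inter (measurableSet_le measurable_norm measurable_const)
  have hZ : volume {x : Fin N → ℝ | x i0 = 0} = 0 := Measure.pi_hyperplane _ i0 0
  have hsub : S ⊆ {x : Fin N → ℝ | x i0 = 0} ∪ ⋃ n, D n ∩ S := by
    rintro x ⟨hx, hxr⟩
    by_cases h0 : x i0 = 0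
    · exact Or.inl h0
    · obtain ⟨n, hn⟩ := cover w x (le_trans hxr (min_le_right _ _)) i0 hi0 h0
      exact Or.inr (Set.mem_iUnion.2 ⟨n, hn, hx, hxr⟩)
  have hη' : 0 < η + ν := by linarith
  calc ∫⁻ x in S, ENNReal.ofReal ‖F x‖ ≤
      ∫⁻ x in {x : Fin N → ℝ | x i0 = 0} ∪ ⋃ n, D n ∩ S, ENNReal.ofReal ‖F x‖ :=
        lintegral_mono_set hsub
    _ ≤ (∫⁻ x in {x : Fin N → ℝ | x i0 = 0}, ENNReal.ofReal ‖F x‖) +
        ∫⁻ x in ⋃ n, D n ∩ S, ENNReal.ofReal ‖F x‖ := lintegral_union_le _ _ _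
    _ = ∫⁻ x in ⋃ n, D n ∩ S, ENNReal.ofReal ‖F x‖ := by
        rw [setLIntegral_measure_zero _ _ hZ, zero_add]
    _ ≤ ∑' n, ∫⁻ x in D n ∩ S, ENNReal.ofReal ‖F x‖ := lintegral_iUnion_le _ _
    _ ≤ ∑' n, (ENNReal.ofReal K * volume (E0 w)) *
          (ENNReal.ofReal ((1 / 2 : ℝ) ^ (η + ν))) ^ n := by
        refine ENNReal.tsum_le_tsum fun n => ?_
        calc ∫⁻ x in D n ∩ S, ENNReal.ofReal ‖F x‖ ≤
            ∫⁻ _ in D n ∩ S, ENNReal.ofReal (K * sc n ^ η) := by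
              refine setLIntegral_mono' ((hDm n).inter hSm) fun x hx => ?_
              exact ENNReal.ofReal_le_ofReal (hbd n x hx)
          _ = ENNReal.ofReal (K * sc n ^ η) * volume (D n ∩ S) := setLIntegral_const _ _
          _ ≤ ENNReal.ofReal (K * sc n ^ η) * volume (D n) := by
              gcongr
              exact Set.inter_subset_left
          _ = ENNReal.ofReal (K * sc n ^ η) * (ENNReal.ofReal (sc n ^ ν) * volume (E0 w)) := by
              rw [hD, measure_scl w (hsc0 n)]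
          _ = (ENNReal.ofReal K * volume (E0 w)) *
                (ENNReal.ofReal ((1 / 2 : ℝ) ^ (η + ν))) ^ n := by
              rw [← ENNReal.ofReal_pow (by positivity), ENNReal.ofReal_mul hK0.le]
              have h1 : ((1 / 2 : ℝ) ^ (η + ν)) ^ n = sc n ^ η * sc n ^ ν := by
                have h2 : sc n = (1 / 2 : ℝ) ^ n := rfl
                rw [← Real.rpow_natCast (sc n) ν, ← Real.rpow_add (hsc0 n), h2,
                  ← Real.rpow_natCast, ← Real.rpow_natCast, ← Real.rpow_mul (by norm_num),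
                  ← Real.rpow_mul (by norm_num), mul_comm]
              rw [h1, ENNReal.ofReal_mul (Real.rpow_nonneg (hsc0 n).le _)]
              ring
    _ < ⊤ := by
        rw [ENNReal.tsum_mul_left, ENNReal.tsum_geometric]
        refine ENNReal.mul_lt_top (ENNReal.mul_lt_top ENNReal.ofReal_lt_top hE0) ?_
        rw [ENNReal.inv_lt_top, tsub_pos_iff_lt, ENNReal.ofReal_lt_one]
        exact Real.rpow_lt_one (by norm_num) (by norm_num) hη'

end Pool.Agent.Helper16.WM.FinN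

namespace Pool.Agent.Helper16.WM

theorem pFin : S_fin := fun _ w a b A B Ω hG => FinN.main w a b A B Ω hG

end Pool.Agent.Helper16.WM
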