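import Pool.Agent.Helper16.WM.Scl

set_option autoImplicit false

/-! # The critical integral is infinite -/

namespace Pool.Agent.Helper16.WM.InfN

open MvPolynomial MeasureTheory Filter Topology Pool.Agent.Helper16.WM.SclN

variable {N : ℕ}

theorem main (w : Fin N → ℕ) (a b : ℕ) (A B : MvPolynomial (Fin N) ℝ) (Ω : Set (Fin N → ℝ))
    (hG : Geo w a b A B Ω) (r : ℝ) (hr : 0 < r) (H : MvPolynomial (Fin N) ℝ) (γ : ℕ)
    (hH : HasOrder w γ H) (hH0 : ∀ x ∈ Ω, ‖x‖ ≤ r → 0 ≤ eval x H) (k : ℕ) (t : ℝ)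
    (htk : 0 ≤ t + k) (ht : t * (a + b) + a * k + γ = -((∑ i, w i : ℕ) : ℝ)) :
    ∫⁻ x in Ω ∩ {x | ‖x‖ ≤ r},
      ENNReal.ofReal (|eval x A| ^ (t + k) * |eval x B| ^ t * eval x H) = ⊤ := by
  classical
  obtain ⟨i0, hi0⟩ := hG.wpos
  obtain ⟨V, t₁, hVo, hVn, ht₁, hVε, hVΩ⟩ := hG.sector r hr
  set ν : ℕ := ∑ i, w i with hν
  have hν1 : 1 ≤ ν := le_trans hi0 (Finset.single_le_sum (f := w) (fun i _ => Nat.zero_le _)
    (Finset.mem_univ i0))
  have htneg : t < 0 := by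
    by_contra h
    have h1 : (0 : ℝ) ≤ t * (a + b) := mul_nonneg (not_lt.1 h) (by positivity)
    have h2 : (0 : ℝ) ≤ a * k := by positivity
    have h3 : (0 : ℝ) ≤ γ := Nat.cast_nonneg _
    have h4 : (1 : ℝ) ≤ ν := by exact_mod_cast hν1
    linarith
  -- a point where the initial parts do not vanish
  obtain ⟨y₀, hy₀, hy₀Q⟩ := exists_ne_zero (Q := Ini w a A * Ini w γ H * X i0)
    (mul_ne_zero (mul_ne_zero (ini_ne_zero hG.ordA) (ini_ne_zero hH)) (X_ne_zero i0)) hVo hVn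
  rw [map_mul, map_mul, eval_ini hG.ordA.1, eval_ini hH.1, eval_X] at hy₀Q
  have hA0 : FF w a A 0 y₀ ≠ 0 := fun h => hy₀Q (by rw [h]; ring)
  have hH00 : FF w γ H 0 y₀ ≠ 0 := fun h => hy₀Q (by rw [h]; ring)
  have hX0 : y₀ i0 ≠ 0 := fun h => hy₀Q (by rw [h]; ring)
  set cA : ℝ := |FF w a A 0 y₀| / 2 with hcA
  set cH : ℝ := |FF w γ H 0 y₀| / 2 with hcH
  set cB : ℝ := |FF w b B 0 y₀| + 1 with hcB
  set cX : ℝ := |y₀ i0| with hcX
  have hcA0 : 0 < cA := by have := abs_pos.2 hA0; positivity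
  have hcH0 : 0 < cH := by have := abs_pos.2 hH00; positivity
  have hcB0 : 0 < cB := by positivity
  have hcX0 : 0 < cX := abs_pos.2 hX0
  have hev : ∀ᶠ p : ℝ × (Fin N → ℝ) in 𝓝 (0, y₀), cA < |FF w a A p.1 p.2| ∧
      cH < |FF w γ H p.1 p.2| ∧ |FF w b B p.1 p.2| < cB ∧ p.2 ∈ V ∧
      |p.2 i0 - y₀ i0| < cX / 4 ∧ ‖p.2‖ < ‖y₀‖ + 1 := by
    have e1 : ∀ᶠ p : ℝ × (Fin N → ℝ) in 𝓝 (0, y₀), cA < |FF w a A p.1 p.2| := by
      refine ((continuous_FF w a A).abs.continuousAt).eventually_const_lt ?_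
      have := abs_pos.2 hA0
      change |FF w a A 0 y₀| / 2 < |FF w a A 0 y₀|
      linarith
    have e2 : ∀ᶠ p : ℝ × (Fin N → ℝ) in 𝓝 (0, y₀), cH < |FF w γ H p.1 p.2| := by
      refine ((continuous_FF w γ H).abs.continuousAt).eventually_const_lt ?_
      have := abs_pos.2 hH00
      change |FF w γ H 0 y₀| / 2 < |FF w γ H 0 y₀|
      linarith
    have e3 : ∀ᶠ p : ℝ × (Fin N → ℝ) in 𝓝 (0, y₀), |FF w b B p.1 p.2| < cB := by
      refine ((continuous_FF w b B).abs.continuousAt).eventually_lt_const ?_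
      change |FF w b B 0 y₀| < |FF w b B 0 y₀| + 1
      linarith
    have e4 : ∀ᶠ p : ℝ × (Fin N → ℝ) in 𝓝 (0, y₀), p.2 ∈ V :=
      (continuous_snd.tendsto (0, y₀)).eventually (hVo.mem_nhds hy₀)
    have e5 : ∀ᶠ p : ℝ × (Fin N → ℝ) in 𝓝 (0, y₀), |p.2 i0 - y₀ i0| < cX / 4 := by
      have h1 : Continuous fun p : ℝ × (Fin N → ℝ) => |p.2 i0 - y₀ i0| :=
        (((continuous_apply i0).comp continuous_snd).sub continuous_const).abs
      refine h1.continuousAt.eventually_lt_const ?_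
      change |y₀ i0 - y₀ i0| < cX / 4
      rw [sub_self, abs_zero]
      positivity
    have e6 : ∀ᶠ p : ℝ × (Fin N → ℝ) in 𝓝 (0, y₀), ‖p.2‖ < ‖y₀‖ + 1 := by
      have h1 : Continuous fun p : ℝ × (Fin N → ℝ) => ‖p.2‖ := continuous_snd.norm
      refine h1.continuousAt.eventually_lt_const ?_
      change ‖y₀‖ < ‖y₀‖ + 1
      linarith
    filter_upwards [e1, e2, e3, e4, e5, e6] with p h1 h2 h3 h4 h5 h6
    exact ⟨h1, h2, h3, h4, h5, h6⟩
  obtain ⟨δ, hδ, hδ'⟩ := Metric.eventually_nhds_iff.1 hev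
  set V' : Set (Fin N → ℝ) := Metric.ball y₀ δ with hV'
  have hkey : ∀ s : ℝ, 0 < s → s < δ → ∀ y ∈ V', cA < |FF w a A s y| ∧
      cH < |FF w γ H s y| ∧ |FF w b B s y| < cB ∧ y ∈ V ∧
      |y i0 - y₀ i0| < cX / 4 ∧ ‖y‖ < ‖y₀‖ + 1 := by
    intro s hs0 hs y hy
    refine hδ' (y := (s, y)) ?_
    rw [Prod.dist_eq, max_lt_iff]
    constructor
    · change dist s 0 < δ
      rw [Real.dist_eq, sub_zero, abs_of_pos hs0]
      exact hs
    · exact hy
  -- the scales
  set s₀ : ℝ := min (min δ t₁) (min 1 (r / (‖y₀‖ + 1))) with hs₀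
  have hy1 : 0 < ‖y₀‖ + 1 := by positivity
  have hs₀pos : 0 < s₀ := lt_min (lt_min hδ ht₁) (lt_min one_pos (div_pos hr hy1))
  obtain ⟨n₀, hn₀⟩ := exists_pow_lt_of_lt_one hs₀pos (by norm_num : (1 / 2 : ℝ) < 1)
  set sc : ℕ → ℝ := fun n => (1 / 2 : ℝ) ^ (n + n₀) with hsc
  have hsc0 : ∀ n, 0 < sc n := fun n => by positivity
  have hsc1 : ∀ n, sc n < s₀ := fun n => by
    refine lt_of_le_of_lt ?_ hn₀
    exact pow_le_pow_of_le_one (by norm_num) (by norm_num) (by omega)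
  have hscδ : ∀ n, sc n < δ := fun n =>
    (hsc1 n).trans_le ((min_le_left _ _).trans (min_le_left _ _))
  have hsct : ∀ n, sc n < t₁ := fun n =>
    (hsc1 n).trans_le ((min_le_left _ _).trans (min_le_right _ _))
  have hsc1' : ∀ n, sc n < 1 := fun n =>
    (hsc1 n).trans_le ((min_le_right _ _).trans (min_le_left _ _))
  have hscr : ∀ n, sc n * (‖y₀‖ + 1) < r := fun n => by
    have h1 := (hsc1 n).trans_le ((min_le_right _ _).trans (min_le_right _ _))
    rwa [lt_div_iff₀ hy1] at h1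
  set D : ℕ → Set (Fin N → ℝ) := fun n => {x | scl w (sc n)⁻¹ x ∈ V'} with hD
  have hDo : ∀ n, IsOpen (D n) := fun n => Metric.isOpen_ball.preimage (continuous_scl w _)
  have hDx : ∀ n, ∀ x ∈ D n, ∃ y ∈ V', x = scl w (sc n) y := by
    intro n x hx
    refine ⟨scl w (sc n)⁻¹ x, hx, ?_⟩
    rw [scl_scl, mul_inv_cancel₀ (hsc0 n).ne', scl_one]
  have hDsub : ∀ n, D n ⊆ Ω ∩ {x | ‖x‖ ≤ r} := by
    intro n x hx
    obtain ⟨y, hy, rfl⟩ := hDx n x hx
    obtain ⟨-, -, -, hyV, -, hyn⟩ := hkey (sc n) (hsc0 n) (hscδ n) y hy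
    refine ⟨hVΩ _ (hsc0 n) (hsct n) y hyV, ?_⟩
    change ‖scl w (sc n) y‖ ≤ r
    rw [pi_norm_le_iff_of_nonneg hr.le]
    intro i
    rw [scl, Real.norm_eq_abs, abs_mul, abs_of_pos (pow_pos (hsc0 n) _)]
    rcases Nat.eq_zero_or_pos (w i) with h0 | h0
    · rw [h0, pow_zero, one_mul]
      exact (hVε y hyV i h0).le
    · have h1 : sc n ^ w i ≤ sc n := by
        calc sc n ^ w i ≤ sc n ^ 1 :=
              pow_le_pow_of_le_one (hsc0 n).le (hsc1' n).le h0
          _ = sc n := pow_one _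
      have h2 : |y i| ≤ ‖y₀‖ + 1 := (norm_le_pi_norm y i).trans hyn.le
      calc sc n ^ w i * |y i| ≤ sc n * (‖y₀‖ + 1) :=
            mul_le_mul h1 h2 (abs_nonneg _) (hsc0 n).le
        _ ≤ r := (hscr n).le
  have hDdisj : Pairwise (Function.onFun Disjoint D) := by
    have h3 : ∀ i j : ℕ, i < j → Disjoint (D i) (D j) := by
      intro m n hmn
      rw [Set.disjoint_left]
      intro x hx hx'
      obtain ⟨y, hy, hxy⟩ := hDx m x hx
      obtain ⟨y', hy', hxy'⟩ := hDx n x hx'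
      obtain ⟨-, -, -, -, h5, -⟩ := hkey (sc m) (hsc0 m) (hscδ m) y hy
      obtain ⟨-, -, -, -, h6, -⟩ := hkey (sc n) (hsc0 n) (hscδ n) y' hy'
      have h7 : sc m ^ w i0 * |y i0| = sc n ^ w i0 * |y' i0| := by
        have h8 := congrFun (hxy.symm.trans hxy') i0
        rw [scl, scl] at h8
        have h9 := congrArg abs h8
        rwa [abs_mul, abs_mul, abs_of_pos (pow_pos (hsc0 m) _),
          abs_of_pos (pow_pos (hsc0 n) _)] at h9
      have h8 : |y i0| ≥ 3 / 4 * cX := by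
        have := abs_sub_abs_le_abs_sub (y₀ i0) (y i0)
        rw [abs_sub_comm] at this
        rw [← hcX] at this
        linarith
      have h9 : |y' i0| ≤ 5 / 4 * cX := by
        have := abs_sub_abs_le_abs_sub (y' i0) (y₀ i0)
        rw [← hcX] at this
        linarith
      have h10 : sc n ^ w i0 ≤ sc m ^ w i0 * (1 / 2) := by
        have h11 : sc n ≤ sc m * (1 / 2) := by
          rw [hsc]
          change (1 / 2 : ℝ) ^ (n + n₀) ≤ (1 / 2 : ℝ) ^ (m + n₀) * (1 / 2)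
          rw [← pow_succ]
          exact pow_le_pow_of_le_one (by norm_num) (by norm_num) (by omega)
        calc sc n ^ w i0 ≤ (sc m * (1 / 2)) ^ w i0 := pow_le_pow_left₀ (hsc0 n).le h11 _
          _ = sc m ^ w i0 * (1 / 2) ^ w i0 := mul_pow _ _ _
          _ ≤ sc m ^ w i0 * (1 / 2) ^ 1 := by
            refine mul_le_mul_of_nonneg_left ?_ (pow_pos (hsc0 m) _).le
            exact pow_le_pow_of_le_one (by norm_num) (by norm_num) hi0
          _ = sc m ^ w i0 * (1 / 2) := by rw [pow_one]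
      have h11 := pow_pos (hsc0 m) (w i0)
      have h12 : sc n ^ w i0 * |y' i0| ≤ sc m ^ w i0 * (1 / 2) * (5 / 4 * cX) :=
        mul_le_mul h10 h9 (abs_nonneg _) (by positivity)
      have h13 : sc m ^ w i0 * (3 / 4 * cX) ≤ sc m ^ w i0 * |y i0| :=
        mul_le_mul_of_nonneg_left h8 h11.le
      have h14 : 0 < sc m ^ w i0 * cX := mul_pos h11 hcX0
      nlinarith
    intro i j hij
    rcases lt_or_gt_of_ne hij with h | h
    · exact h3 i j h
    · exact (h3 j i h).symm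
  -- the lower bound
  set c : ℝ := cA ^ (t + k) * cB ^ t * cH with hc
  have hc0 : 0 < c := by positivity
  have hlow : ∀ n, ENNReal.ofReal c * volume V' ≤ ∫⁻ x in D n,
      ENNReal.ofReal (|eval x A| ^ (t + k) * |eval x B| ^ t * eval x H) := by
    intro n
    have hs := hsc0 n
    have h1 : ∀ x ∈ D n, c * sc n ^ (-((ν : ℕ) : ℝ)) ≤
        |eval x A| ^ (t + k) * |eval x B| ^ t * eval x H := by
      intro x hx
      have hxΩ := hDsub n hx
      obtain ⟨y, hy, rfl⟩ := hDx n x hx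
      obtain ⟨hA1, hH1, hB1, -, -, -⟩ := hkey (sc n) (hsc0 n) (hscδ n) y hy
      have hne := hG.ne _ hxΩ.1
      rw [map_mul] at hne
      have hBne : 0 < |eval (scl w (sc n) y) B| := abs_pos.2 (right_ne_zero_of_mul hne)
      have hH2 := hH0 _ hxΩ.1 hxΩ.2
      have eA : |eval (scl w (sc n) y) A| = sc n ^ (a : ℝ) * |FF w a A (sc n) y| := by
        rw [eval_scl w a A hG.ordA.1, abs_mul, abs_of_pos (pow_pos hs _), Real.rpow_natCast]
      have eB : |eval (scl w (sc n) y) B| = sc n ^ (b : ℝ) * |FF w b B (sc n) y| := by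
        rw [eval_scl w b B hG.ordB.1, abs_mul, abs_of_pos (pow_pos hs _), Real.rpow_natCast]
      have eH : eval (scl w (sc n) y) H = sc n ^ (γ : ℝ) * |FF w γ H (sc n) y| := by
        rw [← abs_of_nonneg hH2, eval_scl w γ H hH.1, abs_mul, abs_of_pos (pow_pos hs _),
          Real.rpow_natCast]
      have iA : (sc n ^ (a : ℝ) * cA) ^ (t + k) ≤ |eval (scl w (sc n) y) A| ^ (t + k) := by
        refine Real.rpow_le_rpow (by positivity) ?_ htk
        rw [eA]
        exact mul_le_mul_of_nonneg_left hA1.le (Real.rpow_nonneg hs.le _)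
      have iB : (sc n ^ (b : ℝ) * cB) ^ t ≤ |eval (scl w (sc n) y) B| ^ t := by
        refine Real.rpow_le_rpow_of_nonpos hBne ?_ htneg.le
        rw [eB]
        exact mul_le_mul_of_nonneg_left hB1.le (Real.rpow_nonneg hs.le _)
      have iH : sc n ^ (γ : ℝ) * cH ≤ eval (scl w (sc n) y) H := by
        rw [eH]
        exact mul_le_mul_of_nonneg_left hH1.le (Real.rpow_nonneg hs.le _)
      have e1 : c * sc n ^ (-((ν : ℕ) : ℝ)) =
          (sc n ^ (a : ℝ) * cA) ^ (t + k) * (sc n ^ (b : ℝ) * cB) ^ t *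
            (sc n ^ (γ : ℝ) * cH) := by
        rw [Real.mul_rpow (Real.rpow_nonneg hs.le _) hcA0.le,
          Real.mul_rpow (Real.rpow_nonneg hs.le _) hcB0.le, ← Real.rpow_mul hs.le,
          ← Real.rpow_mul hs.le, ← ht, hc]
        have h2 : t * (a + b) + a * k + γ = (a : ℝ) * (t + k) + b * t + γ := by ring
        rw [h2, Real.rpow_add hs, Real.rpow_add hs]
        ring
      rw [e1]
      exact mul_le_mul (mul_le_mul iA iB (by positivity) (Real.rpow_nonneg (abs_nonneg _) _)) iH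
        (by positivity) (mul_nonneg (Real.rpow_nonneg (abs_nonneg _) _)
          (Real.rpow_nonneg (abs_nonneg _) _))
    calc ENNReal.ofReal c * volume V' =
        ∫⁻ _ in D n, ENNReal.ofReal (c * sc n ^ (-((ν : ℕ) : ℝ))) := by
          rw [setLIntegral_const, hD, measure_scl w hs, ← mul_assoc, ← ENNReal.ofReal_mul
            (by positivity), Real.rpow_neg hs.le, Real.rpow_natCast, ← hν, mul_assoc,
            inv_mul_cancel₀ (pow_pos hs _).ne', mul_one]
      _ ≤ _ := by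
          refine setLIntegral_mono' (hDo n).measurableSet fun x hx => ?_
          exact ENNReal.ofReal_le_ofReal (h1 x hx)
  have hUsub : (⋃ n, D n) ⊆ Ω ∩ {x | ‖x‖ ≤ r} := Set.iUnion_subset hDsub
  rw [eq_top_iff]
  refine le_trans ?_ (lintegral_mono_set hUsub)
  rw [lintegral_iUnion (fun n => (hDo n).measurableSet) hDdisj]
  have hne : ENNReal.ofReal c * volume V' ≠ 0 := by
    refine mul_ne_zero ?_ ?_
    · rw [Ne, ENNReal.ofReal_eq_zero, not_le]
      exact hc0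
    · exact (Metric.isOpen_ball.measure_pos volume ⟨y₀, Metric.mem_ball_self hδ⟩).ne'
  calc (⊤ : ENNReal) = ∑' _ : ℕ, ENNReal.ofReal c * volume V' :=
        (ENNReal.tsum_const_eq_top_of_ne_zero hne).symm
    _ ≤ _ := ENNReal.tsum_le_tsum hlow

end Pool.Agent.Helper16.WM.InfN

namespace Pool.Agent.Helper16.WM

theorem pInf : S_inf := fun _ w a b A B Ω hG r hr H γ hH hH0 k t htk ht =>
  InfN.main w a b A B Ω hG r hr H γ hH hH0 k t htk ht

end Pool.Agent.Helper16.WM
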