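import Mathlib

set_option autoImplicit false

/-! # Sums of the shape of topological zeta functions and their poles -/

namespace Pool.Agent.Helper16.WM

open Polynomial

/-- The sum `∑_I χ_I ∏_{i ∈ I} 1 / (N_i s + ν_i)` over the sets `I` of divisors `E_i` with the
numerical data `Nν i = (N_i, ν_i)`: the topological zeta function, if `χ_I` is the Euler
characteristic of `E_I°` (for a resolution with abelian quotient singularities, for example by
weighted blow-ups, the `χ_I` are replaced by multiples of it, or by polynomials in `s`). -/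
noncomputable def topZ {S : Type} [Fintype S] (Nν : S → ℕ × ℕ) (χ : Finset S → ℂ[X]) :
    RatFunc ℂ :=
  ∑ I : Finset S, algebraMap ℂ[X] (RatFunc ℂ) (χ I) *
    ∏ i ∈ I, (algebraMap ℂ[X] (RatFunc ℂ) (C ((Nν i).1 : ℂ) * X + C ((Nν i).2 : ℂ)))⁻¹

theorem denom_sum {ι : Type} (s : Finset ι) (F : ι → RatFunc ℂ) (s₀ : ℂ)
    (h : ∀ i ∈ s, (F i).denom.eval s₀ ≠ 0) : (∑ i ∈ s, F i).denom.eval s₀ ≠ 0 := by
  classical
  induction s using Finset.induction_on with
  | empty => simp
  | insert j s hj ih =>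
    rw [Finset.sum_insert hj]
    obtain ⟨q, hq⟩ := RatFunc.denom_add_dvd (F j) (∑ i ∈ s, F i)
    intro h0
    have h1 := congrArg (Polynomial.eval s₀) hq
    rw [eval_mul, eval_mul, h0, zero_mul] at h1
    exact mul_ne_zero (h j (Finset.mem_insert_self _ _))
      (ih fun i hi => h i (Finset.mem_insert_of_mem hi)) h1

theorem denom_mul (x y : RatFunc ℂ) (s₀ : ℂ) (hx : x.denom.eval s₀ ≠ 0)
    (hy : y.denom.eval s₀ ≠ 0) : (x * y).denom.eval s₀ ≠ 0 := by
  obtain ⟨q, hq⟩ := RatFunc.denom_mul_dvd x y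
  intro h0
  have h1 := congrArg (Polynomial.eval s₀) hq
  rw [eval_mul, eval_mul, h0, zero_mul] at h1
  exact mul_ne_zero hx hy h1

theorem denom_prod {ι : Type} (s : Finset ι) (F : ι → RatFunc ℂ) (s₀ : ℂ)
    (h : ∀ i ∈ s, (F i).denom.eval s₀ ≠ 0) : (∏ i ∈ s, F i).denom.eval s₀ ≠ 0 := by
  classical
  induction s using Finset.induction_on with
  | empty => simp
  | insert j s hj ih =>
    rw [Finset.prod_insert hj]
    exact denom_mul _ _ s₀ (h j (Finset.mem_insert_self _ _))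
      (ih fun i hi => h i (Finset.mem_insert_of_mem hi))

/-- a pole is one of the numbers `-ν_i / N_i`, of a divisor in a set `I` with `χ_I ≠ 0` -/
theorem pole_topZ {S : Type} [Fintype S] (Nν : S → ℕ × ℕ) (χ : Finset S → ℂ[X]) (s₀ : ℂ)
    (h : (topZ Nν χ).denom.eval s₀ = 0) :
    ∃ (I : Finset S) (i : S), χ I ≠ 0 ∧ i ∈ I ∧ 1 ≤ (Nν i).1 ∧
      s₀ = -((Nν i).2 : ℂ) / (Nν i).1 := by
  classical
  by_contra hcon
  push Not at hcon
  refine denom_sum _ _ s₀ (fun I _ => ?_) h
  by_cases hI : χ I = 0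
  · rw [hI, map_zero, zero_mul]
    simp
  refine denom_mul _ _ s₀ (by rw [RatFunc.denom_algebraMap]; simp) (denom_prod _ _ s₀ fun i hi => ?_)
  have h1 := hcon I i hI hi
  set q : ℂ[X] := C ((Nν i).1 : ℂ) * X + C ((Nν i).2 : ℂ) with hq
  have h2 : (algebraMap ℂ[X] (RatFunc ℂ) q)⁻¹ =
      algebraMap ℂ[X] (RatFunc ℂ) 1 / algebraMap ℂ[X] (RatFunc ℂ) q := by
    rw [map_one, one_div]
  rw [h2]
  obtain ⟨q', hq'⟩ := RatFunc.denom_div_dvd 1 q
  intro h0
  have h3 := congrArg (Polynomial.eval s₀) hq'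
  rw [eval_mul, h0, zero_mul, hq, eval_add, eval_mul, eval_C, eval_X, eval_C] at h3
  rcases Nat.eq_zero_or_pos (Nν i).1 with h4 | h4
  · rw [h4, Nat.cast_zero, zero_mul, zero_add, Nat.cast_eq_zero] at h3
    have h5 : q = 0 := by rw [hq, h4, h3]; simp
    rw [h5, map_zero, div_zero, RatFunc.denom_zero, eval_one] at h0
    exact one_ne_zero h0
  · have h6 : ((Nν i).1 : ℂ) ≠ 0 := by
      exact_mod_cast h4.ne'
    apply h1 h4
    field_simp
    linear_combination h3

end Pool.Agent.Helper16.WM
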