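import Pool.Agent.Helper16.WM.Cone
import Pool.Agent.Helper16.WL.Asm
import Pool.Agent.Helper16.WL.Unit
import Pool.Agent.Helper16.WM.Abs
import Pool.Agent.Helper16.WM.Fin
import Pool.Agent.Helper16.WM.Inf
import Pool.Agent.Helper16.WM.Coord
import Pool.Agent.Helper16.WM.Top
import Pool.Agent.Helper48.IF.Main

set_option autoImplicit false

/-! # The data of divisors with a real chamber -/

namespace Pool.Agent.Helper16.WM

open MvPolynomial Pool.Agent.H628R4.TP Pool.Agent.Helper48.IF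

/-- The numbers `(m, ν)` come from a real chamber: in some polynomial coordinates (`Φ`), and for some
field `k` with embeddings `ι : k → ℂ`, `τ : k → ℝ`, `f = v (A B)^ι` with a complex polynomial `v`, `v(0) ≠ 0`
(for example `v = 1`), the real polynomial `(A B)^τ` has a chamber `Ω` at the origin with the weights `w` and the orders `a`, `c > 0` of `A`, `B` (`Geo`), and
`ν / m ≡ (∑ w_i + e) / (a + c)` modulo `ℤ`, where `e` is the weighted order of a real polynomial which is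
`≥ 0` on `Ω` near the origin (for example `e = 0`, `H = 1`). -/
def RealDatum {N : ℕ} (f : MvPolynomial (Fin N) ℂ) (m ν : ℕ) : Prop :=
  ∃ (k : Type) (_ : Field k) (ι : k →+* ℂ) (τ : k →+* ℝ)
    (Φ : MvPolynomial (Fin N) ℂ ≃ₐ[ℂ] MvPolynomial (Fin N) ℂ) (v : MvPolynomial (Fin N) ℂ)
    (A B : MvPolynomial (Fin N) k) (w : Fin N → ℕ) (a c : ℕ) (Ω : Set (Fin N → ℝ))
    (H : MvPolynomial (Fin N) ℝ) (e : ℕ) (r : ℝ) (z : ℤ),
    eval 0 v ≠ 0 ∧ Φ f = v * map ι (A * B) ∧ 0 < c ∧ Geo w a c (map τ A) (map τ B) Ω ∧ HasOrder w e H ∧ 0 < r ∧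
    (∀ x ∈ Ω, ‖x‖ ≤ r → 0 ≤ eval x H) ∧
    (ν : ℚ) / m = ((∑ i, w i + e : ℕ) : ℚ) / ((a + c : ℕ) : ℚ) + z

/-- `(m, ν)` are the data of the strict transform of a prime factor of multiplicity `m`, or come from
a non-exact weighted initial form of `f` along a smooth centre (`GlobalDatum`), or
`exp(2 π i ν / m)` is an `n`-th root of unity, `n` the multiplicity of some prime factor of `f`, or
`(m, ν)` come from a real chamber. -/
def WeakDatum {N : ℕ} (f : MvPolynomial (Fin N) ℂ) (m ν : ℕ) : Prop :=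
  GlobalDatum f m ν ∨
  (∃ (p q : MvPolynomial (Fin N) ℂ) (n : ℕ), 1 ≤ n ∧ Prime p ∧ f = p ^ n * q ∧ ¬ p ∣ q ∧
    m ∣ n * ν) ∨
  RealDatum f m ν

theorem RealDatum.root {N : ℕ} {f : MvPolynomial (Fin N) ℂ} {m ν : ℕ} (h : RealDatum f m ν)
    {b : Polynomial ℂ} (hb : IsBFunction f b) : ∃ z : ℤ, b.eval (-(ν : ℂ) / m + z) = 0 := by
  obtain ⟨k, _, ι, τ, Φ, v, A, B, w, a, c, Ω, H, e, r, z, hv, hf, hc, hG, hH, hr, hH0, hq⟩ := h
  have h0 : IsBFunction (v * map ι (A * B)) b := by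
    rw [← hf]
    exact CoordN.isB_equiv Φ f b hb
  have hv0 : v ≠ 0 := by
    rintro rfl
    exact hv (map_zero _)
  obtain ⟨n, hn⟩ := Pool.Agent.Helper16.WL.fam_unit (v := v) (g := map ι (A * B)) 1 hv0 b (by
    have h1 := Pool.Agent.Helper48.RC.nf_of_isBFunction _ b h0
    rw [Pool.Agent.Helper48.RC.NF] at h1
    simpa only [one_mul] using h1)
  obtain ⟨z', hz'⟩ := Pool.Agent.Helper16.WL.real_root_at pFin pInf ι τ A B w a c hc Ω hG H e hH r hr
    hH0 b ⟨1 * v ^ n, by rw [one_mul, map_pow]; exact pow_ne_zero _ hv, hn⟩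
  refine ⟨z' + z, ?_⟩
  rw [← hz']
  congr 1
  have h1 : (ν : ℂ) / m = ((∑ i, w i + e : ℕ) : ℂ) / ((a + c : ℕ) : ℂ) + z := by
    have := congrArg (fun q : ℚ => (q : ℂ)) hq
    push_cast at this ⊢
    exact this
  rw [neg_div, h1, neg_div]
  push_cast
  ring

theorem WeakDatum.root {N : ℕ} {f : MvPolynomial (Fin N) ℂ} {m ν : ℕ} (hm : 1 ≤ m)
    (h : WeakDatum f m ν) {b : Polynomial ℂ} (hb : IsBFunction f b) :
    ∃ z : ℤ, b.eval (-(ν : ℂ) / m + z) = 0 := by
  rcases h with h | ⟨p, q, n, hn, hp, hf, hpq, hd⟩ | h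
  · exact ⟨0, by rw [Int.cast_zero, add_zero]; exact global_root f b hb m ν hm h⟩
  · -- `ν / m = j / n + z`
    obtain ⟨u, hu⟩ := hd
    have hn0 : (0 : ℤ) < n := by exact_mod_cast hn
    set j : ℕ := (((u : ℤ) - 1) % n).toNat + 1 with hj
    have h0 : 0 ≤ ((u : ℤ) - 1) % n := Int.emod_nonneg _ hn0.ne'
    have h1 : ((u : ℤ) - 1) % n < n := Int.emod_lt_of_pos _ hn0
    have hjn : j ≤ n := by omega
    have h2 : ((j : ℕ) : ℤ) = ((u : ℤ) - 1) % n + 1 := by
      rw [hj]
      push_cast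
      rw [Int.toNat_of_nonneg h0]
    have h3 : (u : ℤ) = j + n * (((u : ℤ) - 1) / n) := by
      rw [h2]
      have := Int.emod_add_mul_ediv ((u : ℤ) - 1) n
      linarith
    refine ⟨((u : ℤ) - 1) / n, ?_⟩
    have h4 := Pool.Agent.K3h38.SM.root_of_mult f p q n j (by omega) hjn hf hp hpq b hb
    rw [← h4]
    congr 1
    have hmC : (m : ℂ) ≠ 0 := by
      have : m ≠ 0 := by omega
      exact_mod_cast this
    have hnC : (n : ℂ) ≠ 0 := by
      have : n ≠ 0 := by omega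
      exact_mod_cast this
    have h5 : (n : ℂ) * ν = m * u := by exact_mod_cast hu
    have h6 : (u : ℂ) = j + n * (((((u : ℤ) - 1) / n : ℤ)) : ℂ) := by
      exact_mod_cast congrArg (fun x : ℤ => (x : ℂ)) h3
    have h7 : (ν : ℂ) / m = (u : ℂ) / n := by
      rw [div_eq_div_iff hmC hnC]
      linear_combination h5
    rw [neg_div, h7, neg_div]
    nth_rewrite 1 [h6]
    field_simp
    ring
  · exact h.root hb

/-- forms with a chamber: the data of the blow-up of the origin, and all numbers `(m, ν)` such that `m`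
divides the degree (up to parity, if the chamber is not contained in a half space) -/
theorem realDatum_of_chamber {k : Type} [Field k] (ι : k →+* ℂ) (τ : k →+* ℝ) {N a c : ℕ}
    (hc : 0 < c) (A B : MvPolynomial (Fin N) k) (hA : A.IsHomogeneous a) (hB : B.IsHomogeneous c)
    (Δ : Set (Fin N → ℝ)) (h : Chamber (map τ A) (map τ B) Δ) (m ν : ℕ) (hm : 1 ≤ m)
    (hmd : m ∣ a + c)
    (hpar : Odd (a + c) ∨ Even ((a + c) / m * ν + N) ∨
      ∃ l : MvPolynomial (Fin N) ℝ, l.IsHomogeneous 1 ∧ l ≠ 0 ∧ ∀ x ∈ Δ, 0 ≤ eval x l) :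
    RealDatum (map ι (A * B)) m ν := by
  have hG := geo_of_chamber hc (hA.map τ) (hB.map τ) h
  obtain ⟨q, hq⟩ := hmd
  set d : ℕ := a + c with hd
  have hd1 : 1 ≤ d := by omega
  have hdm : d / m = q := by
    rw [hq]
    exact Nat.mul_div_cancel_left q (by omega)
  have key : ∀ (z e : ℕ) (H : MvPolynomial (Fin N) ℝ), H.IsHomogeneous e → H ≠ 0 →
      (∀ x ∈ Δ, 0 ≤ eval x H) → q * ν + z * d = N + e → RealDatum (map ι (A * B)) m ν := by
    intro z e H hH hH0 hpos hz
    refine ⟨k, inferInstance, ι, τ, AlgEquiv.refl, 1, A, B, fun _ => 1, a, c, Δ, H, e, 1, -(z : ℤ),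
      by rw [map_one]; exact one_ne_zero, (one_mul _).symm, hc, hG, hasOrder_hom hH hH0, one_pos,
      fun x hx _ => hpos x hx, ?_⟩
    have hmQ : (m : ℚ) ≠ 0 := by
      have : m ≠ 0 := by omega
      exact_mod_cast this
    have hdQ : (d : ℚ) ≠ 0 := by
      have : d ≠ 0 := by omega
      exact_mod_cast this
    have h1 : (d : ℚ) = m * q := by exact_mod_cast hq
    have h2 : (q : ℚ) * ν + z * d = N + e := by exact_mod_cast hz
    have h3 : ((∑ _ : Fin N, 1 + e : ℕ) : ℚ) = N + e := by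
      rw [Finset.sum_const, Finset.card_univ, Fintype.card_fin, smul_eq_mul, mul_one]
      push_cast
      ring
    rw [h3]
    have h4 : (q : ℚ) ≠ 0 := by
      intro h0
      rw [h0, mul_zero] at h1
      exact hdQ h1
    rw [div_add' _ _ _ hdQ, div_eq_div_iff hmQ hdQ]
    push_cast
    rw [← h2, h1]
    ring
  have hN1 : N ≤ 2 * N * d := by nlinarith
  have hN2 : N ≤ (2 * N + 1) * d := by nlinarith
  obtain ⟨i0, -⟩ := hG.wpos
  have heven : ∀ e : ℕ, Even e → ∀ x : Fin N → ℝ,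
      0 ≤ eval x ((X i0 : MvPolynomial (Fin N) ℝ) ^ e) := by
    intro e he x
    rw [map_pow, eval_X]
    exact he.pow_nonneg _
  rcases hpar with hodd | hev | ⟨l, hl, hl0, hlpos⟩
  · rcases Nat.even_or_odd (q * ν + 2 * N * d - N) with he | he
    · exact key (2 * N) _ (X i0 ^ (q * ν + 2 * N * d - N)) (isHomogeneous_X_pow i0 _)
        (pow_ne_zero _ (X_ne_zero i0)) (fun x _ => heven _ he x) (by omega)
    · refine key (2 * N + 1) _ (X i0 ^ (q * ν + (2 * N + 1) * d - N)) (isHomogeneous_X_pow i0 _)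
        (pow_ne_zero _ (X_ne_zero i0)) (fun x _ => heven _ ?_ x) (by omega)
      have h1 : q * ν + (2 * N + 1) * d - N = (q * ν + 2 * N * d - N) + d := by
        have : (2 * N + 1) * d = 2 * N * d + d := by ring
        omega
      rw [h1]
      exact he.add_odd hodd
  · rw [hdm] at hev
    have he : Even (q * ν + 2 * N * d - N) := by
      have h1 : q * ν + 2 * N * d - N + 2 * N = (q * ν + N) + 2 * (N * d) := by
        have : 2 * N * d = 2 * (N * d) := by ring
        omega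
      have h2 : Even ((q * ν + N) + 2 * (N * d)) := hev.add (even_two_mul _)
      rw [← h1] at h2
      exact (Nat.even_add.1 h2).2 (even_two_mul N)
    exact key (2 * N) _ (X i0 ^ (q * ν + 2 * N * d - N)) (isHomogeneous_X_pow i0 _)
      (pow_ne_zero _ (X_ne_zero i0)) (fun x _ => heven _ he x) (by omega)
  · have hh : (l ^ (q * ν + 2 * N * d - N)).IsHomogeneous (q * ν + 2 * N * d - N) := by
      have := hl.pow (q * ν + 2 * N * d - N)
      rwa [one_mul] at this
    refine key (2 * N) _ _ hh (pow_ne_zero _ hl0) (fun x hx => ?_) (by omega)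
    rw [map_pow]
    exact pow_nonneg (hlpos x hx) _

/-- the poles of the topological zeta function -/
theorem weak_monodromy {N : ℕ} {f : MvPolynomial (Fin N) ℂ} {b : Polynomial ℂ}
    (hb : IsBFunction f b) {S : Type} [Fintype S] (Nν : S → ℕ × ℕ) (χ : Finset S → Polynomial ℂ)
    (s₀ : ℂ) (h : ∀ (I : Finset S) (i : S), χ I ≠ 0 → i ∈ I → 1 ≤ (Nν i).1 →
      s₀ = -((Nν i).2 : ℂ) / (Nν i).1 → WeakDatum f (Nν i).1 (Nν i).2)
    (hs₀ : (topZ Nν χ).denom.eval s₀ = 0) : ∃ z : ℤ, b.eval (s₀ + z) = 0 := by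
  obtain ⟨I, i, h1, h2, h3, h4⟩ := pole_topZ Nν χ s₀ hs₀
  rw [h4]
  exact (h I i h1 h2 h3 h4).root h3 hb

end Pool.Agent.Helper16.WM
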