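import Pool.Agent.Helper48.RC.Chamber
import Pool.Agent.Helper48.IF.Defs

set_option autoImplicit false

/-! # Weak monodromy conjecture and real chambers: definitions -/

namespace Pool.Agent.Helper16.WM

open MvPolynomial MeasureTheory Filter Topology Pool.Agent.H628R4.TP

/-- the weight of a monomial -/
def wt {N : ℕ} (w : Fin N → ℕ) (m : Fin N →₀ ℕ) : ℕ := ∑ i, w i * m i

/-- `f` has the weighted order `a`: all its monomials have weight `≥ a`, and one has weight `a` -/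
def HasOrder {N : ℕ} {K : Type} [CommSemiring K] (w : Fin N → ℕ) (a : ℕ)
    (f : MvPolynomial (Fin N) K) : Prop :=
  (∀ m ∈ f.support, a ≤ wt w m) ∧ ∃ m ∈ f.support, wt w m = a

/-- the weighted scaling `(t ^ (w i) x_i)` -/
def scl {N : ℕ} (w : Fin N → ℕ) (t : ℝ) (x : Fin N → ℝ) : Fin N → ℝ := fun i => t ^ w i * x i

/-- `Ω` is a chamber at the origin of `A B` (real polynomials of the weighted orders `a`, `b`): it is
open, `A B` has no zero in `Ω` and is zero on the boundary of `Ω` near the origin; near the origin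
`|x_i| ^ b ≤ C |B(x)| ^ (w i)` on `Ω` (`B` vanishes on `Ω` exactly to the order `b` at the centre
`x_i = 0`, `w i > 0`), and `Ω` contains `t ^ w V` for all small `t > 0`, for some open `V ≠ ∅` (and
`|x_i| < ε` on `V` if `w i = 0`, for any given `ε > 0`). -/
structure Geo {N : ℕ} (w : Fin N → ℕ) (a b : ℕ) (A B : MvPolynomial (Fin N) ℝ)
    (Ω : Set (Fin N → ℝ)) : Prop where
  wpos : ∃ i, 0 < w i
  ordA : HasOrder w a A
  ordB : HasOrder w b B
  isOpen : IsOpen Ω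
  ne : ∀ x ∈ Ω, eval x (A * B) ≠ 0
  fr : ∃ r : ℝ, 0 < r ∧ ∀ x ∈ frontier Ω, ‖x‖ ≤ r → eval x (A * B) = 0
  lowB : ∃ C r : ℝ, 0 < r ∧ ∀ x ∈ Ω, ‖x‖ ≤ r → ∀ i, |x i| ^ b ≤ C * |eval x B| ^ w i
  sector : ∀ ε : ℝ, 0 < ε → ∃ (V : Set (Fin N → ℝ)) (t₁ : ℝ), IsOpen V ∧ V.Nonempty ∧ 0 < t₁ ∧
    (∀ y ∈ V, ∀ i, w i = 0 → |y i| < ε) ∧
    ∀ t : ℝ, 0 < t → t < t₁ → ∀ y ∈ V, scl w t y ∈ Ω

end Pool.Agent.Helper16.WM
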