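import Pool.Agent.Helper16.WM.NPos
import Pool.Agent.Helper16.WM.Datum
import Pool.Agent.Helper16.WL.Mult

set_option autoImplicit false

/-! # The data of the facets -/

namespace Pool.Agent.Helper16.WM

open MvPolynomial Pool.Agent.H628R4.TP Pool.Agent.Helper16.WM.NFin Pool.Agent.Helper16.WL

/-- The numbers `(m, ν)` come from a facet in a real chamber at the point `x₀`: in some polynomial
coordinates with the origin `x₀` (`Φ`), and for some field `k` with embeddings `ι : k → ℂ`, `τ : k → ℝ`,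
`f = u (A B)^ι` with a complex polynomial `u`, `u(0) ≠ 0` (for example `u = 1`), the real polynomial `(A B)^τ`
has a chamber `Ω` at the origin with the weights `w` and the orders `a`, `c` of `A`, `B`, on which
`|B|` dominates monomials `x ^ v`, `v ∈ T`, of weight `c` which span with the `e_i`, `w i = 0` (`NGeo`),
and `ν / m ≡ (∑ w_i + e) / (a + c)` modulo `ℤ`, where `e` is the weighted order of a real polynomial
which is `≥ 0` on `Ω` near the origin (for example `e = 0`, `H = 1`). -/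
def NewtonDatum {N : ℕ} (x₀ : Fin N → ℂ) (f : MvPolynomial (Fin N) ℂ) (m ν : ℕ) : Prop :=
  ∃ (k : Type) (_ : Field k) (ι : k →+* ℂ) (τ : k →+* ℝ)
    (Φ : MvPolynomial (Fin N) ℂ ≃ₐ[ℂ] MvPolynomial (Fin N) ℂ) (u : MvPolynomial (Fin N) ℂ)
    (A B : MvPolynomial (Fin N) k) (w : Fin N → ℕ) (a c : ℕ) (T : Finset (Fin N →₀ ℕ))
    (Ω : Set (Fin N → ℝ)) (H : MvPolynomial (Fin N) ℝ) (e : ℕ) (r : ℝ) (z : ℤ),
    (∀ i, eval 0 (Φ (X i)) = x₀ i) ∧ eval 0 u ≠ 0 ∧ Φ f = u * map ι (A * B) ∧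
    NGeo w a c (map τ A) (map τ B) T Ω ∧ HasOrder w e H ∧ 0 < r ∧
    (∀ x ∈ Ω, ‖x‖ ≤ r → 0 ≤ eval x H) ∧
    (ν : ℚ) / m = ((∑ i, w i + e : ℕ) : ℚ) / ((a + c : ℕ) : ℚ) + z

theorem NewtonDatum.root {N : ℕ} {x₀ : Fin N → ℂ} {f : MvPolynomial (Fin N) ℂ} {m ν : ℕ}
    (h : NewtonDatum x₀ f m ν) {b : Polynomial ℂ} (hb : IsBFunctionAt x₀ f b) :
    ∃ z : ℤ, b.eval (-(ν : ℂ) / m + z) = 0 := by
  obtain ⟨k, _, ι, τ, Φ, v, A, B, w, a, c, T, Ω, H, e, r, z, hΦ, hv, hf, hG, hH, hr, hH0, hq⟩ := h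
  have hb' := at_equiv Φ hΦ f b hb
  rw [hf] at hb'
  obtain ⟨u, hu, hfam⟩ := fam_of_at hb'
  have hv0 : v ≠ 0 := by
    rintro rfl
    exact hv (map_zero _)
  obtain ⟨n, hn⟩ := fam_unit (v := v) (g := map ι (A * B)) u hv0 b hfam
  obtain ⟨z', hz'⟩ := newton_root_at ι τ A B w a c T Ω hG H e hH r hr hH0 b
    ⟨u * v ^ n, by rw [map_mul, map_pow]; exact mul_ne_zero hu (pow_ne_zero _ hv), hn⟩
  refine ⟨z' + z, ?_⟩
  rw [← hz']
  congr 1
  have h1 : (ν : ℂ) / m = ((∑ i, w i + e : ℕ) : ℂ) / ((a + c : ℕ) : ℂ) + z := by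
    have := congrArg (fun q : ℚ => (q : ℂ)) hq
    push_cast at this ⊢
    exact this
  rw [neg_div, h1, neg_div]
  push_cast
  ring

/-- `exp(2 π i ν / m)` is an `n`-th root of unity, `n` the multiplicity of some prime factor of `f`
through the point, or `(m, ν)` come from a facet in a real chamber at the point. -/
def FacetDatum {N : ℕ} (x₀ : Fin N → ℂ) (f : MvPolynomial (Fin N) ℂ) (m ν : ℕ) : Prop :=
  (∃ (p q : MvPolynomial (Fin N) ℂ) (n : ℕ), 1 ≤ n ∧ Prime p ∧ eval x₀ p = 0 ∧ f = p ^ n * q ∧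
    ¬ p ∣ q ∧ m ∣ n * ν) ∨ NewtonDatum x₀ f m ν

theorem FacetDatum.root {N : ℕ} {x₀ : Fin N → ℂ} {f : MvPolynomial (Fin N) ℂ} {m ν : ℕ} (hm : 1 ≤ m)
    (h : FacetDatum x₀ f m ν) {b : Polynomial ℂ} (hb : IsBFunctionAt x₀ f b) :
    ∃ z : ℤ, b.eval (-(ν : ℂ) / m + z) = 0 := by
  rcases h with h | h
  · exact root_of_mult_mod hm h hb
  · exact h.root hb

theorem at_of_global {N : ℕ} (x₀ : Fin N → ℂ) {f : MvPolynomial (Fin N) ℂ} {b : Polynomial ℂ}
    (hb : IsBFunction f b) : IsBFunctionAt x₀ f b := by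
  obtain ⟨P, hP⟩ := hb
  exact ⟨1, by rw [map_one]; exact one_ne_zero, P, fun s => by rw [one_mul]; exact hP s⟩

/-- the poles of the topological zeta function -/
theorem facet_monodromy {N : ℕ} {f : MvPolynomial (Fin N) ℂ} {b : Polynomial ℂ}
    (hb : IsBFunction f b) {S : Type} [Fintype S] (Nν : S → ℕ × ℕ) (χ : Finset S → Polynomial ℂ)
    (s₀ : ℂ) (h : ∀ (I : Finset S) (i : S), χ I ≠ 0 → i ∈ I → 1 ≤ (Nν i).1 →
      s₀ = -((Nν i).2 : ℂ) / (Nν i).1 → ∃ x₀ : Fin N → ℂ, FacetDatum x₀ f (Nν i).1 (Nν i).2)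
    (hs₀ : (topZ Nν χ).denom.eval s₀ = 0) : ∃ z : ℤ, b.eval (s₀ + z) = 0 := by
  obtain ⟨I, i, h1, h2, h3, h4⟩ := pole_topZ Nν χ s₀ hs₀
  rw [h4]
  obtain ⟨x₀, h5⟩ := h I i h1 h2 h3 h4
  exact h5.root h3 (at_of_global x₀ hb)

theorem support_map_real {N : ℕ} {k : Type} [Field k] (τ : k →+* ℝ) (P : MvPolynomial (Fin N) k) :
    (map τ P).support = P.support :=
  support_map_of_injective P τ.injective

theorem hasOrder_map {N : ℕ} {k : Type} [Field k] (τ : k →+* ℝ) {w : Fin N → ℕ} {a : ℕ}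
    {P : MvPolynomial (Fin N) k} (h : HasOrder w a P) : HasOrder w a (map τ P) := by
  rw [HasOrder, support_map_real]
  exact h

/-- polynomials with positive coefficients on the compact faces: the data of the facets -/
theorem newtonDatum_of_pos {k : Type} [Field k] (ι : k →+* ℂ) (τ : k →+* ℝ) {N : ℕ}
    {f : MvPolynomial (Fin N) ℂ} (Φ : MvPolynomial (Fin N) ℂ ≃ₐ[ℂ] MvPolynomial (Fin N) ℂ)
    {x₀ : Fin N → ℂ} (hΦ : ∀ i, eval 0 (Φ (X i)) = x₀ i) {u : MvPolynomial (Fin N) ℂ}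
    (hu : eval 0 u ≠ 0)
    {A B : MvPolynomial (Fin N) k} (hf : Φ f = u * map ι (A * B)) (J : Finset (Fin N))
    (V : Finset (Fin N →₀ ℕ)) (hV : V ⊆ B.support)
    (hpos : ∀ v ∈ V, 0 < τ (coeff v B)) (hJ : ∀ v ∈ V, ∀ i ∈ J, Even (v i))
    (hab : ∀ u ∈ B.support, u ∉ V → Above V u)
    (hJ' : ∀ i, i ∉ J → X i ∣ A * B) (w : Fin N → ℕ) (a c : ℕ) (hc : 0 < c)
    (hA : HasOrder w a A) (hB : HasOrder w c B)
    (hT : Spans w (V.filter fun v => wt w v = c)) (q : Fin N → ℤ)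
    (hq : ∀ i ∈ J, Even (q i)) (m ν : ℕ) (z : ℤ)
    (h : (ν : ℚ) / m = ((∑ i, (w i : ℤ) * (1 + q i) : ℤ) : ℚ) / ((a + c : ℕ) : ℚ) + z) :
    NewtonDatum x₀ f m ν := by
  classical
  have hG : NGeo w a c (map τ A) (map τ B)
      (V.filter fun v => wt w v = c) (Orth J (map τ A * map τ B)) :=
    ngeo_of_pos J hc (hasOrder_map τ hA) (hasOrder_map τ hB) (by rwa [support_map_real])
      (fun v hv => by
      rw [coeff_map]
      exact hpos v hv) hJ (by rwa [support_map_real]) (fun i hi => by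
      obtain ⟨Q, hQ⟩ := hJ' i hi
      refine ⟨map τ Q, ?_⟩
      rw [← map_mul, hQ, map_mul, map_X]) hT
  set d : ℕ := a + c with hd
  have hd1 : 1 ≤ d := by omega
  have hbig : ∀ i, 0 ≤ q i + 2 * d * |q i| := by
    intro i
    have h1 : |q i| ≤ 2 * d * |q i| := by
      have h2 : (0 : ℤ) ≤ |q i| := abs_nonneg _
      have h3 : (1 : ℤ) ≤ 2 * d := by
        have : (1 : ℤ) ≤ d := by exact_mod_cast hd1
        linarith
      nlinarith
    have h2 := neg_abs_le (q i)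
    linarith
  set q' : Fin N → ℕ := fun i => (q i + 2 * d * |q i|).toNat with hq'
  have hq'c : ∀ i, ((q' i : ℕ) : ℤ) = q i + 2 * d * |q i| := fun i => Int.toNat_of_nonneg (hbig i)
  have hq'e : ∀ i ∈ J, Even (q' i) := by
    intro i hi
    have h1 : Even ((q' i : ℕ) : ℤ) := by
      rw [hq'c]
      refine (hq i hi).add ?_
      rw [mul_assoc]
      exact even_two_mul _
    exact_mod_cast h1
  refine ⟨k, inferInstance, ι, τ, Φ, u, A, B, w, a, c, _, _, mon q', ∑ i, w i * q' i, 1,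
    z - 2 * ∑ i, (w i : ℤ) * |q i|, hΦ, hu, hf, hG, hasOrder_mon w q', one_pos, fun x hx _ => ?_, ?_⟩
  · rw [eval_mon, prod_orth hq'e hx]
    exact Finset.prod_nonneg fun i _ => pow_nonneg (abs_nonneg _) _
  · rw [h]
    have hdQ : (d : ℚ) ≠ 0 := by
      have : d ≠ 0 := by omega
      exact_mod_cast this
    have h1 : ((∑ i, w i + ∑ i, w i * q' i : ℕ) : ℤ) =
        ∑ i, (w i : ℤ) * (1 + q i) + d * (2 * ∑ i, (w i : ℤ) * |q i|) := by
      push_cast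
      rw [Finset.mul_sum, Finset.mul_sum, ← Finset.sum_add_distrib, ← Finset.sum_add_distrib]
      refine Finset.sum_congr rfl fun i _ => ?_
      rw [hq'c]
      ring
    have h2 : ((∑ i, w i + ∑ i, w i * q' i : ℕ) : ℚ) =
        ((∑ i, (w i : ℤ) * (1 + q i) : ℤ) : ℚ) + d * (2 * ∑ i, (w i : ℤ) * |q i| : ℤ) := by
      have h3 := congrArg (fun x : ℤ => (x : ℚ)) h1
      push_cast at h3 ⊢
      exact h3
    rw [← hd, h2, add_div, mul_div_cancel_left₀ _ hdQ, Int.cast_sub]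
    ring

theorem exists_comb {N : ℕ} {w : Fin N → ℕ} (hw : Finset.univ.gcd w = 1) :
    ∃ g : Fin N → ℤ, ∑ i, (w i : ℤ) * g i = 1 := by
  obtain ⟨g, hg⟩ := Finset.gcd_eq_sum_mul (Finset.univ : Finset (Fin N)) (fun i => (w i : ℤ))
  have h1 : Finset.univ.gcd (fun i => (w i : ℤ)) ∣ 1 := by
    have h2 : (Finset.univ.gcd (fun i => (w i : ℤ))).natAbs ∣ 1 := by
      rw [← hw]
      refine Finset.dvd_gcd fun i hi => ?_
      have h3 : Finset.univ.gcd (fun i => (w i : ℤ)) ∣ (w i : ℤ) := Finset.gcd_dvd hi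
      exact Int.natAbs_dvd_natAbs.2 h3
    exact Int.natAbs_dvd_natAbs.1 (by simpa using h2)
  obtain ⟨u, hu⟩ := h1
  refine ⟨fun i => g i * u, ?_⟩
  rw [hu, hg, Finset.sum_mul]
  exact Finset.sum_congr rfl fun i _ => by ring

/-- all roots of unity of order `N_w` -/
theorem newtonDatum_all {k : Type} [Field k] (ι : k →+* ℂ) (τ : k →+* ℝ) {N : ℕ}
    {f : MvPolynomial (Fin N) ℂ} (Φ : MvPolynomial (Fin N) ℂ ≃ₐ[ℂ] MvPolynomial (Fin N) ℂ)
    {x₀ : Fin N → ℂ} (hΦ : ∀ i, eval 0 (Φ (X i)) = x₀ i) {u : MvPolynomial (Fin N) ℂ}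
    (hu : eval 0 u ≠ 0)
    {A B : MvPolynomial (Fin N) k} (hf : Φ f = u * map ι (A * B))
    (V : Finset (Fin N →₀ ℕ)) (hV : V ⊆ B.support) (hpos : ∀ v ∈ V, 0 < τ (coeff v B))
    (hab : ∀ u ∈ B.support, u ∉ V → Above V u)
    (hJ' : ∀ i, X i ∣ A * B) (w : Fin N → ℕ) (a c : ℕ) (hc : 0 < c)
    (hA : HasOrder w a A) (hB : HasOrder w c B)
    (hT : Spans w (V.filter fun v => wt w v = c)) (hw : Finset.univ.gcd w = 1)
    (m ν : ℕ) (hm : 1 ≤ m) (hmd : m ∣ a + c) : NewtonDatum x₀ f m ν := by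
  obtain ⟨s, hs⟩ := hmd
  obtain ⟨g, hg⟩ := exists_comb hw
  refine newtonDatum_of_pos ι τ Φ hΦ hu hf ∅ V hV hpos
    (fun v _ i hi => absurd hi (Finset.notMem_empty i)) hab (fun i _ => hJ' i) w a c hc hA hB hT
    (fun i => g i * ((ν : ℤ) * s - ∑ j, (w j : ℤ))) (fun i hi => absurd hi (Finset.notMem_empty i))
    m ν 0 ?_
  have h1 : ∑ i, (w i : ℤ) * (1 + g i * ((ν : ℤ) * s - ∑ j, (w j : ℤ))) = (ν : ℤ) * s := by
    have h2 : ∀ i, (w i : ℤ) * (1 + g i * ((ν : ℤ) * s - ∑ j, (w j : ℤ))) =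
        (w i : ℤ) + ((w i : ℤ) * g i) * ((ν : ℤ) * s - ∑ j, (w j : ℤ)) := fun i => by ring
    rw [Finset.sum_congr rfl fun i _ => h2 i, Finset.sum_add_distrib, ← Finset.sum_mul, hg]
    ring
  rw [h1, hs]
  have hmQ : (m : ℚ) ≠ 0 := by
    have : m ≠ 0 := by omega
    exact_mod_cast this
  have hsQ : (s : ℚ) ≠ 0 := by
    have : s ≠ 0 := by
      rintro rfl
      omega
    exact_mod_cast this
  push_cast
  field_simp
  ring

end Pool.Agent.Helper16.WM
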