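import Pool.Agent.Helper16.WM.Scl
import Pool.Agent.Helper16.WM.NDefs

set_option autoImplicit false

/-! # The supercritical integrals are finite (facets of Newton polyhedra) -/

namespace Pool.Agent.Helper16.WM.NFin

open MvPolynomial MeasureTheory Filter Topology Pool.Agent.Helper16.WM.SclN

variable {N : ℕ}

/-- real monomials -/
noncomputable def G (ρ : Fin N → ℝ) (x : Fin N → ℝ) : ℝ := ∏ i, |x i| ^ ρ i

theorem G_nonneg (ρ x : Fin N → ℝ) : 0 ≤ G ρ x :=
  Finset.prod_nonneg fun _ _ => Real.rpow_nonneg (abs_nonneg _) _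

theorem G_pos (ρ x : Fin N → ℝ) (hx : ∀ i, x i ≠ 0) : 0 < G ρ x :=
  Finset.prod_pos fun i _ => Real.rpow_pos_of_pos (abs_pos.2 (hx i)) _

theorem G_add (ρ σ x : Fin N → ℝ) (hx : ∀ i, x i ≠ 0) : G (ρ + σ) x = G ρ x * G σ x := by
  unfold G
  rw [← Finset.prod_mul_distrib]
  exact Finset.prod_congr rfl fun i _ => Real.rpow_add (abs_pos.2 (hx i)) _ _

theorem G_smul (p : ℝ) (ρ x : Fin N → ℝ) : G (p • ρ) x = (G ρ x) ^ p := by
  unfold G
  rw [← Real.finsetProd_rpow _ _ (fun i _ => Real.rpow_nonneg (abs_nonneg _) _)]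
  refine Finset.prod_congr rfl fun i _ => ?_
  rw [← Real.rpow_mul (abs_nonneg _), Pi.smul_apply, smul_eq_mul, mul_comm]

theorem G_sum {α : Type} (s : Finset α) (f : α → Fin N → ℝ) (x : Fin N → ℝ)
    (hx : ∀ i, x i ≠ 0) : G (∑ v ∈ s, f v) x = ∏ v ∈ s, G (f v) x := by
  unfold G
  rw [Finset.prod_comm]
  refine Finset.prod_congr rfl fun i _ => ?_
  rw [Finset.sum_apply, Real.rpow_sum_of_pos (abs_pos.2 (hx i))]

theorem G_nat (v : Fin N → ℕ) (x : Fin N → ℝ) : G (fun i => (v i : ℝ)) x = ∏ i, |x i| ^ v i := by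
  unfold G
  exact Finset.prod_congr rfl fun i _ => Real.rpow_natCast _ _

theorem integrable_one (ρ : ℝ) (h : -1 < ρ) :
    Integrable (fun x : ℝ => |x| ^ ρ) (volume.restrict (Set.Icc (-1) 1)) := by
  have h1 : IntegrableOn (fun x : ℝ => |x| ^ ρ) (Set.Icc 0 1) := by
    have h2 := (intervalIntegral.intervalIntegrable_rpow' h (a := 0) (b := 1))
    rw [intervalIntegrable_iff_integrableOn_Icc_of_le zero_le_one] at h2
    refine h2.congr_fun (fun x hx => ?_) measurableSet_Icc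
    change x ^ ρ = |x| ^ ρ
    rw [abs_of_nonneg hx.1]
  have h3 : IntegrableOn (fun x : ℝ => |x| ^ ρ) (Set.Icc (-1) 0) := by
    have h2 : IntervalIntegrable (fun x : ℝ => |x| ^ ρ) volume 0 1 := by
      rw [intervalIntegrable_iff_integrableOn_Icc_of_le zero_le_one]
      exact h1
    have h4 := (IntervalIntegrable.iff_comp_neg).1 h2
    rw [neg_zero] at h4
    have h5 := h4.symm
    rw [intervalIntegrable_iff_integrableOn_Icc_of_le (by norm_num)] at h5
    refine h5.congr_fun (fun x _ => ?_) measurableSet_Icc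
    change |(-x)| ^ ρ = |x| ^ ρ
    rw [abs_neg]
  have h6 := h3.union h1
  rw [Set.Icc_union_Icc_eq_Icc (by norm_num) (by norm_num)] at h6
  exact h6

theorem integrable_G (ρ : Fin N → ℝ) (h : ∀ i, -1 < ρ i) :
    IntegrableOn (G ρ) (Set.pi Set.univ fun _ => Set.Icc (-1) 1) := by
  have h1 := Integrable.fintype_prod (f := fun (i : Fin N) (y : ℝ) => |y| ^ ρ i)
    (μ := fun _ => (volume : Measure ℝ).restrict (Set.Icc (-1) 1))
    (fun i => integrable_one (ρ i) (h i))
  rw [IntegrableOn]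
  have h2 : (volume : Measure (Fin N → ℝ)).restrict (Set.pi Set.univ fun _ => Set.Icc (-1) 1) =
      Measure.pi fun _ => (volume : Measure ℝ).restrict (Set.Icc (-1) 1) := by
    rw [volume_pi, Measure.restrict_pi_pi]
  rw [h2]
  exact h1

theorem abs_eval_le (P : MvPolynomial (Fin N) ℝ) (hP : P.support.Nonempty) (x : Fin N → ℝ) :
    ∃ v ∈ P.support, |eval x P| ≤ (∑ m ∈ P.support, |coeff m P|) * G (fun i => (v i : ℝ)) x := by
  classical
  obtain ⟨v, hv, hmax⟩ := P.support.exists_max_image (fun m => ∏ i, |x i| ^ m i) hP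
  refine ⟨v, hv, ?_⟩
  have h1 : G (fun i => (v i : ℝ)) x = ∏ i, |x i| ^ v i := G_nat (fun i => v i) x
  rw [h1, eval_eq', Finset.sum_mul]
  refine (Finset.abs_sum_le_sum_abs _ _).trans (Finset.sum_le_sum fun m hm => ?_)
  rw [abs_mul, Finset.abs_prod]
  refine mul_le_mul_of_nonneg_left ?_ (abs_nonneg _)
  have h2 := hmax m hm
  simp only [abs_pow]
  exact h2

/-- the exponent of the test monomial -/
def mL (w : Fin N → ℕ) (T : Finset (Fin N →₀ ℕ)) (L : ℕ) : Fin N → ℕ :=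
  fun i => 2 * L * (∑ v ∈ T, v i + if w i = 0 then 1 else 0)

/-- the test monomial -/
noncomputable def mon (m : Fin N → ℕ) : MvPolynomial (Fin N) ℝ :=
  monomial (Finsupp.equivFunOnFinite.symm m) 1

theorem eval_mon (m : Fin N → ℕ) (x : Fin N → ℝ) : eval x (mon m) = ∏ i, x i ^ m i := by
  rw [mon, eval_monomial, one_mul, Finsupp.prod_fintype _ _ (fun i => pow_zero _)]
  rfl

theorem exists_pos {w : Fin N → ℕ} {T : Finset (Fin N →₀ ℕ)} (hT : Spans w T) (i : Fin N)
    (hi : 0 < w i) : ∃ v ∈ T, 0 < v i := by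
  obtain ⟨β, hβ⟩ := hT fun _ => 1
  have h1 := hβ i hi
  by_contra hcon
  push Not at hcon
  rw [Finset.sum_eq_zero] at h1
  · exact one_ne_zero h1
  · intro v hv
    have := hcon v hv
    have h2 : v i = 0 := by omega
    rw [h2, Nat.cast_zero, mul_zero]

theorem c_pos {w : Fin N → ℕ} {a c : ℕ} {A B : MvPolynomial (Fin N) ℝ} {T : Finset (Fin N →₀ ℕ)}
    {Ω : Set (Fin N → ℝ)} (hG : NGeo w a c A B T Ω) : 0 < c := by
  obtain ⟨i, hi⟩ := hG.wpos
  obtain ⟨v, hv, hvi⟩ := exists_pos hG.spanT i hi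
  rw [← hG.wtT v hv]
  exact lt_of_lt_of_le (Nat.mul_pos hi hvi)
    (Finset.single_le_sum (f := fun i => w i * v i) (fun i _ => Nat.zero_le _)
      (Finset.mem_univ i))

theorem main {w : Fin N → ℕ} {a c : ℕ} {A B : MvPolynomial (Fin N) ℝ} {T : Finset (Fin N →₀ ℕ)}
    {Ω : Set (Fin N → ℝ)} (hG : NGeo w a c A B T Ω) (H : MvPolynomial (Fin N) ℝ) (e : ℕ)
    (hH : HasOrder w e H) (κ₀ : ℝ) (hκ₀ : 0 ≤ κ₀) :
    ∃ (r : ℝ) (L : ℕ), 0 < r ∧ ∀ (k : ℕ) (t₀ : ℝ), t₀ + k = κ₀ →
      t₀ * (a + c) + a * k + (e + ((∑ i, w i * mL w T L i : ℕ) : ℝ)) =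
        -((∑ i, w i : ℕ) : ℝ) → ∀ t : ℝ, t₀ < t →
      IntegrableOn (fun x => |eval x A| ^ (t + k) * |eval x B| ^ t * eval x (H * mon (mL w T L)))
        (Ω ∩ {x | ‖x‖ ≤ r}) := by
  classical
  obtain ⟨C, r₀, hr₀, hC⟩ := hG.low
  have hc := c_pos hG
  obtain ⟨i0, hi0⟩ := hG.wpos
  obtain ⟨v0, hv0, -⟩ := exists_pos hG.spanT i0 hi0
  set P : (Fin N →₀ ℕ) × (Fin N →₀ ℕ) → Fin N → ℝ :=
    fun p i => 1 + κ₀ * (p.1 i : ℝ) + (p.2 i : ℝ) with hP
  choose β hβ using fun p => hG.spanT (P p)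
  set μ : (Fin N →₀ ℕ) × (Fin N →₀ ℕ) → Fin N → ℝ :=
    fun p i => P p i - ∑ v ∈ T, β p v * (v i : ℝ) with hμ
  have hbig : ∀ y : ℝ, ∀ᶠ L : ℕ in atTop, 0 < 2 * (L : ℝ) + y := by
    intro y
    filter_upwards [tendsto_natCast_atTop_atTop.eventually_gt_atTop (-y)] with L hL
    have : (0 : ℝ) ≤ L := Nat.cast_nonneg L
    linarith
  have hexL : ∀ᶠ L : ℕ in atTop, ∀ p ∈ A.support ×ˢ H.support,
      (∀ v ∈ T, 0 < 2 * (L : ℝ) + β p v) ∧ ∀ i ∈ (Finset.univ : Finset (Fin N)),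
        0 < 2 * (L : ℝ) + μ p i := by
    rw [Filter.eventually_all_finset]
    intro p _
    refine Eventually.and ?_ ?_
    · rw [Filter.eventually_all_finset]
      intro v _
      exact hbig _
    · rw [Filter.eventually_all_finset]
      intro i _
      exact hbig _
  obtain ⟨L, hL⟩ := hexL.exists
  refine ⟨min r₀ 1, L, lt_min hr₀ one_pos, fun k t₀ hk hcrit t ht => ?_⟩
  set r : ℝ := min r₀ 1 with hr
  set m : Fin N → ℕ := mL w T L with hm
  set S : Set (Fin N → ℝ) := Ω ∩ {x | ‖x‖ ≤ r} with hS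
  set F : (Fin N → ℝ) → ℝ := fun x => |eval x A| ^ (t + k) * |eval x B| ^ t *
    eval x (H * mon m) with hF
  have htk : 0 ≤ t + k := by linarith
  have hSm : MeasurableSet S :=
    hG.isOpen.measurableSet.inter (measurableSet_le measurable_norm measurable_const)
  have hAc := (MvPolynomial.continuous_eval A).abs
  have hBc := (MvPolynomial.continuous_eval B).abs
  have hHc := MvPolynomial.continuous_eval (H * mon m)
  rcases le_or_gt 0 t with ht0 | ht0
  · -- a bounded function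
    have hFc : Continuous F :=
      ((hAc.rpow_const fun x => Or.inr htk).mul (hBc.rpow_const fun x => Or.inr ht0)).mul hHc
    refine ((hFc.continuousOn).integrableOn_compact
      (isCompact_closedBall (0 : Fin N → ℝ) r)).mono_set ?_
    rintro x ⟨-, hx⟩
    rwa [mem_closedBall_zero_iff]
  have hFm : Measurable F :=
    ((hAc.measurable.pow_const _).mul (hBc.measurable.pow_const _)).mul hHc.measurable
  set C' : ℝ := max C 1 with hC'
  have hC'0 : 0 < C' := lt_of_lt_of_le one_pos (le_max_right _ _)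
  set cA : ℝ := ∑ m ∈ A.support, |coeff m A| with hcA
  set cH : ℝ := ∑ m ∈ H.support, |coeff m H| with hcH
  have hcA0 : 0 ≤ cA := Finset.sum_nonneg fun _ _ => abs_nonneg _
  have hcH0 : 0 ≤ cH := Finset.sum_nonneg fun _ _ => abs_nonneg _
  -- the exponents
  set lam : (Fin N →₀ ℕ) × (Fin N →₀ ℕ) → (Fin N →₀ ℕ) → ℝ :=
    fun p v => 2 * (L : ℝ) + β p v with hlam
  set Lam : (Fin N →₀ ℕ) × (Fin N →₀ ℕ) → ℝ := fun p => ∑ v ∈ T, lam p v with hLam
  set q : (Fin N →₀ ℕ) × (Fin N →₀ ℕ) → (Fin N →₀ ℕ) → ℝ :=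
    fun p v => t * lam p v / Lam p with hq
  set ρ : (Fin N →₀ ℕ) × (Fin N →₀ ℕ) → Fin N → ℝ := fun p =>
    ((t + k) • (fun i => (p.1 i : ℝ))) + (∑ v ∈ T, q p v • (fun i => (v i : ℝ))) +
      (fun i => (p.2 i : ℝ)) + (fun i => (m i : ℝ)) with hρ
  have hlam0 : ∀ p ∈ A.support ×ˢ H.support, ∀ v ∈ T, 0 < lam p v := fun p hp v hv =>
    (hL p hp).1 v hv
  have hLam0 : ∀ p ∈ A.support ×ˢ H.support, 0 < Lam p := fun p hp =>
    Finset.sum_pos (hlam0 p hp) ⟨v0, hv0⟩
  have hmi : ∀ i, (m i : ℝ) = 2 * L * ∑ v ∈ T, (v i : ℝ) + (if w i = 0 then 2 * (L : ℝ) else 0) := by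
    intro i
    rw [hm, mL]
    split_ifs
    · push_cast
      ring
    · push_cast
      ring
  have hmP : ∀ p, ∀ i, (m i : ℝ) + P p i = ∑ v ∈ T, lam p v * (v i : ℝ) +
      (if w i = 0 then 2 * (L : ℝ) + μ p i else 0) := by
    intro p i
    rw [hmi]
    have h1 : ∑ v ∈ T, lam p v * (v i : ℝ) = 2 * L * ∑ v ∈ T, (v i : ℝ) +
        ∑ v ∈ T, β p v * (v i : ℝ) := by
      rw [Finset.mul_sum, ← Finset.sum_add_distrib]
      refine Finset.sum_congr rfl fun v _ => ?_
      rw [hlam]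
      ring
    rw [h1]
    split_ifs with h2
    · rw [hμ]
      ring
    · rw [hβ p i (by omega)]
      ring
  have hLam1 : ∀ p ∈ A.support ×ˢ H.support, -t₀ ≤ Lam p := by
    intro p hp
    obtain ⟨hp1, hp2⟩ := Finset.mem_product.1 hp
    have e1 : ∑ i, (w i : ℝ) * ((m i : ℝ) + P p i) = c * Lam p := by
      have h1 : ∀ i, (w i : ℝ) * ((m i : ℝ) + P p i) =
          ∑ v ∈ T, lam p v * ((w i : ℝ) * (v i : ℝ)) := by
        intro i
        rw [hmP]
        have h2 : (w i : ℝ) * (if w i = 0 then 2 * (L : ℝ) + μ p i else 0) = 0 := by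
          split_ifs with h3
          · rw [h3, Nat.cast_zero, zero_mul]
          · rw [mul_zero]
        rw [mul_add, h2, add_zero, Finset.mul_sum]
        exact Finset.sum_congr rfl fun v _ => by ring
      rw [Finset.sum_congr rfl fun i _ => h1 i, Finset.sum_comm, hLam, Finset.mul_sum]
      refine Finset.sum_congr rfl fun v hv => ?_
      rw [← Finset.mul_sum]
      have h2 : ∑ i, (w i : ℝ) * (v i : ℝ) = c := by
        rw [← hG.wtT v hv]
        push_cast
        rfl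
      rw [h2, mul_comm]
    have e2 : ∑ i, (w i : ℝ) * ((m i : ℝ) + P p i) = ((∑ i, w i * m i : ℕ) : ℝ) +
        ((∑ i, w i : ℕ) : ℝ) + κ₀ * (wt w p.1 : ℝ) + (wt w p.2 : ℝ) := by
      rw [wt, wt]
      push_cast
      rw [Finset.mul_sum, ← Finset.sum_add_distrib, ← Finset.sum_add_distrib,
        ← Finset.sum_add_distrib]
      refine Finset.sum_congr rfl fun i _ => ?_
      rw [hP]
      ring
    have h3 : κ₀ * (a : ℝ) ≤ κ₀ * (wt w p.1 : ℝ) :=
      mul_le_mul_of_nonneg_left (by exact_mod_cast hG.ordA.1 _ hp1) hκ₀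
    have h4 : (e : ℝ) ≤ (wt w p.2 : ℝ) := by exact_mod_cast hH.1 _ hp2
    have hc0 : (0 : ℝ) < c := by exact_mod_cast hc
    have h5 : (c : ℝ) * (-t₀) ≤ c * Lam p := by
      rw [← e1, e2]
      have h6 : a * (k : ℝ) = a * (κ₀ - t₀) := by rw [← hk]; ring
      nlinarith
    exact le_of_mul_le_mul_left h5 hc0
  have hρ0 : ∀ p ∈ A.support ×ˢ H.support, ∀ i, -1 < ρ p i := by
    intro p hp i
    have h1 : ρ p i = (t - t₀) * (p.1 i : ℝ) + (t / Lam p) * (∑ v ∈ T, lam p v * (v i : ℝ)) +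
        ((m i : ℝ) + P p i) - 1 := by
      have h2 : (∑ v ∈ T, q p v • (fun i => (v i : ℝ))) i =
          (t / Lam p) * (∑ v ∈ T, lam p v * (v i : ℝ)) := by
        rw [Finset.sum_apply, Finset.mul_sum]
        refine Finset.sum_congr rfl fun v _ => ?_
        rw [Pi.smul_apply, smul_eq_mul, hq]
        ring
      change (t + k) * (p.1 i : ℝ) + (∑ v ∈ T, q p v • (fun i => (v i : ℝ))) i + (p.2 i : ℝ) +
        (m i : ℝ) = _
      rw [h2, hP]
      have h3 : t + k = κ₀ + (t - t₀) := by rw [← hk]; ring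
      rw [h3]
      ring
    rw [h1, hmP]
    set s : ℝ := ∑ v ∈ T, lam p v * (v i : ℝ) with hs
    have hs0 : 0 ≤ s := Finset.sum_nonneg fun v hv =>
      mul_nonneg (hlam0 p hp v hv).le (Nat.cast_nonneg _)
    have h2 : 0 ≤ (t - t₀) * (p.1 i : ℝ) := mul_nonneg (by linarith) (Nat.cast_nonneg _)
    have h3 : 0 < 1 + t / Lam p := by
      have h4 := hLam0 p hp
      have h5 := hLam1 p hp
      have h6 : -1 < t / Lam p := by
        rw [lt_div_iff₀ h4]
        linarith
      linarith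
    split_ifs with h4
    · have h5 := (hL p hp).2 i (Finset.mem_univ i)
      have h6 := mul_nonneg h3.le hs0
      nlinarith
    · obtain ⟨v, hv, hvi⟩ := exists_pos hG.spanT i (by omega)
      have h5 : 0 < s := by
        refine lt_of_lt_of_le (mul_pos (hlam0 p hp v hv) (by exact_mod_cast hvi))
          (Finset.single_le_sum (f := fun v => lam p v * (v i : ℝ)) (fun v hv =>
            mul_nonneg (hlam0 p hp v hv).le (Nat.cast_nonneg _)) hv)
      have h6 := mul_pos h3 h5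
      nlinarith
  -- the bound
  set K : ℝ := cA ^ (t + k) * C' ^ (-t) * cH with hK
  set D : (Fin N → ℝ) → ℝ := fun x => ∑ p ∈ A.support ×ˢ H.support, K * G (ρ p) x with hD
  have hDi : IntegrableOn D S := by
    have h1 : IntegrableOn D (Set.pi Set.univ fun _ => Set.Icc (-1) 1) := by
      rw [hD]
      refine integrable_finsetSum _ fun p hp => ?_
      exact (integrable_G (ρ p) (hρ0 p hp)).const_mul K
    refine h1.mono_set ?_
    rintro x ⟨-, hx⟩ i -
    have h2 : ‖x‖ ≤ 1 := le_trans hx (min_le_right _ _)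
    have h3 := (norm_le_pi_norm x i).trans h2
    rw [Real.norm_eq_abs, abs_le] at h3
    exact h3
  have hpt : ∀ x ∈ S, (∀ i, x i ≠ 0) → ‖F x‖ ≤ D x := by
    intro x hx hx0
    have hne := hG.ne x hx.1
    rw [map_mul] at hne
    have hBne : 0 < |eval x B| := abs_pos.2 (right_ne_zero_of_mul hne)
    obtain ⟨v1, hv1, hA1⟩ := abs_eval_le A (by
      obtain ⟨m', hm', -⟩ := hG.ordA.2
      exact ⟨m', hm'⟩) x
    obtain ⟨v2, hv2, hH1⟩ := abs_eval_le H (by
      obtain ⟨m', hm', -⟩ := hH.2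
      exact ⟨m', hm'⟩) x
    set p : (Fin N →₀ ℕ) × (Fin N →₀ ℕ) := (v1, v2) with hp
    have hpm : p ∈ A.support ×ˢ H.support := Finset.mem_product.2 ⟨hv1, hv2⟩
    have hLp := hLam0 p hpm
    -- the factor `A`
    have bA : |eval x A| ^ (t + k) ≤ cA ^ (t + k) * G ((t + k) • fun i => (v1 i : ℝ)) x := by
      rw [G_smul, ← Real.mul_rpow hcA0 (G_nonneg _ _)]
      exact Real.rpow_le_rpow (abs_nonneg _) hA1 htk
    -- the factor `B`
    have bB : |eval x B| ^ t ≤ C' ^ (-t) * G (∑ v ∈ T, q p v • (fun i => (v i : ℝ))) x := by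
      have h1 : (C' * |eval x B|) ^ t = ∏ v ∈ T, (C' * |eval x B|) ^ q p v := by
        rw [← Real.rpow_sum_of_pos (mul_pos hC'0 hBne)]
        congr 1
        rw [hq]
        change t = ∑ v ∈ T, t * lam p v / Lam p
        rw [← Finset.sum_div, ← Finset.mul_sum]
        change t = t * Lam p / Lam p
        field_simp
      have h2 : (C' * |eval x B|) ^ t ≤ G (∑ v ∈ T, q p v • (fun i => (v i : ℝ))) x := by
        rw [h1, G_sum _ _ _ hx0]
        refine Finset.prod_le_prod (fun v _ => Real.rpow_nonneg (mul_pos hC'0 hBne).le _)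
          fun v hv => ?_
        rw [G_smul]
        have h3 : q p v ≤ 0 := by
          rw [hq]
          exact div_nonpos_of_nonpos_of_nonneg
            (mul_nonpos_of_nonpos_of_nonneg ht0.le (hlam0 p hpm v hv).le) hLp.le
        refine Real.rpow_le_rpow_of_nonpos (G_pos _ _ hx0) ?_ h3
        rw [G_nat]
        refine (hC x hx.1 (le_trans hx.2 (min_le_left _ _)) v hv).trans ?_
        exact mul_le_mul_of_nonneg_right (le_max_left _ _) hBne.le
      have h3 : |eval x B| ^ t = C' ^ (-t) * (C' * |eval x B|) ^ t := by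
        rw [Real.mul_rpow hC'0.le hBne.le, ← mul_assoc, ← Real.rpow_add hC'0, neg_add_cancel,
          Real.rpow_zero, one_mul]
      rw [h3]
      exact mul_le_mul_of_nonneg_left h2 (Real.rpow_nonneg hC'0.le _)
    -- the factor `H x ^ m`
    have bH : |eval x (H * mon m)| ≤ cH * (G (fun i => (v2 i : ℝ)) x * G (fun i => (m i : ℝ)) x) := by
      rw [map_mul, abs_mul, eval_mon, Finset.abs_prod, G_nat m x, ← mul_assoc]
      simp only [abs_pow]
      exact mul_le_mul_of_nonneg_right hH1 (Finset.prod_nonneg fun i _ => pow_nonneg (abs_nonneg _) _)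
    have hprod : ‖F x‖ = |eval x A| ^ (t + k) * |eval x B| ^ t * |eval x (H * mon m)| := by
      rw [hF]
      simp only [norm_mul, Real.norm_eq_abs]
      rw [abs_of_nonneg (Real.rpow_nonneg (abs_nonneg _) _), abs_of_nonneg
        (Real.rpow_nonneg hBne.le _)]
    have hGρ : G (ρ p) x = G ((t + k) • fun i => (v1 i : ℝ)) x *
        G (∑ v ∈ T, q p v • (fun i => (v i : ℝ))) x * G (fun i => (v2 i : ℝ)) x *
        G (fun i => (m i : ℝ)) x := by
      rw [← G_add _ _ _ hx0, ← G_add _ _ _ hx0, ← G_add _ _ _ hx0]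
    have hmain : ‖F x‖ ≤ K * G (ρ p) x := by
      rw [hprod, hGρ, hK]
      calc |eval x A| ^ (t + k) * |eval x B| ^ t * |eval x (H * mon m)| ≤
          (cA ^ (t + k) * G ((t + k) • fun i => (v1 i : ℝ)) x) *
          (C' ^ (-t) * G (∑ v ∈ T, q p v • (fun i => (v i : ℝ))) x) *
          (cH * (G (fun i => (v2 i : ℝ)) x * G (fun i => (m i : ℝ)) x)) := by
            refine mul_le_mul (mul_le_mul bA bB (Real.rpow_nonneg (abs_nonneg _) _) ?_) bH
              (abs_nonneg _) ?_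
            · exact mul_nonneg (Real.rpow_nonneg hcA0 _) (G_nonneg _ _)
            · exact mul_nonneg (mul_nonneg (Real.rpow_nonneg hcA0 _) (G_nonneg _ _))
                (mul_nonneg (Real.rpow_nonneg hC'0.le _) (G_nonneg _ _))
        _ = _ := by ring
    refine hmain.trans ?_
    have hK0 : 0 ≤ K := mul_nonneg (mul_nonneg (Real.rpow_nonneg hcA0 _)
      (Real.rpow_nonneg hC'0.le _)) hcH0
    exact Finset.single_le_sum (f := fun p => K * G (ρ p) x)
      (fun p _ => mul_nonneg hK0 (G_nonneg _ _)) hpm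
  refine Integrable.mono' hDi hFm.aestronglyMeasurable ?_
  rw [ae_restrict_iff' hSm]
  have hae : ∀ᵐ x : Fin N → ℝ, ∀ i, x i ≠ 0 := by
    rw [ae_all_iff]
    intro i
    have h1 : volume {x : Fin N → ℝ | x i = 0} = 0 := Measure.pi_hyperplane _ i 0
    rw [ae_iff]
    simpa using h1
  filter_upwards [hae] with x hx0 hx
  exact hpt x hx hx0

end Pool.Agent.Helper16.WM.NFin
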