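import Pool.Agent.Helper16.WM.NAsm
import Pool.Agent.Helper16.WM.Above

set_option autoImplicit false

/-! # Polynomials with positive coefficients on the compact faces -/

namespace Pool.Agent.Helper16.WM

open MvPolynomial MeasureTheory Filter Topology Pool.Agent.Helper16.WM.SclN
  Pool.Agent.Helper16.WM.NFin

/-- the orthant `x_i > 0` (`i ∉ J`) without the zeros of `P` -/
def Orth {N : ℕ} (J : Finset (Fin N)) (P : MvPolynomial (Fin N) ℝ) : Set (Fin N → ℝ) :=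
  {x | (∀ i, i ∉ J → 0 < x i) ∧ eval x P ≠ 0}

theorem isOpen_orth {N : ℕ} (J : Finset (Fin N)) (P : MvPolynomial (Fin N) ℝ) :
    IsOpen (Orth J P) := by
  have h1 : Orth J P = (⋂ i, {x : Fin N → ℝ | i ∉ J → 0 < x i}) ∩ {x | eval x P ≠ 0} := by
    ext x
    simp [Orth]
  rw [h1]
  refine (isOpen_iInter_of_finite fun i => ?_).inter
    (isOpen_ne_fun (MvPolynomial.continuous_eval P) continuous_const)
  by_cases hi : i ∈ J
  · have h2 : {x : Fin N → ℝ | i ∉ J → 0 < x i} = Set.univ := by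
      ext x
      simp [hi]
    rw [h2]
    exact isOpen_univ
  · have h2 : {x : Fin N → ℝ | i ∉ J → 0 < x i} = {x | 0 < x i} := by
      ext x
      simp [hi]
    rw [h2]
    exact isOpen_lt continuous_const (continuous_apply i)

theorem frontier_orth {N : ℕ} (J : Finset (Fin N)) (P : MvPolynomial (Fin N) ℝ)
    (hP : ∀ i, i ∉ J → X i ∣ P) : ∀ x ∈ frontier (Orth J P), eval x P = 0 := by
  intro x hx
  by_contra hne
  have hx1 : ∀ i, i ∉ J → 0 ≤ x i := by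
    intro i hi
    have h1 : closure (Orth J P) ⊆ {x | 0 ≤ x i} := by
      refine closure_minimal (fun y hy => (hy.1 i hi).le) ?_
      exact isClosed_le continuous_const (continuous_apply i)
    exact h1 (frontier_subset_closure hx)
  have hx2 : x ∈ Orth J P := by
    refine ⟨fun i hi => lt_of_le_of_ne (hx1 i hi) fun h => hne ?_, hne⟩
    obtain ⟨Q, hQ⟩ := hP i hi
    rw [hQ, map_mul, eval_X, ← h, zero_mul]
  have h3 := hx.2
  rw [(isOpen_orth J P).interior_eq] at h3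
  exact h3 hx2

theorem sector_orth {N : ℕ} (J : Finset (Fin N)) {A B : MvPolynomial (Fin N) ℝ} {w : Fin N → ℕ}
    {a c : ℕ} (hA : HasOrder w a A) (hB : HasOrder w c B) (ε : ℝ) (hε : 0 < ε) :
    ∃ (V : Set (Fin N → ℝ)) (t₁ : ℝ), IsOpen V ∧ V.Nonempty ∧ 0 < t₁ ∧
    (∀ y ∈ V, ∀ i, w i = 0 → |y i| < ε) ∧
    ∀ t : ℝ, 0 < t → t < t₁ → ∀ y ∈ V, scl w t y ∈ Orth J (A * B) := by
  set U : Set (Fin N → ℝ) := Set.pi Set.univ fun _ => Set.Ioo 0 ε with hU
  have hUo : IsOpen U := isOpen_set_pi Set.finite_univ fun _ _ => isOpen_Ioo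
  have hUn : U.Nonempty := ⟨fun _ => ε / 2, fun _ _ => ⟨by positivity, by linarith⟩⟩
  obtain ⟨y₀, hy₀, hQ⟩ := exists_ne_zero (Q := Ini w a A * Ini w c B)
    (mul_ne_zero (ini_ne_zero hA) (ini_ne_zero hB)) hUo hUn
  rw [map_mul, eval_ini hA.1, eval_ini hB.1] at hQ
  have hev : ∀ᶠ p : ℝ × (Fin N → ℝ) in 𝓝 (0, y₀), FF w a A p.1 p.2 ≠ 0 ∧
      FF w c B p.1 p.2 ≠ 0 ∧ p.2 ∈ U := by
    have e1 : ∀ᶠ p : ℝ × (Fin N → ℝ) in 𝓝 (0, y₀), FF w a A p.1 p.2 ≠ 0 :=
      (continuous_FF w a A).continuousAt.eventually_ne (left_ne_zero_of_mul hQ)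
    have e2 : ∀ᶠ p : ℝ × (Fin N → ℝ) in 𝓝 (0, y₀), FF w c B p.1 p.2 ≠ 0 :=
      (continuous_FF w c B).continuousAt.eventually_ne (right_ne_zero_of_mul hQ)
    have e3 : ∀ᶠ p : ℝ × (Fin N → ℝ) in 𝓝 (0, y₀), p.2 ∈ U :=
      (continuous_snd.tendsto (0, y₀)).eventually (hUo.mem_nhds hy₀)
    filter_upwards [e1, e2, e3] with p h1 h2 h3
    exact ⟨h1, h2, h3⟩
  obtain ⟨δ, hδ, hδ'⟩ := Metric.eventually_nhds_iff.1 hev
  have hkey : ∀ s : ℝ, 0 < s → s < δ → ∀ y ∈ Metric.ball y₀ δ, FF w a A s y ≠ 0 ∧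
      FF w c B s y ≠ 0 ∧ y ∈ U := by
    intro s hs0 hs y hy
    refine hδ' (y := (s, y)) ?_
    rw [Prod.dist_eq, max_lt_iff]
    constructor
    · change dist s 0 < δ
      rw [Real.dist_eq, sub_zero, abs_of_pos hs0]
      exact hs
    · exact hy
  refine ⟨Metric.ball y₀ δ, δ, Metric.isOpen_ball, ⟨y₀, Metric.mem_ball_self hδ⟩, hδ,
    fun y hy i _ => ?_, fun t ht ht' y hy => ⟨fun i _ => ?_, ?_⟩⟩
  · have h1 := (hkey (δ / 2) (by positivity) (by linarith) y hy).2.2 i (Set.mem_univ i)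
    rw [abs_of_pos h1.1]
    exact h1.2
  · have h1 := (hkey t ht ht' y hy).2.2 i (Set.mem_univ i)
    exact mul_pos (pow_pos ht _) h1.1
  · obtain ⟨h1, h2, -⟩ := hkey t ht ht' y hy
    rw [map_mul, eval_scl w a A hA.1, eval_scl w c B hB.1]
    exact mul_ne_zero (mul_ne_zero (pow_pos ht _).ne' h1) (mul_ne_zero (pow_pos ht _).ne' h2)

theorem prod_orth {N : ℕ} {J : Finset (Fin N)} {P : MvPolynomial (Fin N) ℝ} {v : Fin N → ℕ}
    (hv : ∀ i ∈ J, Even (v i)) {x : Fin N → ℝ} (hx : x ∈ Orth J P) :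
    ∏ i, x i ^ v i = ∏ i, |x i| ^ v i := by
  refine Finset.prod_congr rfl fun i _ => ?_
  by_cases hi : i ∈ J
  · rw [(hv i hi).pow_abs]
  · rw [abs_of_pos (hx.1 i hi)]

theorem ngeo_of_pos {N : ℕ} (J : Finset (Fin N)) {A B : MvPolynomial (Fin N) ℝ} {w : Fin N → ℕ}
    {a c : ℕ} (hc : 0 < c) (hA : HasOrder w a A) (hB : HasOrder w c B) {V : Finset (Fin N →₀ ℕ)}
    (hV : V ⊆ B.support) (hpos : ∀ v ∈ V, 0 < coeff v B) (hJ : ∀ v ∈ V, ∀ i ∈ J, Even (v i))
    (hab : ∀ u ∈ B.support, u ∉ V → Above V u) (hJ' : ∀ i, i ∉ J → X i ∣ A * B)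
    (hT : Spans w (V.filter fun v => wt w v = c)) :
    NGeo w a c A B (V.filter fun v => wt w v = c) (Orth J (A * B)) where
  wpos := by
    by_contra hcon
    push Not at hcon
    obtain ⟨v, -, hv⟩ := hB.2
    rw [wt, Finset.sum_eq_zero] at hv
    · omega
    · intro i _
      have := hcon i
      have h2 : w i = 0 := by omega
      rw [h2, zero_mul]
  ordA := hA
  ordB := hB
  isOpen := isOpen_orth J _
  ne := fun x hx => hx.2
  fr := ⟨1, one_pos, fun x hx _ => frontier_orth J _ hJ' x hx⟩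
  sector := fun ε hε => sector_orth J hA hB ε hε
  wtT := fun v hv => (Finset.mem_filter.1 hv).2
  spanT := hT
  low := by
    obtain ⟨C, r, hr, h⟩ := low_of_above hV hpos hab
    exact ⟨C, r, hr, fun x hx hxr v hv => h x (fun v hv => prod_orth (hJ v hv) hx) hxr v
      (Finset.mem_filter.1 hv).1⟩

theorem hasOrder_mon {N : ℕ} (w : Fin N → ℕ) (n : Fin N → ℕ) :
    HasOrder w (∑ i, w i * n i) (mon n) := by
  have h1 : HasOrder w 0 (1 : MvPolynomial (Fin N) ℝ) := by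
    refine ⟨fun m _ => Nat.zero_le _, 0, ?_, ?_⟩
    · rw [mem_support_iff, coeff_zero_one]
      exact one_ne_zero
    · simp [wt]
  have h2 := h1.mul_mon n
  rwa [one_mul, zero_add] at h2

end Pool.Agent.Helper16.WM
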