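import Pool.Agent.Helper16.WM.Stm

set_option autoImplicit false

/-! # The weighted scaling -/

namespace Pool.Agent.Helper16.WM.SclN

open MvPolynomial MeasureTheory Filter Topology

variable {N : ℕ}

/-- `P (scl w s y) = s ^ a * FF w a P s y` -/
noncomputable def FF (w : Fin N → ℕ) (a : ℕ) (P : MvPolynomial (Fin N) ℝ) (s : ℝ)
    (y : Fin N → ℝ) : ℝ :=
  ∑ m ∈ P.support, coeff m P * s ^ (wt w m - a) * ∏ i, y i ^ m i

theorem eval_scl (w : Fin N → ℕ) (a : ℕ) (P : MvPolynomial (Fin N) ℝ)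
    (hP : ∀ m ∈ P.support, a ≤ wt w m) (s : ℝ) (y : Fin N → ℝ) :
    eval (scl w s y) P = s ^ a * FF w a P s y := by
  rw [eval_eq', FF, Finset.mul_sum]
  refine Finset.sum_congr rfl fun m hm => ?_
  have h1 : ∏ i, scl w s y i ^ m i = s ^ wt w m * ∏ i, y i ^ m i := by
    simp only [scl, mul_pow, Finset.prod_mul_distrib, ← pow_mul, Finset.prod_pow_eq_pow_sum, wt]
  have h2 : s ^ wt w m = s ^ a * s ^ (wt w m - a) := by
    rw [← pow_add, Nat.add_sub_cancel' (hP m hm)]
  rw [h1, h2]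
  ring

theorem continuous_FF (w : Fin N → ℕ) (a : ℕ) (P : MvPolynomial (Fin N) ℝ) :
    Continuous fun p : ℝ × (Fin N → ℝ) => FF w a P p.1 p.2 := by
  unfold FF
  refine continuous_finsetSum _ fun m _ => ?_
  refine Continuous.mul (continuous_const.mul (continuous_fst.pow _)) ?_
  exact continuous_finsetProd _ fun i _ => ((continuous_apply i).comp continuous_snd).pow _

theorem scl_scl (w : Fin N → ℕ) (s t : ℝ) (x : Fin N → ℝ) :
    scl w s (scl w t x) = scl w (s * t) x := by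
  funext i
  rw [scl, scl, scl, mul_pow]
  ring

theorem scl_one (w : Fin N → ℕ) (x : Fin N → ℝ) : scl w 1 x = x := by
  funext i
  rw [scl, one_pow, one_mul]

theorem continuous_scl (w : Fin N → ℕ) (s : ℝ) : Continuous (scl w s) :=
  continuous_pi fun i => continuous_const.mul (continuous_apply i)

/-- the Jacobian -/
theorem measure_scl (w : Fin N → ℕ) {s : ℝ} (hs : 0 < s) (V : Set (Fin N → ℝ)) :
    volume {x | scl w s⁻¹ x ∈ V} = ENNReal.ofReal (s ^ ∑ i, w i) * volume V := by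
  classical
  set f : (Fin N → ℝ) →ₗ[ℝ] (Fin N → ℝ) := Matrix.toLin' (Matrix.diagonal fun i => s⁻¹ ^ w i)
    with hf
  have hdet : LinearMap.det f = s⁻¹ ^ ∑ i, w i := by
    rw [hf, LinearMap.det_toLin', Matrix.det_diagonal, Finset.prod_pow_eq_pow_sum]
  have hne : LinearMap.det f ≠ 0 := by
    rw [hdet]
    exact pow_ne_zero _ (inv_ne_zero hs.ne')
  have h1 : {x | scl w s⁻¹ x ∈ V} = f ⁻¹' V := by
    ext x
    have h2 : f x = scl w s⁻¹ x := by
      funext i
      rw [hf, Matrix.toLin'_apply, Matrix.mulVec_diagonal, scl]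
    rw [Set.mem_preimage, h2]
    rfl
  rw [h1, Measure.addHaar_preimage_linearMap _ hne, hdet, ← inv_pow, inv_inv,
    abs_of_pos (pow_pos hs _)]

/-- the initial part -/
noncomputable def Ini (w : Fin N → ℕ) (a : ℕ) (P : MvPolynomial (Fin N) ℝ) :
    MvPolynomial (Fin N) ℝ :=
  ∑ m ∈ P.support with wt w m = a, monomial m (coeff m P)

theorem ini_ne_zero {w : Fin N → ℕ} {a : ℕ} {P : MvPolynomial (Fin N) ℝ} (h : HasOrder w a P) :
    Ini w a P ≠ 0 := by
  classical
  obtain ⟨_, m, hm, hma⟩ := h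
  intro h0
  have h1 := congrArg (coeff m) h0
  rw [Ini, coeff_sum, coeff_zero] at h1
  simp only [coeff_monomial] at h1
  rw [Finset.sum_ite_eq' _ m, if_pos (Finset.mem_filter.2 ⟨hm, hma⟩)] at h1
  exact mem_support_iff.1 hm h1

theorem eval_ini {w : Fin N → ℕ} {a : ℕ} {P : MvPolynomial (Fin N) ℝ}
    (h : ∀ m ∈ P.support, a ≤ wt w m) (y : Fin N → ℝ) : eval y (Ini w a P) = FF w a P 0 y := by
  classical
  rw [Ini, map_sum, FF, Finset.sum_filter]
  refine Finset.sum_congr rfl fun m hm => ?_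
  split_ifs with h1
  · rw [h1, Nat.sub_self, pow_zero, mul_one, eval_monomial, Finsupp.prod_fintype]
    intro i
    exact pow_zero _
  · have h2 : wt w m - a ≠ 0 := by
      have := h m hm
      omega
    rw [zero_pow h2, mul_zero, zero_mul]

/-- a nonzero polynomial does not vanish on a nonempty open set -/
theorem exists_ne_zero {Q : MvPolynomial (Fin N) ℝ} (hQ : Q ≠ 0) {V : Set (Fin N → ℝ)}
    (hV : IsOpen V) (hVn : V.Nonempty) : ∃ y ∈ V, eval y Q ≠ 0 := by
  by_contra hcon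
  push Not at hcon
  obtain ⟨x, hx⟩ := hVn
  obtain ⟨δ, hδ, hδ'⟩ := Metric.isOpen_iff.1 hV x hx
  apply hQ
  refine funext_set (fun i => Set.Ioo (x i - δ / 2) (x i + δ / 2)) (fun i => ?_) fun y hy => ?_
  · exact Set.Ioo_infinite (by linarith)
  · rw [map_zero]
    apply hcon
    apply hδ'
    rw [Metric.mem_ball]
    refine lt_of_le_of_lt ((dist_pi_le_iff (by linarith : (0:ℝ) ≤ δ / 2)).2 fun i => ?_)
      (by linarith : δ / 2 < δ)
    have h1 := hy i (Set.mem_univ i)
    rw [Real.dist_eq, abs_le]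
    constructor
    · linarith [h1.1]
    · linarith [h1.2]

end Pool.Agent.Helper16.WM.SclN
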