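import Pool.Agent.Helper16.WM.Defs

set_option autoImplicit false

/-! # Frozen statements of the packages -/

namespace Pool.Agent.Helper16.WM

open MvPolynomial MeasureTheory Filter Topology Pool.Agent.H628R4.TP Pool.Agent.Helper48.RC

/-- PACKAGE ABS: the root of a functional equation from a critical integral over a chamber -/
def S_abs : Prop := ∀ (N : ℕ) (g : MvPolynomial (Fin N) ℝ) (Ω : Set (Fin N → ℝ))
  (ψ : (Fin N → ℝ) → ℝ) (κ : ℝ) (b : Polynomial ℝ),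
  IsOpen Ω → (∀ x ∈ Ω, 0 < eval x g) → (∀ x ∈ frontier Ω, eval x g = 0) →
  Test ψ → (∀ x ∈ Ω, 0 ≤ ψ x) → 0 < κ → κ ≤ 1 →
  (∀ t : ℝ, -κ < t → IntegrableOn (fun x => (eval x g) ^ t * ψ x) Ω) →
  ∫⁻ x in Ω, ENNReal.ofReal ((eval x g) ^ (-κ) * ψ x) = ⊤ →
  NF g b → b.eval (-κ) = 0

/-- PACKAGE POW: functional equations of powers -/
def S_pow : Prop := ∀ (K : Type) [Field K] (N : ℕ) (f : MvPolynomial (Fin N) K)
  (b : Polynomial K) (M : ℕ), NF f b →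
  NF (f ^ M) (∏ l ∈ Finset.range M,
    b.comp (Polynomial.C (M : K) * Polynomial.X + Polynomial.C (l : K)))

/-- PACKAGE FIN: the supercritical integrals are finite -/
def S_fin : Prop := ∀ (N : ℕ) (w : Fin N → ℕ) (a b : ℕ) (A B : MvPolynomial (Fin N) ℝ)
  (Ω : Set (Fin N → ℝ)), Geo w a b A B Ω → ∃ r : ℝ, 0 < r ∧
  ∀ (H : MvPolynomial (Fin N) ℝ) (γ : ℕ), HasOrder w γ H → ∀ (k : ℕ) (t : ℝ), 0 ≤ t + k →
    -((∑ i, w i : ℕ) : ℝ) < t * (a + b) + a * k + γ →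
    IntegrableOn (fun x => |eval x A| ^ (t + k) * |eval x B| ^ t * eval x H)
      (Ω ∩ {x | ‖x‖ ≤ r})

/-- PACKAGE INF: the critical integral is infinite -/
def S_inf : Prop := ∀ (N : ℕ) (w : Fin N → ℕ) (a b : ℕ) (A B : MvPolynomial (Fin N) ℝ)
  (Ω : Set (Fin N → ℝ)), Geo w a b A B Ω → ∀ r : ℝ, 0 < r →
  ∀ (H : MvPolynomial (Fin N) ℝ) (γ : ℕ), HasOrder w γ H →
    (∀ x ∈ Ω, ‖x‖ ≤ r → 0 ≤ eval x H) → ∀ (k : ℕ) (t : ℝ), 0 ≤ t + k →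
    t * (a + b) + a * k + γ = -((∑ i, w i : ℕ) : ℝ) →
    ∫⁻ x in Ω ∩ {x | ‖x‖ ≤ r},
      ENNReal.ofReal (|eval x A| ^ (t + k) * |eval x B| ^ t * eval x H) = ⊤

end Pool.Agent.Helper16.WM
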